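import Pool.Agent.Helper14.Gon.Coh

set_option autoImplicit false

/-!
# Rational function fields in several variables
-/

noncomputable section

open Polynomial TensorProduct Filter
open scoped Classical

namespace Helper14.Gon

universe u v w x y

section
variable {K : Type u} [Field K] {L : Type v} [Field L] {M : Type w} [Field M]

lemma resU_comp (ψ : L →+* M) (φ : K →+* L) (v : Additive Kˣ) :
    resU (ψ.comp φ) v = resU ψ (resU φ v) := rfl

lemma resL_comp (j : ℕ) (ψ : L →+* M) (φ : K →+* L) (ω : Lam j K) :
    resL j (ψ.comp φ) ω = resL j ψ (resL j φ ω) := by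
  have : (resL j (ψ.comp φ)).toAddMonoidHom =
      (resL j ψ).toAddMonoidHom.comp (resL j φ).toAddMonoidHom := by
    refine lam_ext fun w => ?_
    change resL j (ψ.comp φ) _ = resL j ψ (resL j φ _)
    rw [resL, resL, resL, exteriorPower.map_apply_ιMulti, exteriorPower.map_apply_ιMulti,
      exteriorPower.map_apply_ιMulti]
    rfl
  exact DFunLike.congr_fun this ω

lemma resC_comp (k j : ℕ) (ψ : L →+* M) (φ : K →+* L) (z : Cx (k + 1) j K) :
    resC k j (ψ.comp φ) z = resC k j ψ (resC k j φ z) := by
  have : resC k j (ψ.comp φ) = (resC k j ψ) ∘ₗ (resC k j φ) := by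
    refine Cx_ext fun x ω => ?_
    rw [LinearMap.comp_apply, resC_gen, resC_gen, resC_gen, resL_comp]
    congr 1
    cases x <;> rfl
  rw [this]; rfl

lemma Hres_comp (k j : ℕ) (ψ : L →+* M) (φ : K →+* L) (z : Hc K k j) :
    Hres (ψ.comp φ) k j z = Hres ψ k j (Hres φ k j z) := by
  obtain ⟨z, rfl⟩ := Submodule.Quotient.mk_surjective _ z
  change Submodule.Quotient.mk (cycMap _ k j z) =
    Submodule.Quotient.mk (cycMap _ k j (cycMap _ k j z))
  congr 1
  exact Subtype.ext (resC_comp (k + 1) j ψ φ z.1)

lemma Hres_id (k j : ℕ) (z : Hc K k j) : Hres (RingHom.id K) k j z = z := by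
  obtain ⟨z, rfl⟩ := Submodule.Quotient.mk_surjective _ z
  change Submodule.Quotient.mk (cycMap _ k j z) = _
  congr 1
  refine Subtype.ext ?_
  change resC (k + 1) j (RingHom.id K) z.1 = z.1
  have : resC (k + 1) j (RingHom.id K) = LinearMap.id := by
    refine Cx_ext fun x ω => ?_
    rw [resC_gen]
    have h1 : resL j (RingHom.id K) ω = ω := by
      have : (resL j (RingHom.id K)).toAddMonoidHom = AddMonoidHom.id _ := by
        refine lam_ext fun w => ?_
        change resL j (RingHom.id K) _ = _
        rw [resL, exteriorPower.map_apply_ιMulti]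
        rfl
      exact DFunLike.congr_fun this ω
    rw [h1]
    cases x <;> rfl
  rw [this]; rfl

end

/-- A field together with a subfield isomorphic to `K`. -/
structure Ext (K : Type u) [Field K] where
  /-- the field -/
  carrier : Type u
  /-- its structure -/
  [fld : Field carrier]
  /-- the embedding of `K` -/
  emb : K →+* carrier

attribute [instance] Ext.fld

/-- The field `K(t_1, …, t_d)` of rational functions in `d` variables, with its embedding of
`K`, obtained by adjoining the variables one after the other. -/
def ratExt (K : Type u) [Field K] : ℕ → Ext K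
  | 0 => { carrier := K, emb := RingHom.id K }
  | d + 1 =>
    { carrier := RatFunc (ratExt K d).carrier
      emb := (RatFunc.C : (ratExt K d).carrier →+* RatFunc (ratExt K d).carrier).comp
        (ratExt K d).emb }

/-- Rigidity for several variables. -/
theorem Hres_bij_tower (K : Type u) [Field K] (k d : ℕ) :
    Function.Bijective (Hres (ratExt K d).emb k 0) := by
  induction d with
  | zero =>
    have : (Hres (ratExt K 0).emb k 0 : Hc K k 0 → _) = id := by
      funext z
      exact Hres_id k 0 z
    rw [this]; exact Function.bijective_id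
  | succ d ih =>
    have : (Hres (ratExt K (d + 1)).emb k 0 : Hc K k 0 → _) =
        (Hres (RatFunc.C : (ratExt K d).carrier →+* RatFunc (ratExt K d).carrier) k 0) ∘
          (Hres (ratExt K d).emb k 0) := by
      funext z
      exact Hres_comp k 0 _ _ z
    rw [this]
    exact (Hres_bij k).comp ih

end Helper14.Gon
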