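import Pool.Agent.Helper14.Gon.Cfun

set_option autoImplicit false

/-!
# Frobenius on the complexes `Γ(F, n) ⊗ ℚ`
-/

noncomputable section

open Polynomial TensorProduct Filter
open scoped Classical

namespace Helper14.Gon

universe u v w x y

/-- If `N • m = 0` with `N ≠ 0` then `1 ⊗ m = 0`. -/
lemma toQ_zero_of {M : Type u} [AddCommGroup M] {m : M} (h : ∃ N : ℤ, N ≠ 0 ∧ N • m = 0) :
    toQ m = 0 := (toQ_eq_zero m).2 h

section
variable (p : ℕ) {F : Type u} [Field F] [CharP F p]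

omit [CharP F p] in
lemma resU_frob [ExpChar F p] (v : Additive Fˣ) :
    resU (frobenius F p) v = (p : ℤ) • v := by
  rw [natCast_zsmul]
  change Additive.ofMul (Units.map (frobenius F p : F →* F) v.toMul) =
    Additive.ofMul (v.toMul ^ p)
  congr 1

lemma resL_frob [ExpChar F p] (j : ℕ) (ω : Lam j F) :
    resL j (frobenius F p) ω = ((p : ℤ) ^ j) • ω := by
  have : (resL j (frobenius F p)).toAddMonoidHom =
      (((p : ℤ) ^ j) • (LinearMap.id : Lam j F →ₗ[ℤ] Lam j F)).toAddMonoidHom := by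
    refine lam_ext fun w => ?_
    change resL j (frobenius F p) _ = ((p : ℤ) ^ j) • _
    rw [resL, exteriorPower.map_apply_ιMulti]
    have e : (fun i => (p : ℤ) • w i) = ((resU (frobenius F p)).toIntLinearMap ∘ w) := by
      funext i
      exact (resU_frob p (w i)).symm
    have h := (exteriorPower.ιMulti ℤ j (M := Additive Fˣ)).map_smul_univ (fun _ => (p : ℤ)) w
    rw [Finset.prod_const, Finset.card_univ, Fintype.card_fin] at h
    exact (congrArg _ e.symm).trans h
  exact DFunLike.congr_fun this ω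

/-- Frobenius acts on the term `B_k(F) ⊗ Λ^j F^* ⊗ ℚ` of `Γ(F, k + j) ⊗ ℚ` as `p ^ (k + j)`. -/
theorem frob_cx [ExpChar F p] (hp : p.Prime) (k j : ℕ) (z : Cx (k + 1) j F) :
    resC k j (frobenius F p) z = ((p : ℚ) ^ (k + 1 + j)) • z := by
  have : resC k j (frobenius F p) =
      (((p : ℚ) ^ (k + 1 + j)) • (LinearMap.id : Cx (k + 1) j F →ₗ[ℚ] _)) := by
    refine Cx_ext fun x ω => ?_
    rw [resC_gen, resL_frob p, LinearMap.smul_apply, LinearMap.id_apply]
    have h1 : cl (k + 1) (mapP (frobenius F p) x) = ((p : ℤ) ^ (k + 1)) • cl (k + 1) x := by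
      cases x with
      | none =>
        have h0 : cl (k + 1) (none : P1 F) = 0 :=
          (QuotientAddGroup.eq_zero_iff _).2 (br_inf_mem k)
        rw [mapP_none, h0, smul_zero]
      | some x =>
        have h0 := (QuotientAddGroup.eq_zero_iff _).2 (frob p hp k F x)
        rw [QuotientAddGroup.mk_sub, sub_eq_zero] at h0
        exact h0
    rw [gen, h1, zs_tmul, tmul_zs, smul_smul, ← pow_add, toQ, tmul_zs, gen]
    have h2 : ((p : ℚ) ^ (k + 1 + j)) = (((p : ℤ) ^ (k + 1 + j) : ℤ) : ℚ) := by push_cast; rfl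
    rw [h2, Int.cast_smul_eq_zsmul]
  rw [this]; rfl

/-- Frobenius acts on the last term `Λ^n F^* ⊗ ℚ` of `Γ(F, n) ⊗ ℚ` as `p ^ n`. -/
theorem frob_tx [ExpChar F p] (n : ℕ) (z : Tx n F) :
    resT n (frobenius F p) z = ((p : ℚ) ^ n) • z := by
  induction z using TensorProduct.induction_on with
  | zero => simp
  | add a b ha hb => rw [map_add, ha, hb, smul_add]
  | tmul q ω =>
    have e : (q ⊗ₜ[ℤ] ω : Tx n F) = q • toQ ω := by
      rw [toQ, smul_tmul', smul_eq_mul, mul_one]
    rw [e, map_smul, resT_toQ, resL_frob p, toQ, tmul_zs, smul_comm]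
    have h2 : ((p : ℚ) ^ n) = (((p : ℤ) ^ n : ℤ) : ℚ) := by push_cast; rfl
    rw [h2, Int.cast_smul_eq_zsmul, smul_comm]

end

section
variable {p : ℕ} (hp : p.Prime) {F : Type u} [Field F] [CharP F p]

include hp

/-- All terms `B_k(F) ⊗ Λ^j F^* ⊗ ℚ`, `k ≥ 1`, vanish for `F` algebraic over `F_p`. -/
theorem cx_zero (h : ∀ x : F, ∃ m : ℕ, m ≠ 0 ∧ x ^ p ^ m = x) (k j : ℕ)
    (z : Cx (k + 1) j F) : z = 0 := by
  have : (LinearMap.id : Cx (k + 1) j F →ₗ[ℚ] _) = 0 := by
    refine Cx_ext fun x ω => ?_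
    rw [LinearMap.id_apply, LinearMap.zero_apply]
    obtain ⟨N, hN, h1⟩ := tors_all p hp h k (br x)
    refine toQ_zero_of ⟨N, hN, ?_⟩
    rw [← zs_tmul]
    have : N • cl (k + 1) x = 0 := (QuotientAddGroup.eq_zero_iff _).2 h1
    rw [this, zero_tmul]
  exact LinearMap.congr_fun this z

omit [CharP F p] in
/-- The last term `Λ^n F^* ⊗ ℚ`, `n ≥ 1`, vanishes for `F` algebraic over `F_p`. -/
theorem tx_zero (h : ∀ x : F, ∃ m : ℕ, m ≠ 0 ∧ x ^ p ^ m = x) (n : ℕ)
    (z : Tx (n + 1) F) : z = 0 := by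
  have key : ∀ ω : Lam (n + 1) F, (toQ ω : Tx (n + 1) F) = 0 := by
    intro ω
    have : ((TensorProduct.mk ℤ ℚ (Lam (n + 1) F) 1).toAddMonoidHom) = 0 := by
      refine lam_ext fun v => ?_
      change toQ (exteriorPower.ιMulti ℤ (n + 1) v) = 0
      obtain ⟨N, hN, h1⟩ := units_tors p hp h (v 0)
      refine toQ_zero_of ⟨N, hN, ?_⟩
      have h2 := (exteriorPower.ιMulti ℤ (n + 1) (M := Additive Fˣ)).map_update_smul v 0 N (v 0)
      rw [Function.update_eq_self] at h2
      rw [← h2]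
      exact (exteriorPower.ιMulti ℤ (n + 1) (M := Additive Fˣ)).map_coord_zero 0
        (by rw [Function.update_self]; exact h1)
    exact DFunLike.congr_fun this ω
  induction z using TensorProduct.induction_on with
  | zero => rfl
  | add a b ha hb => rw [ha, hb, add_zero]
  | tmul q ω =>
    have e : (q ⊗ₜ[ℤ] ω : Tx (n + 1) F) = q • toQ ω := by
      rw [toQ, smul_tmul', smul_eq_mul, mul_one]
    rw [e, key, smul_zero]

end

end Helper14.Gon
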