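import Pool.Agent.Helper14.Gon.FrobThm

set_option autoImplicit false

/-!
# Injectivity of `H^i Γ(K, n) → H^i Γ(L, n)` for existentially closed `K` in `L`
-/

noncomputable section

open Polynomial TensorProduct Filter
open scoped Classical

namespace Helper14.Gon

universe u v w x y

section
variable {I : Type v} {l : Filter I} {K : Type u} [Field K] {L : Type w} [Field L]

namespace EvHom
variable (H : EvHom l L (fun _ => K)) (ι : K →+* L) (hι : ∀ x : K, ∀ᶠ i in l, H.f i (ι x) = x)

include hι

lemma U_res (v : Additive Kˣ) : H.U (resU ι v) = RP.mk (fun _ => v) := by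
  rw [U_apply]
  refine RP.mk_eq.2 ?_
  filter_upwards [hι (v.toMul : K)] with i h1
  change lg (H.f i (ι (v.toMul : K))) = v
  rw [h1, lg_unit]; rfl

lemma wedge_res (j : ℕ) (ω : Lam j K) : H.wedge j (resL j ι ω) = RP.mk (fun _ => ω) := by
  have key : (H.wedge j).toAddMonoidHom.comp (resL j ι).toAddMonoidHom =
      RP.hom (fun ω (_ : I) => ω) (fun _ _ => Eventually.of_forall fun _ => rfl) := by
    refine lam_ext fun w => ?_
    change H.wedge j (resL j ι _) = RP.mk _
    rw [resL, exteriorPower.map_apply_ιMulti, wedge_ιMulti]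
    refine RP.mk_eq.2 ?_
    have : ∀ᶠ i in l, ∀ m ∈ (Finset.univ : Finset (Fin j)), H.un (resU ι (w m)) i = w m :=
      (Finset.eventually_all _).2 fun m _ => RP.mk_eq.1 (H.U_res ι hι (w m))
    filter_upwards [this] with i h1
    congr 1
    funext m
    exact h1 m (Finset.mem_univ m)
  exact DFunLike.congr_fun key ω

lemma cx_res (m j : ℕ) (z : Cx (m + 1) j K) :
    H.cx m j (resC m j ι z) = RP.mk (fun _ => z) := by
  have key : (H.cx m j).comp (resC m j ι).toAddMonoidHom =
      RP.hom (fun z (_ : I) => z) (fun _ _ => Eventually.of_forall fun _ => rfl) := by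
    refine Cx_ext_add fun q x ω => ?_
    change H.cx m j (resC m j ι (q • gen (m + 1) x ω)) = RP.mk _
    rw [map_smul, resC_gen, H.cx_gen m j q _ _ _ (H.wedge_res ι hι j ω)]
    refine RP.mk_eq.2 ?_
    cases x with
    | none => exact Eventually.of_forall fun i => rfl
    | some x =>
      filter_upwards [hι x] with i h1
      rw [mapP_some, mapP_some, h1]
  exact DFunLike.congr_fun key z

lemma tx_res (n : ℕ) (z : Tx n K) :
    H.tx n (resT n ι z) = RP.mk (fun _ => z) := by
  induction z using TensorProduct.induction_on with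
  | zero => rw [map_zero, map_zero, ← RP.mk_zero]
  | add a b ha hb => rw [map_add, map_add, ha, hb, ← RP.mk_add]
  | tmul q ω =>
    have e : (q ⊗ₜ[ℤ] ω : Tx n K) = q • toQ ω := by
      rw [toQ, smul_tmul', smul_eq_mul, mul_one]
    rw [e, map_smul, resT_toQ, H.tx_toQ n q _ _ (H.wedge_res ι hι n ω)]

variable [l.NeBot]

lemma resC_inj (m j : ℕ) (z : Cx (m + 1) j K) (h : resC m j ι z = 0) : z = 0 := by
  have h1 := H.cx_res ι hι m j z
  rw [h, map_zero] at h1
  exact (RP.mk_eq_zero.1 h1.symm).exists.choose_spec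

lemma resT_inj (n : ℕ) (z : Tx n K) (h : resT n ι z = 0) : z = 0 := by
  have h1 := H.tx_res ι hι n z
  rw [h, map_zero] at h1
  exact (RP.mk_eq_zero.1 h1.symm).exists.choose_spec

lemma range_dC (m j : ℕ) (z : Cx (m + 2) (j + 1) K) (η : Cx (m + 3) j L)
    (h : dC m j η = resC (m + 1) (j + 1) ι z) : ∃ η' : Cx (m + 3) j K, dC m j η' = z := by
  have h1 := H.cx_res ι hι (m + 1) (j + 1) z
  rw [← h, H.cx_dC] at h1
  obtain ⟨η', hη⟩ := RP.exists_rep (H.cx (m + 2) j η)
  rw [← hη, RP.map_mk] at h1
  obtain ⟨i, hi⟩ := (RP.mk_eq.1 h1).exists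
  exact ⟨η' i, hi⟩

lemma range_dT (j : ℕ) (z : Tx (j + 2) K) (η : Cx 2 j L)
    (h : dT j η = resT (j + 2) ι z) : ∃ η' : Cx 2 j K, dT j η' = z := by
  have h1 := H.tx_res ι hι (j + 2) z
  rw [← h, H.tx_dT] at h1
  obtain ⟨η', hη⟩ := RP.exists_rep (H.cx 1 j η)
  rw [← hη, RP.map_mk] at h1
  obtain ⟨i, hi⟩ := (RP.mk_eq.1 h1).exists
  exact ⟨η' i, hi⟩

end EvHom

end

section
variable {K : Type u} [Field K] {L : Type u} [Field L] [Algebra K L]

/-- A family of points of finitely generated subalgebras gives an eventual homomorphism. -/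
def pointsHom (φ : ∀ s : Finset L, Algebra.adjoin K (s : Set L) →ₐ[K] K) :
    EvHom (atTop : Filter (Finset L)) L (fun _ => K) where
  f s x := if h : x ∈ Algebra.adjoin K (s : Set L) then φ s ⟨x, h⟩ else 0
  zero := Eventually.of_forall fun s => by
    rw [dif_pos (zero_mem _)]
    exact map_zero (φ s)
  one := Eventually.of_forall fun s => by
    rw [dif_pos (one_mem _)]
    exact map_one (φ s)
  add x y := by
    filter_upwards [eventually_ge_atTop ({x, y} : Finset L)] with s hs
    have hx : x ∈ Algebra.adjoin K (s : Set L) := Algebra.subset_adjoin (hs (by simp))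
    have hy : y ∈ Algebra.adjoin K (s : Set L) := Algebra.subset_adjoin (hs (by simp))
    rw [dif_pos hx, dif_pos hy, dif_pos (add_mem hx hy), ← map_add]
    rfl
  mul x y := by
    filter_upwards [eventually_ge_atTop ({x, y} : Finset L)] with s hs
    have hx : x ∈ Algebra.adjoin K (s : Set L) := Algebra.subset_adjoin (hs (by simp))
    have hy : y ∈ Algebra.adjoin K (s : Set L) := Algebra.subset_adjoin (hs (by simp))
    rw [dif_pos hx, dif_pos hy, dif_pos (mul_mem hx hy), ← map_mul]
    rfl

lemma pointsHom_const (φ : ∀ s : Finset L, Algebra.adjoin K (s : Set L) →ₐ[K] K) (x : K) :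
    ∀ᶠ s in (atTop : Filter (Finset L)), (pointsHom φ).f s (algebraMap K L x) = x := by
  refine Eventually.of_forall fun s => ?_
  have h : algebraMap K L x ∈ Algebra.adjoin K (s : Set L) := Subalgebra.algebraMap_mem _ x
  change (if h : _ ∈ Algebra.adjoin K (s : Set L) then φ s ⟨_, h⟩ else 0) = x
  rw [dif_pos h]
  exact (φ s).commutes x

/-- Over an algebraically closed field every finitely generated algebra without zero
divisors has a rational point. -/
lemma exists_point [IsAlgClosed K] (s : Finset L) :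
    Nonempty (Algebra.adjoin K (s : Set L) →ₐ[K] K) := by
  set A := Algebra.adjoin K (s : Set L)
  obtain ⟨M, hM⟩ := Ideal.exists_maximal A
  have hfg : Algebra.FiniteType K A := Subalgebra.fg_iff_finiteType _ |>.1 ⟨s, rfl⟩
  have : Algebra.FiniteType K (A ⧸ M) := inferInstance
  let _ : Field (A ⧸ M) := Ideal.Quotient.field M
  have hfin : Module.Finite K (A ⧸ M) := finite_of_finite_type_of_isJacobsonRing K (A ⧸ M)
  have hint : Algebra.IsIntegral K (A ⧸ M) := inferInstance
  have hbij := IsAlgClosed.algebraMap_bijective_of_isIntegral (k := K) (K := A ⧸ M)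
  let e : K ≃ₐ[K] (A ⧸ M) := AlgEquiv.ofBijective (Algebra.ofId K (A ⧸ M)) hbij
  exact ⟨(e.symm : (A ⧸ M) →ₐ[K] K).comp (Ideal.Quotient.mkₐ K M)⟩

end

end Helper14.Gon
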