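import Pool.Agent.Helper14.Gon.Alt

set_option autoImplicit false

/-!
# Exactness at the last but one place
-/

noncomputable section

open Polynomial TensorProduct Filter
open scoped Classical

namespace Helper14.Gon

universe u v w x y

section
variable {F : Type u} [Field F] (hb : Bij2 F)

lemma mul3_apply (j : ℕ) (v : Fin (j + 3) → Additive Fˣ) :
    mul3 hb j v = b3 hb j (v 0) (v 1)
      (exteriorPower.ιMulti ℤ (j + 1) (fun i => v i.succ.succ)) := rfl

/-- The hypothesis that the symmetrised map vanishes. -/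
def SymZero (j : ℕ) : Prop := ∀ (ω : Lam j F) (u v w : Additive Fˣ), T3 hb j ω u v w = 0

lemma mul3_swap (j : ℕ) (hs : SymZero hb j) (v : Fin (j + 3) → Additive Fˣ)
    (i : Fin (j + 2)) :
    mul3 hb j (v ∘ Equiv.swap i.castSucc i.succ) = - mul3 hb j v := by
  rw [mul3_apply, mul3_apply]
  refine Fin.cases ?_ (fun i => ?_) i
  · have e0 : (v ∘ Equiv.swap (0 : Fin (j + 2)).castSucc (0 : Fin (j + 2)).succ) 0 = v 1 := by
      rw [Function.comp_apply, Fin.castSucc_zero, Equiv.swap_apply_left]; rfl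
    have e1 : (v ∘ Equiv.swap (0 : Fin (j + 2)).castSucc (0 : Fin (j + 2)).succ) 1 = v 0 := by
      rw [Function.comp_apply, Fin.castSucc_zero, Fin.succ_zero_eq_one, Equiv.swap_apply_right]
    have e2 : (fun i : Fin (j + 1) => (v ∘ Equiv.swap (0 : Fin (j + 2)).castSucc
        (0 : Fin (j + 2)).succ) i.succ.succ) = fun i => v i.succ.succ := by
      funext i
      rw [Function.comp_apply, Fin.castSucc_zero, Fin.succ_zero_eq_one,
        Equiv.swap_apply_of_ne_of_ne (ss_ne_zero i) (ss_ne_one i)]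
    rw [e0, e1, e2, b3, b3, be_swap hb (v 0) (v 1), map_neg, map_neg]
  · refine Fin.cases ?_ (fun i => ?_) i
    · set σ := Equiv.swap (Fin.succ (0 : Fin (j + 1))).castSucc
        (Fin.succ (0 : Fin (j + 1))).succ with hσ
      have hl : (Fin.succ (0 : Fin (j + 1))).castSucc = (1 : Fin (j + 3)) := rfl
      have hr : (Fin.succ (0 : Fin (j + 1))).succ = (2 : Fin (j + 3)) := rfl
      have e0 : (v ∘ σ) 0 = v 0 := by
        rw [Function.comp_apply, hσ, Equiv.swap_apply_of_ne_of_ne]
        · rw [hl]; exact fun h => absurd (congrArg Fin.val h) (by simp)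
        · exact (Fin.succ_ne_zero _).symm
      have e1 : (v ∘ σ) 1 = v 2 := by
        rw [Function.comp_apply, hσ, hl, hr, Equiv.swap_apply_left]
      have e2 : (fun i : Fin (j + 1) => (v ∘ σ) i.succ.succ) =
          Matrix.vecCons (v 1) (fun i : Fin j => v i.succ.succ.succ) := by
        funext i
        refine Fin.cases ?_ (fun i => ?_) i
        · change (v ∘ σ) 2 = v 1
          rw [Function.comp_apply, hσ, hl, hr, Equiv.swap_apply_right]
        · change (v ∘ σ) i.succ.succ.succ = v i.succ.succ.succ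
          rw [Function.comp_apply, hσ, hl, Equiv.swap_apply_of_ne_of_ne]
          · exact ss_ne_one i.succ
          · intro h
            have := congrArg Fin.val h
            simp only [Fin.val_succ] at this
            have h2 : ((0 : Fin (j + 1)) : ℕ) = 0 := rfl
            omega
      have e3 : (fun i : Fin (j + 1) => v i.succ.succ) =
          Matrix.vecCons (v 2) (fun i : Fin j => v i.succ.succ.succ) := by
        funext i
        refine Fin.cases ?_ (fun i => ?_) i
        · rfl
        · rfl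
      rw [e0, e1, e2, e3, ← wL_ιMulti, ← wL_ιMulti]
      have h := hs (exteriorPower.ιMulti ℤ j (fun i : Fin j => v i.succ.succ.succ))
        (v 0) (v 2) (v 1)
      rw [T3_apply] at h
      exact eq_neg_of_add_eq_zero_left h
    · set σ := Equiv.swap (Fin.succ (Fin.succ i)).castSucc (Fin.succ (Fin.succ i)).succ with hσ
      have hl : (Fin.succ (Fin.succ i)).castSucc = (i.castSucc.succ.succ : Fin (j + 3)) := rfl
      have e0 : (v ∘ σ) 0 = v 0 := by
        rw [Function.comp_apply, hσ, hl, Equiv.swap_apply_of_ne_of_ne]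
        · exact (Fin.succ_ne_zero _).symm
        · exact (Fin.succ_ne_zero _).symm
      have e1 : (v ∘ σ) 1 = v 1 := by
        rw [Function.comp_apply, hσ, hl, Equiv.swap_apply_of_ne_of_ne]
        · exact (ss_ne_one _).symm
        · exact (ss_ne_one _).symm
      have e2 : (fun m : Fin (j + 1) => (v ∘ σ) m.succ.succ) =
          (fun m : Fin (j + 1) => v m.succ.succ) ∘ Equiv.swap i.castSucc i.succ := by
        funext m
        simp only [Function.comp_apply]
        congr 1
        by_cases h1 : m = i.castSucc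
        · subst h1
          rw [Equiv.swap_apply_left, hσ, hl, Equiv.swap_apply_left]
        · by_cases h2 : m = i.succ
          · subst h2
            rw [hσ, hl, Equiv.swap_apply_right, Equiv.swap_apply_right]
          · rw [Equiv.swap_apply_of_ne_of_ne h1 h2, hσ, hl, Equiv.swap_apply_of_ne_of_ne]
            · intro h; exact h1 (Fin.succ_injective _ (Fin.succ_injective _ h))
            · intro h; exact h2 (Fin.succ_injective _ (Fin.succ_injective _ h))
      rw [e0, e1, e2, (exteriorPower.ιMulti ℤ (j + 1)).map_swap _ (Fin.castSucc_lt_succ).ne]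
      exact map_neg (b3H hb j (v 0) (v 1)) _

/-- The inverse construction `Λ^{j+3} → Qu F j`. -/
def psi (j : ℕ) (hs : SymZero hb j) : Lam (j + 3) F →ₗ[ℤ] Qu F j :=
  exteriorPower.alternatingMapLinearEquiv (altOf (mul3 hb j) (mul3_swap hb j hs))

lemma psi_ιMulti (j : ℕ) (hs : SymZero hb j) (v : Fin (j + 3) → Additive Fˣ) :
    psi hb j hs (exteriorPower.ιMulti ℤ (j + 3) v) = mul3 hb j v := by
  simp only [psi]
  rw [exteriorPower.alternatingMapLinearEquiv_apply_ιMulti]
  rfl

/-- The rational version. -/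
def psiQ (j : ℕ) (hs : SymZero hb j) : Tx (j + 3) F →ₗ[ℚ] Qu F j :=
  LinearMap.liftBaseChange ℚ (psi hb j hs)

lemma psiQ_toQ (j : ℕ) (hs : SymZero hb j) (ω : Lam (j + 3) F) :
    psiQ hb j hs (toQ ω) = psi hb j hs ω := by
  simp only [psiQ, toQ]
  exact LinearMap.liftBaseChange_one_tmul ℚ _ _

lemma psiQ_dT (j : ℕ) (hs : SymZero hb j) :
    (psiQ hb j hs) ∘ₗ (dT (j + 1)) =
      (LinearMap.range (dC 0 j : Cx 3 j F →ₗ[ℚ] _)).mkQ := by
  refine Cx_ext fun x ω => ?_
  rw [LinearMap.comp_apply, dT_gen, psiQ_toQ]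
  cases x with
  | none =>
    have h0 : (gen 2 none ω : Cx 2 (j + 1) F) = 0 := by
      have : cl 2 (none : P1 F) = 0 := (QuotientAddGroup.eq_zero_iff _).2 (br_inf_mem 1)
      rw [gen, this, zero_tmul, toQ, tmul_zero]
    rw [h0, d2, map_zero, LinearMap.zero_apply, map_zero, map_zero]
  | some f =>
    have key : (psi hb j hs).toAddMonoidHom.comp
        (mulW (j + 1) (d2 (some f))).toAddMonoidHom =
        b3H hb j (lg (1 - f)) (lg f) := by
      refine lam_ext fun w => ?_
      change psi hb j hs (mulW (j + 1) (wdg (lg (1 - f)) (lg f)) _) = b3 hb j _ _ _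
      have : mulW (j + 1) (wdg (lg (1 - f)) (lg f)) (exteriorPower.ιMulti ℤ (j + 1) w) =
          exteriorPower.ιMulti ℤ (j + 3)
            (Matrix.vecCons (lg (1 - f)) (Matrix.vecCons (lg f) w)) := by
        rw [mulW_wdg, wL_ιMulti, wL_ιMulti]
      rw [this, psi_ιMulti, mul3_apply]
      rfl
    have h1 : psi hb j hs (mulW (j + 1) (d2 (some f)) ω) =
        b3 hb j (lg (1 - f)) (lg f) ω := DFunLike.congr_fun key ω
    change psi hb j hs (mulW (j + 1) (d2 (some f)) ω) = _
    rw [h1, b3, be_f]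
    change qk j (mW 2 (j + 1) ω (g0 2 (some f))) = _
    rw [mW_g0]
    rfl

/-- Exactness at `B_2 ⊗ Λ^{j+1}`. -/
theorem exact_of (j : ℕ) (hs : SymZero hb j) : cyc F 0 (j + 1) ≤ bdry F 0 (j + 1) := by
  intro z hz
  have h1 : dT (j + 1) z = 0 := hz
  have h2 := LinearMap.congr_fun (psiQ_dT hb j hs) z
  rw [LinearMap.comp_apply, h1, map_zero] at h2
  exact (Submodule.Quotient.mk_eq_zero _).1 h2.symm

end

section
variable {K : Type u} [Field K]

/-- `dT 0` is bijective for `K(t)`, `K` an algebraic closure of `F_p`. -/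
theorem bij2 [IsAlgClosed K] {p : ℕ} (hp : p.Prime) [CharP K p]
    (h : ∀ x : K, ∃ m : ℕ, m ≠ 0 ∧ x ^ p ^ m = x) : Bij2 (RatFunc K) where
  inj z hz := by
    obtain ⟨y, _, h1⟩ := cyc_surj (K := K) 0 z hz
    rw [← h1, cx_zero hp h 1 0 y, map_zero]
  surj v w := tw_mem (constTors_of hp h) v w

/-- `H^{n-1}(Γ(K(t), n) ⊗ ℚ) = 0` for all `n ≥ 2`, `K` an algebraic closure of `F_p`. -/
theorem exact_ratFunc [IsAlgClosed K] {p : ℕ} (hp : p.Prime) [CharP K p]
    (h : ∀ x : K, ∃ m : ℕ, m ≠ 0 ∧ x ^ p ^ m = x) (j : ℕ) :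
    cyc (RatFunc K) 0 j ≤ bdry (RatFunc K) 0 j := by
  cases j with
  | zero =>
    intro z hz
    have := (bij2 hp h).inj z hz
    rw [this]; exact zero_mem _
  | succ j =>
    refine exact_of (bij2 hp h) j fun ω u v w => ?_
    exact tri_zero (constTors_of hp h) (T3 (bij2 hp h) j ω)
      (fun u v w => T3_sym _ j ω u v w) (fun f _ _ => T3_f _ j ω f) u v w

/-- `H^n(Γ(K(t), n) ⊗ ℚ) = 0` for all `n ≥ 2`, `K` an algebraic closure of `F_p`. -/
theorem top_ratFunc [IsAlgClosed K] {p : ℕ} (hp : p.Prime) [CharP K p]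
    (h : ∀ x : K, ∃ m : ℕ, m ≠ 0 ∧ x ^ p ^ m = x) (j : ℕ) :
    LinearMap.range (dT j : Cx 2 j (RatFunc K) →ₗ[ℚ] _) = ⊤ :=
  dT_surj (bij2 hp h).surj j

end

end Helper14.Gon
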