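import Pool.Agent.Helper14.Gon.Bridge
import Pool.Agent.Helper14.Gon.Exact
import Pool.Agent.Helper14.Gon.Tower

set_option autoImplicit false

/-!
# The results in terms of the definitions of `Iface.lean` and `Bridge.lean`
-/

noncomputable section

open Polynomial TensorProduct
open scoped Classical

namespace Helper14.Gon

universe u v w

/-- `H^1(Γ(F, k + 2) ⊗ ℚ)`, the kernel of the first differential. -/
def ZZ (k : ℕ) (F : Type u) [Field F] : Submodule ℚ (CC k 0 F) :=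
  match k with
  | 0 => LinearMap.ker (dl 0 F)
  | k + 1 => LinearMap.ker (dd k 0 F)

lemma mem_ZZ (k : ℕ) {F : Type u} [Field F] (z : CC k 0 F) :
    z ∈ ZZ k F ↔ eC F k 0 z ∈ cyc F k 0 := by
  cases k with
  | zero =>
    change dl 0 F z = 0 ↔ dT 0 (eC F 0 0 z) = 0
    rw [← dl_eq]
    exact (LinearEquiv.map_eq_zero_iff (eT F 2)).symm
  | succ k =>
    change dd k 0 F z = 0 ↔ dC k 0 (eC F (k + 1) 0 z) = 0
    rw [← dd_eq]
    exact (LinearEquiv.map_eq_zero_iff (eC F k 1)).symm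

/-- The square of the differential is zero. -/
theorem dd_dd (k j : ℕ) {F : Type u} [Field F] (z : CC (k + 2) j F) :
    dd k (j + 1) F (dd (k + 1) j F z) = 0 := by
  apply (eC F k (j + 2)).injective
  rw [dd_eq, dd_eq, map_zero]
  exact LinearMap.congr_fun (dC_dC k j) (eC F (k + 2) j z)

/-- The square of the differential is zero. -/
theorem dl_dd (j : ℕ) {F : Type u} [Field F] (z : CC 1 j F) :
    dl (j + 1) F (dd 0 j F z) = 0 := by
  apply (eT F (j + 3)).injective
  rw [dl_eq, dd_eq, map_zero]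
  exact LinearMap.congr_fun (dT_dC j) (eC F 1 j z)

/-- The complexes `Γ(F, n) ⊗ ℚ` are acyclic for all `n ≥ 2`: the first differential of each is
injective, the last one is surjective, and they are exact in between. -/
def Acyclic (F : Type u) [Field F] : Prop :=
  Function.Injective (dl 0 F) ∧ (∀ k : ℕ, Function.Injective (dd k 0 F)) ∧
  (∀ k j : ℕ, Function.Exact (dd (k + 1) j F) (dd k (j + 1) F)) ∧
  (∀ j : ℕ, Function.Exact (dd 0 j F) (dl (j + 1) F)) ∧
  (∀ j : ℕ, Function.Surjective (dl j F))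

section
variable {p : ℕ} {F : Type u} [Field F] [CharP F p]

theorem frob_CC [ExpChar F p] (hp : p.Prime) (k j : ℕ) (z : CC k j F) :
    rs k j (frobenius F p) z = ((p : ℚ) ^ (k + j + 2)) • z := by
  apply (eC F k j).injective
  rw [rs_eq, frob_cx p hp, map_smul]
  congr 2
  ring

theorem frob_TT [ExpChar F p] (n : ℕ) (z : TT n F) :
    rt n (frobenius F p) z = ((p : ℚ) ^ n) • z := by
  apply (eT F n).injective
  rw [rt_eq, frob_tx p, map_smul]

theorem CC_zero (hp : p.Prime) (h : ∀ x : F, ∃ m : ℕ, m ≠ 0 ∧ x ^ p ^ m = x) (k j : ℕ)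
    (z : CC k j F) : z = 0 := by
  apply (eC F k j).injective
  rw [cx_zero hp h (k + 1) j (eC F k j z), map_zero]

omit [CharP F p] in
theorem TT_zero (hp : p.Prime) (h : ∀ x : F, ∃ m : ℕ, m ≠ 0 ∧ x ^ p ^ m = x) (n : ℕ)
    (z : TT (n + 1) F) : z = 0 := by
  apply (eT F (n + 1)).injective
  rw [tx_zero hp h n (eT F (n + 1) z), map_zero]

end

section
variable {K : Type u} [Field K] {L : Type v} [Field L]

theorem rs_ZZ (k : ℕ) (φ : K →+* L) (z : CC k 0 K) (hz : z ∈ ZZ k K) :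
    rs k 0 φ z ∈ ZZ k L := by
  rw [mem_ZZ] at hz ⊢
  rw [rs_eq]
  exact resC_cyc φ k 0 hz

/-- Bijectivity in degree one in terms of `ZZ`. -/
theorem bijOn_of (k : ℕ) (φ : K →+* L) (h : Function.Bijective (Hres φ k 0)) :
    Set.BijOn (rs k 0 φ) (ZZ k K) (ZZ k L) := by
  refine ⟨fun z hz => rs_ZZ k φ z hz, ?_, ?_⟩
  · intro a ha b hb hab
    have h0 : resC (k + 1) 0 φ (eC K k 0 (a - b)) = 0 := by
      rw [← rs_eq, map_sub, hab, sub_self, map_zero]
    have hc : eC K k 0 (a - b) ∈ cyc K k 0 := by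
      rw [← mem_ZZ]; exact sub_mem ha hb
    have h1 : Hres φ k 0 (Submodule.Quotient.mk ⟨_, hc⟩) = 0 := by
      rw [Hres_mk_eq_zero]
      change resC (k + 1) 0 φ (eC K k 0 (a - b)) ∈ _
      rw [h0]; exact zero_mem _
    have h2 := (injective_iff_map_eq_zero _).1 h.1 _ h1
    rw [Submodule.Quotient.mk_eq_zero] at h2
    have h3 : eC K k 0 (a - b) = 0 := h2
    have h4 : a - b = 0 := (LinearEquiv.map_eq_zero_iff _).1 h3
    exact sub_eq_zero.1 h4
  · intro z hz
    have hz' : eC L k 0 z ∈ cyc L k 0 := (mem_ZZ k z).1 hz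
    obtain ⟨y, hy⟩ := h.2 (Submodule.Quotient.mk ⟨_, hz'⟩)
    obtain ⟨y, rfl⟩ := Submodule.Quotient.mk_surjective _ y
    have h1 : Submodule.Quotient.mk (p := (bdry L k 0).submoduleOf (cyc L k 0))
      (cycMap φ k 0 y) = Submodule.Quotient.mk ⟨_, hz'⟩ := hy
    rw [Submodule.Quotient.eq] at h1
    have h2 : resC (k + 1) 0 φ y.1 - eC L k 0 z = 0 := h1
    refine ⟨(eC K k 0).symm y.1, ?_, ?_⟩
    · change (eC K k 0).symm y.1 ∈ ZZ k K
      rw [mem_ZZ, LinearEquiv.apply_symm_apply]; exact y.2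
    · apply (eC L k 0).injective
      rw [rs_eq, LinearEquiv.apply_symm_apply]
      exact sub_eq_zero.1 h2

end

section
variable {K L : Type u} [Field K] [Field L] [Algebra K L]
    (h : ∀ s : Finset L, Nonempty (Algebra.adjoin K (s : Set L) →ₐ[K] K))

include h

theorem rs_inj (k j : ℕ) (z : CC k j K) (hz : rs k j (algebraMap K L) z = 0) : z = 0 := by
  let H := pointsHom (fun s => (h s).some)
  have h1 : resC (k + 1) j (algebraMap K L) (eC K k j z) = 0 := by
    rw [← rs_eq, hz, map_zero]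
  have h2 := H.resC_inj _ (pointsHom_const _) (k + 1) j _ h1
  exact (LinearEquiv.map_eq_zero_iff _).1 h2

theorem rs_bdry (k j : ℕ) (z : CC k (j + 1) K) (y : CC (k + 1) j L)
    (hy : dd k j L y = rs k (j + 1) (algebraMap K L) z) : ∃ y', dd k j K y' = z := by
  let H := pointsHom (fun s => (h s).some)
  have h1 : dC k j (eC L (k + 1) j y) =
      resC (k + 1) (j + 1) (algebraMap K L) (eC K k (j + 1) z) := by
    rw [← dd_eq, hy, rs_eq]
  obtain ⟨y', hy'⟩ := H.range_dC _ (pointsHom_const _) k j _ _ h1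
  refine ⟨(eC K (k + 1) j).symm y', ?_⟩
  apply (eC K k (j + 1)).injective
  rw [dd_eq, LinearEquiv.apply_symm_apply, hy']

theorem rt_bdry (j : ℕ) (z : TT (j + 2) K) (y : CC 0 j L)
    (hy : dl j L y = rt (j + 2) (algebraMap K L) z) : ∃ y', dl j K y' = z := by
  let H := pointsHom (fun s => (h s).some)
  have h1 : dT j (eC L 0 j y) =
      resT (j + 2) (algebraMap K L) (eT K (j + 2) z) := by
    rw [← dl_eq, hy, rt_eq]
  obtain ⟨y', hy'⟩ := H.range_dT _ (pointsHom_const _) j _ _ h1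
  refine ⟨(eC K 0 j).symm y', ?_⟩
  apply (eT K (j + 2)).injective
  rw [dl_eq, LinearEquiv.apply_symm_apply, hy']

end

section
variable {K : Type u} [Field K] {p : ℕ} (hp : p.Prime) [CharP K p]
    (h : ∀ x : K, ∃ m : ℕ, m ≠ 0 ∧ x ^ p ^ m = x)

include hp h

theorem ratFunc_deg1 (k : ℕ) : ZZ k (RatFunc K) = ⊥ := by
  rw [eq_bot_iff]
  intro z hz
  rw [mem_ZZ] at hz
  obtain ⟨y, _, hy⟩ := cyc_surj k _ hz
  rw [cx_zero hp h (k + 1) 0 y, map_zero] at hy
  exact (LinearEquiv.map_eq_zero_iff _).1 hy.symm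

variable [IsAlgClosed K]

theorem ratFunc_next (j : ℕ) (z : CC 0 (j + 1) (RatFunc K)) (hz : dl (j + 1) (RatFunc K) z = 0) :
    ∃ y, dd 0 j (RatFunc K) y = z := by
  have h1 : eC (RatFunc K) 0 (j + 1) z ∈ cyc (RatFunc K) 0 (j + 1) := by
    change dT (j + 1) _ = 0
    rw [← dl_eq, hz, map_zero]
  obtain ⟨y, hy⟩ := exact_ratFunc hp h (j + 1) h1
  refine ⟨(eC (RatFunc K) 1 j).symm y, ?_⟩
  apply (eC (RatFunc K) 0 (j + 1)).injective
  rw [dd_eq, LinearEquiv.apply_symm_apply, hy]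

theorem ratFunc_top (j : ℕ) (z : TT (j + 2) (RatFunc K)) :
    ∃ y, dl j (RatFunc K) y = z := by
  have h1 : eT (RatFunc K) (j + 2) z ∈ LinearMap.range (dT j : Cx 2 j (RatFunc K) →ₗ[ℚ] _) := by
    rw [top_ratFunc hp h j]; trivial
  obtain ⟨y, hy⟩ := h1
  refine ⟨(eC (RatFunc K) 0 j).symm y, ?_⟩
  apply (eT (RatFunc K) (j + 2)).injective
  rw [dl_eq, LinearEquiv.apply_symm_apply, hy]

end

end Helper14.Gon
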