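import Pool.Agent.Helper14.Gon.Fpt

set_option autoImplicit false

/-!
# Exactness at `B_2 ⊗ Λ^{n-2}` from the key computation
-/

noncomputable section

open Polynomial TensorProduct Filter
open scoped Classical

namespace Helper14.Gon

universe u v w x y

/-- A multilinear map changing sign under the swaps of neighbours is alternating. -/
def altOf {V : Type u} [AddCommGroup V] {Q : Type v} [AddCommGroup Q] [Module ℚ Q] {n : ℕ}
    (f : MultilinearMap ℤ (fun _ : Fin (n + 1) => V) Q)
    (h : ∀ (v : Fin (n + 1) → V) (i : Fin n),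
      f (v ∘ Equiv.swap i.castSucc i.succ) = - f v) : V [⋀^Fin (n + 1)]→ₗ[ℤ] Q :=
  { f with
    map_eq_zero_of_eq' := by
      intro v i j hij hne
      have key : ∀ (σ : Equiv.Perm (Fin (n + 1))) (v : Fin (n + 1) → V),
          f (v ∘ σ) = (Equiv.Perm.sign σ : ℤ) • f v := by
        intro σ
        have hσ : σ ∈ Submonoid.closure
            (Set.range fun i : Fin n => Equiv.swap i.castSucc i.succ) := by
          rw [Equiv.Perm.mclosure_swap_castSucc_succ]; trivial
        induction hσ using Submonoid.closure_induction with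
        | mem x hx =>
          obtain ⟨i, rfl⟩ := hx
          intro v
          rw [h v i, Equiv.Perm.sign_swap (Fin.castSucc_lt_succ).ne]
          simp
        | one => intro v; simp
        | mul x y _ _ hx hy =>
          intro v
          have : v ∘ (x * y : Equiv.Perm (Fin (n + 1))) = (v ∘ x) ∘ y := rfl
          rw [this, hy, hx, Equiv.Perm.sign_mul, smul_smul, Units.val_mul, mul_comm]
      have h1 := key (Equiv.swap i j) v
      have h2 : v ∘ Equiv.swap i j = v := by
        funext m
        rw [Function.comp_apply]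
        by_cases hm : m = i
        · subst hm; rw [Equiv.swap_apply_left, hij]
        · by_cases hm' : m = j
          · subst hm'; rw [Equiv.swap_apply_right, hij]
          · rw [Equiv.swap_apply_of_ne_of_ne hm hm']
      rw [h2, Equiv.Perm.sign_swap hne] at h1
      change f v = 0
      have h3 : (2 : ℤ) • f v = 0 := by
        rw [two_zsmul]
        nth_rewrite 1 [h1]
        simp
      exact q_tors two_ne_zero h3 }

section
variable {F : Type u} [Field F]

/-- Data: `dT 0` is bijective. -/
structure Bij2 (F : Type u) [Field F] : Prop where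
  inj : ∀ z : Cx 2 0 F, dT 0 z = 0 → z = 0
  surj : ∀ v w : Additive Fˣ, tw v w ∈ LinearMap.range (dT 0 : Cx 2 0 F →ₗ[ℚ] _)

variable (hb : Bij2 F)

/-- The inverse of `dT 0`. -/
def invT : Tx 2 F →ₗ[ℚ] Cx 2 0 F :=
  (LinearEquiv.ofBijective (dT 0 : Cx 2 0 F →ₗ[ℚ] Tx 2 F)
    ⟨(injective_iff_map_eq_zero _).2 hb.inj,
      LinearMap.range_eq_top.1 (dT_surj hb.surj 0)⟩).symm.toLinearMap

lemma invT_dT (z : Cx 2 0 F) : invT hb (dT 0 z) = z :=
  LinearEquiv.symm_apply_apply _ z

/-- The element of `B_2 ⊗ ℚ` mapping to `v ∧ w`. -/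
def be : Additive Fˣ →+ Additive Fˣ →+ Cx 2 0 F :=
  AddMonoidHom.mk' (fun v => (invT hb).toAddMonoidHom.comp (tw v)) (by
    intro a b
    refine DFunLike.ext _ _ fun w => ?_
    change invT hb (tw (a + b) w) = invT hb (tw a w) + invT hb (tw b w)
    rw [map_add, AddMonoidHom.add_apply, map_add])

lemma be_apply (v w : Additive Fˣ) : be hb v w = invT hb (tw v w) := rfl

lemma be_f (f : F) : be hb (lg (1 - f)) (lg f) = g0 2 (some f) := by
  rw [be_apply, tw_apply]
  have : toQ (wdg (lg (1 - f)) (lg f)) = dT 0 (g0 2 (some f)) := by rw [dT_g0]; rfl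
  rw [this, invT_dT]

lemma be_self (v : Additive Fˣ) : be hb v v = 0 := by
  rw [be_apply, tw_apply, wdg_self, toQ, tmul_zero, map_zero]

lemma be_swap (v w : Additive Fˣ) : be hb w v = - be hb v w := by
  have h := be_self hb (v + w)
  simp only [map_add, AddMonoidHom.add_apply, be_self hb v, be_self hb w] at h
  rw [zero_add, add_zero] at h
  exact eq_neg_of_add_eq_zero_left h

/-- The quotient of `B_2 ⊗ Λ^{j+1}` by the image of `B_3 ⊗ Λ^j`. -/
abbrev Qu (F : Type u) [Field F] (j : ℕ) : Type u :=
  Cx 2 (j + 1) F ⧸ LinearMap.range (dC 0 j : Cx 3 j F →ₗ[ℚ] _)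

/-- The class in the quotient. -/
def qk (j : ℕ) : Cx 2 (j + 1) F →+ Qu F j :=
  (LinearMap.range (dC 0 j : Cx 3 j F →ₗ[ℚ] _)).mkQ.toAddMonoidHom

/-- The map `(v, w, ω) ↦ [be(v, w) ⊗ ω]`. -/
def b3 (j : ℕ) (u v : Additive Fˣ) (ω : Lam (j + 1) F) : Qu F j :=
  qk j (mWH 2 (j + 1) ω (be hb u v))

lemma b3_add1 (j : ℕ) (u u' v : Additive Fˣ) (ω : Lam (j + 1) F) :
    b3 hb j (u + u') v ω = b3 hb j u v ω + b3 hb j u' v ω := by
  simp only [b3, map_add, AddMonoidHom.add_apply]

lemma b3_add2 (j : ℕ) (u v v' : Additive Fˣ) (ω : Lam (j + 1) F) :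
    b3 hb j u (v + v') ω = b3 hb j u v ω + b3 hb j u v' ω := by
  simp only [b3, map_add]

lemma b3_add3 (j : ℕ) (u v : Additive Fˣ) (ω ω' : Lam (j + 1) F) :
    b3 hb j u v (ω + ω') = b3 hb j u v ω + b3 hb j u v ω' := by
  simp only [b3, map_add, AddMonoidHom.add_apply]

lemma b3_zs1 (j : ℕ) (c : ℤ) (u v : Additive Fˣ) (ω : Lam (j + 1) F) :
    b3 hb j (c • u) v ω = c • b3 hb j u v ω :=
  map_zsmul (AddMonoidHom.mk' (fun u => b3 hb j u v ω) (fun _ _ => b3_add1 hb j _ _ v ω)) c u

lemma b3_zs2 (j : ℕ) (c : ℤ) (u v : Additive Fˣ) (ω : Lam (j + 1) F) :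
    b3 hb j u (c • v) ω = c • b3 hb j u v ω :=
  map_zsmul (AddMonoidHom.mk' (fun v => b3 hb j u v ω) (fun _ _ => b3_add2 hb j u _ _ ω)) c v

/-- `b3` in the last variable. -/
def b3H (j : ℕ) (u v : Additive Fˣ) : Lam (j + 1) F →+ Qu F j :=
  AddMonoidHom.mk' (fun ω => b3 hb j u v ω) (fun _ _ => b3_add3 hb j u v _ _)

/-- The symmetrised map. -/
def T3 (j : ℕ) (ω : Lam j F) :
    Additive Fˣ →+ Additive Fˣ →+ Additive Fˣ →+ Qu F j :=
  AddMonoidHom.mk' (fun u => AddMonoidHom.mk' (fun v => AddMonoidHom.mk'
    (fun w => b3 hb j u v (wL j w ω) + b3 hb j u w (wL j v ω))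
    (by
      intro a b
      rw [map_add, LinearMap.add_apply, b3_add3, b3_add2]; abel))
    (by
      intro a b
      refine DFunLike.ext _ _ fun w => ?_
      change b3 hb j u (a + b) (wL j w ω) + b3 hb j u w (wL j (a + b) ω) =
        (b3 hb j u a (wL j w ω) + b3 hb j u w (wL j a ω)) +
        (b3 hb j u b (wL j w ω) + b3 hb j u w (wL j b ω))
      rw [map_add, LinearMap.add_apply, b3_add3, b3_add2]; abel))
    (by
      intro a b
      refine DFunLike.ext _ _ fun v => DFunLike.ext _ _ fun w => ?_
      change b3 hb j (a + b) v (wL j w ω) + b3 hb j (a + b) w (wL j v ω) =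
        (b3 hb j a v (wL j w ω) + b3 hb j a w (wL j v ω)) +
        (b3 hb j b v (wL j w ω) + b3 hb j b w (wL j v ω))
      rw [b3_add1, b3_add1]; abel)

lemma T3_apply (j : ℕ) (ω : Lam j F) (u v w : Additive Fˣ) :
    T3 hb j ω u v w = b3 hb j u v (wL j w ω) + b3 hb j u w (wL j v ω) := rfl

lemma T3_sym (j : ℕ) (ω : Lam j F) (u v w : Additive Fˣ) :
    T3 hb j ω u v w = T3 hb j ω u w v := by
  rw [T3_apply, T3_apply, add_comm]

lemma T3_f (j : ℕ) (ω : Lam j F) (f : F) : T3 hb j ω (lg (1 - f)) (lg f) (lg f) = 0 := by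
  have h : b3 hb j (lg (1 - f)) (lg f) (wL j (lg f) ω) = 0 := by
    rw [b3, be_f]
    change qk j (mW 2 (j + 1) (wL j (lg f) ω) (g0 2 (some f))) = 0
    rw [mW_g0]
    have : (gen 2 (some f) (wL j (lg f) ω) : Cx 2 (j + 1) F) =
        dC 0 j (gen 3 (some f) ω) := by rw [dC_gen]; rfl
    rw [this]
    exact (Submodule.Quotient.mk_eq_zero _).2 ⟨_, rfl⟩
  rw [T3_apply, h, add_zero]

lemma ss_ne_zero {n : ℕ} (i : Fin n) : (i.succ.succ : Fin (n + 2)) ≠ 0 := Fin.succ_ne_zero _

lemma ss_ne_one {n : ℕ} (i : Fin n) : (i.succ.succ : Fin (n + 2)) ≠ 1 := by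
  intro h
  have := congrArg Fin.val h
  rw [Fin.val_succ, Fin.val_succ] at this
  have h1 : ((1 : Fin (n + 2)) : ℕ) = 1 := rfl
  omega

/-- The multilinear map `(v_0, v_1, …) ↦ [be(v_0, v_1) ⊗ v_2 ∧ …]`. -/
def mul3 (j : ℕ) : MultilinearMap ℤ (fun _ : Fin (j + 3) => Additive Fˣ) (Qu F j) where
  toFun v := b3 hb j (v 0) (v 1) (exteriorPower.ιMulti ℤ (j + 1) (fun i => v i.succ.succ))
  map_update_add' := by
    intro _ v m x y
    refine Fin.cases ?_ (fun m => ?_) m
    · have e : ∀ z : Additive Fˣ, (fun i : Fin (j + 1) =>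
          Function.update v 0 z i.succ.succ) = fun i => v i.succ.succ := by
        intro z; funext i
        exact Function.update_of_ne (ss_ne_zero i) _ _
      have e1 : ∀ z : Additive Fˣ, Function.update v 0 z 1 = v 1 := by
        intro z; exact Function.update_of_ne (by simp) _ _
      simp only [Function.update_self, e, e1]
      convert b3_add1 hb j x y (v 1) (exteriorPower.ιMulti ℤ (j + 1) (fun i => v i.succ.succ))
    · refine Fin.cases ?_ (fun m => ?_) m
      · have e : ∀ z : Additive Fˣ, (fun i : Fin (j + 1) =>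
            Function.update v 1 z i.succ.succ) = fun i => v i.succ.succ := by
          intro z; funext i
          exact Function.update_of_ne (ss_ne_one i) _ _
        have e1 : ∀ z : Additive Fˣ, Function.update v 1 z 0 = v 0 := by
          intro z; exact Function.update_of_ne (by simp) _ _
        simp only [Fin.succ_zero_eq_one, Function.update_self, e, e1]
        exact b3_add2 hb j _ x y _
      · have e : ∀ z : Additive Fˣ, (fun i : Fin (j + 1) =>
            Function.update v m.succ.succ z i.succ.succ) =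
            Function.update (fun i : Fin (j + 1) => v i.succ.succ) m z := by
          intro z; funext i
          by_cases hi : i = m
          · subst hi; simp
          · rw [Function.update_of_ne hi, Function.update_of_ne]
            simpa using hi
        have e0 : ∀ z : Additive Fˣ, Function.update v m.succ.succ z 0 = v 0 := by
          intro z; exact Function.update_of_ne (ss_ne_zero m).symm _ _
        have e1 : ∀ z : Additive Fˣ, Function.update v m.succ.succ z 1 = v 1 := by
          intro z; exact Function.update_of_ne (ss_ne_one m).symm _ _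
        simp only [e0, e1]
        rw [e, e, e, (exteriorPower.ιMulti ℤ (j + 1)).map_update_add, b3_add3]
  map_update_smul' := by
    intro _ v m c x
    refine Fin.cases ?_ (fun m => ?_) m
    · have e : ∀ z : Additive Fˣ, (fun i : Fin (j + 1) =>
          Function.update v 0 z i.succ.succ) = fun i => v i.succ.succ := by
        intro z; funext i
        exact Function.update_of_ne (ss_ne_zero i) _ _
      have e1 : ∀ z : Additive Fˣ, Function.update v 0 z 1 = v 1 := by
        intro z; exact Function.update_of_ne (by simp) _ _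
      simp only [Function.update_self, e, e1]
      exact b3_zs1 hb j c x _ _
    · refine Fin.cases ?_ (fun m => ?_) m
      · have e : ∀ z : Additive Fˣ, (fun i : Fin (j + 1) =>
            Function.update v 1 z i.succ.succ) = fun i => v i.succ.succ := by
          intro z; funext i
          exact Function.update_of_ne (ss_ne_one i) _ _
        have e1 : ∀ z : Additive Fˣ, Function.update v 1 z 0 = v 0 := by
          intro z; exact Function.update_of_ne (by simp) _ _
        simp only [Fin.succ_zero_eq_one, Function.update_self, e, e1]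
        exact b3_zs2 hb j c _ x _
      · have e : ∀ z : Additive Fˣ, (fun i : Fin (j + 1) =>
            Function.update v m.succ.succ z i.succ.succ) =
            Function.update (fun i : Fin (j + 1) => v i.succ.succ) m z := by
          intro z; funext i
          by_cases hi : i = m
          · subst hi; simp
          · rw [Function.update_of_ne hi, Function.update_of_ne]
            simpa using hi
        have e0 : ∀ z : Additive Fˣ, Function.update v m.succ.succ z 0 = v 0 := by
          intro z; exact Function.update_of_ne (ss_ne_zero m).symm _ _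
        have e1 : ∀ z : Additive Fˣ, Function.update v m.succ.succ z 1 = v 1 := by
          intro z; exact Function.update_of_ne (ss_ne_one m).symm _ _
        simp only [e0, e1]
        rw [e, e, (exteriorPower.ιMulti ℤ (j + 1)).map_update_smul]
        exact map_zsmul (b3H hb j (v 0) (v 1)) c _

end

end Helper14.Gon
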