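import Pool.Agent.Helper14.Gon.Iface

set_option autoImplicit false

/-!
# Goncharov's groups `B_n(F)` (definitions)

`P1 F` is the projective line `F ∪ {∞}`, `ZP F` the free abelian group on it, `R n F` the
subgroup of relations of weight `n` and `A n F` the kernel of the map `delta_n`, all as in the
problem file; the recursion is on the weight, simultaneously for all fields.
-/

noncomputable section

open Polynomial TensorProduct
open scoped Classical

namespace Helper14.Gon

universe u v

/-- A map defined on points, extended additively to `ℤ[P¹(F)]`. -/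
def ext {F : Type u} {M : Type v} [AddCommGroup M] (g : P1 F → M) : ZP F →+ M :=
  Finsupp.liftAddHom fun x => (zmultiplesHom M) (g x)

@[simp] lemma ext_single {F : Type u} {M : Type v} [AddCommGroup M] (g : P1 F → M)
    (x : P1 F) (m : ℤ) : ext g (Finsupp.single x m) = m • g x := by
  simp [ext]

lemma ext_br {F : Type u} {M : Type v} [AddCommGroup M] (g : P1 F → M)
    (x : P1 F) : ext g (br x) = g x := by
  simp

/-- Two additive maps on `ℤ[P¹(F)]` agreeing on the generators are equal. -/
lemma hom_ext {F : Type u} {M : Type v} [AddCommGroup M] {f g : ZP F →+ M}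
    (h : ∀ x, f (br x) = g (br x)) : f = g := by
  refine Finsupp.addHom_ext' fun x => ?_
  refine AddMonoidHom.ext_int ?_
  simpa using h x

section
variable {F : Type u} [Field F]

/-- The element of the (additively written) group `F^*` given by `x`; `0` if `x = 0`. -/
def lg (x : F) : Additive Fˣ :=
  if h : x = 0 then 0 else Additive.ofMul (Units.mk0 x h)

@[simp] lemma lg_zero : lg (0 : F) = 0 := by simp [lg]

@[simp] lemma lg_one : lg (1 : F) = 0 := by
  rw [lg, dif_neg one_ne_zero]
  have : Units.mk0 (1 : F) one_ne_zero = 1 := by ext; simp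
  rw [this]; rfl

lemma lg_mul {x y : F} (hx : x ≠ 0) (hy : y ≠ 0) : lg (x * y) = lg x + lg y := by
  rw [lg, lg, lg, dif_neg hx, dif_neg hy, dif_neg (mul_ne_zero hx hy), ← ofMul_mul]
  congr 1
  ext; simp

lemma lg_unit (v : Fˣ) : lg (v : F) = Additive.ofMul v := by
  simp [lg]

lemma lg_eq_zero {x : F} (hx : x ≠ 0) (h : lg x = 0) : x = 1 := by
  simp only [lg, hx, dite_false] at h
  have h2 : Units.mk0 x hx = 1 := h
  simpa using congrArg Units.val h2

lemma lg_neg_one : (2 : ℤ) • lg (-1 : F) = 0 := by
  have h := lg_mul (F := F) (x := -1) (y := -1) (by simp) (by simp)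
  simp only [mul_neg, mul_one, neg_neg, lg_one] at h
  rw [two_zsmul]
  exact h.symm

/-- The element of `F^*` given by a point of `P¹(F)`; `0` for the points `0`, `∞`. -/
def lgP : P1 F → Additive Fˣ
  | none => 0
  | some x => lg x

@[simp] lemma lgP_none : lgP (none : P1 F) = 0 := rfl
@[simp] lemma lgP_some (x : F) : lgP (some x) = lg x := rfl

variable (F) in
/-- `Λ² F^*`. -/
abbrev L2 : Type u := ⋀[ℤ]^2 (Additive Fˣ)

/-- `v ∧ w`. -/
def wdg (v w : Additive Fˣ) : L2 F := exteriorPower.ιMulti ℤ 2 ![v, w]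

/-- `delta_2 {x} = (1 - x) ∧ x`, and `0` if `x = 0, 1, ∞`. -/
def d2 : P1 F → L2 F
  | none => 0
  | some x => wdg (lg (1 - x)) (lg x)

/-- The class `{x}` in `ℤ[P¹(F)] / S` tensored with `x`; `0` if `x = 0, 1, ∞`. -/
def dst (S : AddSubgroup (ZP F)) (x : P1 F) : (ZP F ⧸ S) ⊗[ℤ] Additive Fˣ :=
  (QuotientAddGroup.mk (br x) : ZP F ⧸ S) ⊗ₜ[ℤ] lgP x

variable (F) in
/-- `delta_2 : ℤ[P¹(F)] → Λ² F^*`. -/
def delta2 : ZP F →+ L2 F := ext d2

/-- The map `{x} ↦ {x} ⊗ x` from `ℤ[P¹(F)]` to `(ℤ[P¹(F)] / S) ⊗ F^*`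
killing `{0}`, `{1}`, `{∞}`. -/
def deltaS (S : AddSubgroup (ZP F)) : ZP F →+ (ZP F ⧸ S) ⊗[ℤ] Additive Fˣ := ext (dst S)

/-- The specialisation `α(t) ↦ α(c)`, `ℤ[P¹(F(t))] → ℤ[P¹(F)]`. -/
def specZ (c : F) : ZP (RatFunc F) →+ ZP F := Finsupp.mapDomain.addMonoidHom (spec c)

@[simp] lemma specZ_single (c : F) (x : P1 (RatFunc F)) (m : ℤ) :
    specZ c (Finsupp.single x m) = Finsupp.single (spec c x) m := by
  simp [specZ]

/-- The subgroup of `ℤ[P¹(F)]` generated by `{0}`, `{∞}` and the `α(0) - α(1)`, `α ∈ A`. -/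
def relFrom (A : AddSubgroup (ZP (RatFunc F))) : AddSubgroup (ZP F) :=
  AddSubgroup.closure
    ({br (some 0), br none} ∪ {ξ | ∃ α ∈ A, ξ = specZ 0 α - specZ 1 α})

variable (F) in
/-- The relations of weight one: `{x} + {y} - {xy}` (`x, y ∈ F^*`), `{0}`, `{∞}`. -/
def R1 : AddSubgroup (ZP F) :=
  AddSubgroup.closure
    ({br (some 0), br none} ∪
      {ξ | ∃ x y : F, x ≠ 0 ∧ y ≠ 0 ∧ ξ = br (some x) + br (some y) - br (some (x * y))})

end

/-- The relations `R_n(F)` of weight `n ≥ 1` (the value at `n = 0` is not used). -/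
def R : ℕ → (F : Type u) → [Field F] → AddSubgroup (ZP F)
  | 0, _, _ => ⊥
  | 1, F, _ => R1 F
  | n + 2, F, _ => RR n F

/-- The kernel `A_n(F)` of `delta_n` on `ℤ[P¹(F)]`, `n ≥ 2` (the values at `n = 0, 1` are
not used). -/
def A : ℕ → (F : Type u) → [Field F] → AddSubgroup (ZP F)
  | 0, _, _ => ⊥
  | 1, _, _ => ⊥
  | 2, F, _ => (delta2 F).ker
  | n + 3, F, _ => (deltaS (R (n + 2) F)).ker

/-- The group `B_n(F) = ℤ[P¹(F)] / R_n(F)`. -/
abbrev B (n : ℕ) (F : Type u) [Field F] : Type u := ZP F ⧸ R n F

section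
variable {F : Type u} [Field F]

/-- The class `{x}_n`. -/
abbrev cl (n : ℕ) (x : P1 F) : B n F := QuotientAddGroup.mk (br x)

lemma R_one : R 1 F = R1 F := rfl

lemma del2_eq {F : Type u} [Field F] (α : ZP F) : del2 α = (delta2 F α : L2 F) := by
  induction α using Finsupp.induction_linear with
  | zero => rw [map_zero]; rfl
  | add f g hf hg =>
    rw [map_add, ← hf, ← hg]
    refine Finsupp.sum_add_index' (fun x => zero_zsmul _) (fun x m n => add_zsmul _ _ _)
  | single x m =>
    rw [delta2, ext_single]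
    refine (Finsupp.sum_single_index (zero_zsmul _)).trans ?_
    cases x with
    | none =>
      have h1 : wj ![ely (none : P1 F), elx none] = (0 : LM F 2) :=
        (exteriorPower.ιMulti ℤ 2 (M := MU F)).map_coord_zero 0 rfl
      rw [h1]; rfl
    | some x => rfl

lemma delS_eq {F : Type u} [Field F] (S : AddSubgroup (ZP F)) (α : ZP F) :
    delS S α = (deltaS S α : (ZP F ⧸ S) ⊗[ℤ] Additive Fˣ) := by
  induction α using Finsupp.induction_linear with
  | zero => rw [map_zero]; rfl
  | add f g hf hg =>
    rw [map_add, ← hf, ← hg]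
    refine Finsupp.sum_add_index' (fun x => ?_) (fun x m n => ?_)
    · rw [Finsupp.single_zero]; exact TensorProduct.zero_tmul (ZP F ⧸ S) _
    · rw [Finsupp.single_add, QuotientAddGroup.mk_add]
      exact TensorProduct.add_tmul (R := ℤ) (M := ZP F ⧸ S) (N := Additive Fˣ) _ _ _
  | single x m =>
    rw [deltaS, ext_single]
    refine (Finsupp.sum_single_index ?_).trans ?_
    · rw [Finsupp.single_zero]; exact TensorProduct.zero_tmul (ZP F ⧸ S) _
    have h1 : (QuotientAddGroup.mk (Finsupp.single x m) : ZP F ⧸ S) =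
        m • (QuotientAddGroup.mk (br x) : ZP F ⧸ S) := by
      rw [br, ← QuotientAddGroup.mk_zsmul, Finsupp.smul_single, smul_eq_mul, mul_one]
    rw [h1, ← TensorProduct.smul_tmul']
    cases x with
    | none => rfl
    | some x => rfl

lemma R_add_two (n : ℕ) : R (n + 2) F = relFrom (A (n + 2) (RatFunc F)) := by
  cases n with
  | zero =>
    change relOf (ker2 (RatFunc F)) = _
    have : ker2 (RatFunc F) = (A 2 (RatFunc F) : Set _) := by
      ext α
      change del2 α = 0 ↔ delta2 _ α = 0
      rw [del2_eq]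
    rw [this]; rfl
  | succ n =>
    have h1 : RR (n + 1) F = relOf (kerS (RR n (RatFunc F))) := by
      rw [RR, Function.iterate_succ']; rfl
    change RR (n + 1) F = _
    rw [h1]
    have : kerS (RR n (RatFunc F)) =
        (A (n + 3) (RatFunc F) : Set _) := by
      ext α
      change delS _ α = 0 ↔ deltaS _ α = 0
      rw [delS_eq]; rfl
    rw [this]; rfl
lemma A_two : A 2 F = (delta2 F).ker := rfl
lemma A_add_three (n : ℕ) : A (n + 3) F = (deltaS (R (n + 2) F)).ker := rfl

lemma br_zero_mem (n : ℕ) : br (some 0) ∈ R (n + 1) F := by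
  cases n with
  | zero => exact AddSubgroup.subset_closure (by simp)
  | succ n => rw [R_add_two]; exact AddSubgroup.subset_closure (by simp)

lemma br_inf_mem (n : ℕ) : br none ∈ R (n + 1) F := by
  cases n with
  | zero => exact AddSubgroup.subset_closure (by simp)
  | succ n => rw [R_add_two]; exact AddSubgroup.subset_closure (by simp)

/-- The defining relations of weight at least two. -/
lemma rel_mem {n : ℕ} {α : ZP (RatFunc F)} (h : α ∈ A (n + 2) (RatFunc F)) :
    specZ 0 α - specZ 1 α ∈ R (n + 2) F := by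
  rw [R_add_two]
  exact AddSubgroup.subset_closure (Or.inr ⟨α, h, rfl⟩)

/-- The key formula for the value at `c` of a quotient of polynomials. -/
lemma spec_div (c : F) (p q : F[X]) (hq : q ≠ 0) (h : p.eval c ≠ 0 ∨ q.eval c ≠ 0) :
    spec c (some (algebraMap F[X] (RatFunc F) p / algebraMap F[X] (RatFunc F) q)) =
      if q.eval c = 0 then none else some (p.eval c / q.eval c) := by
  set f : RatFunc F := algebraMap F[X] (RatFunc F) p / algebraMap F[X] (RatFunc F) q with hf
  have hcross : f.num * q = p * f.denom := (RatFunc.num_mul_eq_mul_denom_iff hq).2 hf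
  have hev : f.num.eval c * q.eval c = p.eval c * f.denom.eval c := by
    rw [← eval_mul, hcross, eval_mul]
  obtain ⟨a, b, hab⟩ := RatFunc.isCoprime_num_denom f
  have hev2 : a.eval c * f.num.eval c + b.eval c * f.denom.eval c = 1 := by
    have := congrArg (eval c) hab
    simpa using this
  simp only [spec]
  by_cases hqc : q.eval c = 0
  · have hpc : p.eval c ≠ 0 := by
      rcases h with h | h
      · exact h
      · exact absurd hqc h
    have hd : f.denom.eval c = 0 := by
      rw [hqc, mul_zero] at hev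
      rcases mul_eq_zero.1 hev.symm with h | h
      · exact absurd h hpc
      · exact h
    simp [hqc, hd]
  · have hd : f.denom.eval c ≠ 0 := by
      intro hd
      rw [hd, mul_zero] at hev hev2
      rcases mul_eq_zero.1 hev with h | h
      · rw [h] at hev2; simp at hev2
      · exact hqc h
    simp only [hqc, hd, if_false]
    congr 1
    rw [div_eq_div_iff hd hqc, hev]

lemma spec_poly (c : F) (p : F[X]) :
    spec c (some (algebraMap F[X] (RatFunc F) p)) = some (p.eval c) := by
  have := spec_div c p 1 one_ne_zero (by simp)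
  simpa using this

@[simp] lemma spec_none (c : F) : spec c (none : P1 (RatFunc F)) = none := rfl

@[simp] lemma spec_C (c x : F) : spec c (some (RatFunc.C x)) = some x := by
  have := spec_poly c (C x)
  rw [RatFunc.algebraMap_C] at this
  simpa using this

@[simp] lemma spec_zero (c : F) : spec c (some (0 : RatFunc F)) = some 0 := by
  simpa using spec_C c 0

@[simp] lemma spec_one (c : F) : spec c (some (1 : RatFunc F)) = some 1 := by
  simpa using spec_C c 1

/-- Every rational function is a quotient of polynomials that do not both vanish at `c`. -/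
lemma exists_rep (c : F) (f : RatFunc F) : ∃ p q : F[X], q ≠ 0 ∧
    (p.eval c ≠ 0 ∨ q.eval c ≠ 0) ∧
    f = algebraMap F[X] (RatFunc F) p / algebraMap F[X] (RatFunc F) q := by
  refine ⟨f.num, f.denom, f.denom_ne_zero, ?_, (RatFunc.num_div_denom f).symm⟩
  obtain ⟨a, b, hab⟩ := RatFunc.isCoprime_num_denom f
  have hev2 : a.eval c * f.num.eval c + b.eval c * f.denom.eval c = 1 := by
    have := congrArg (eval c) hab
    simpa using this
  by_contra hcon
  push Not at hcon
  rw [hcon.1, hcon.2] at hev2
  simp at hev2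

end

end Helper14.Gon
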