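import Pool.Agent.Helper14.Gon.Cfun

set_option autoImplicit false

/-!
# The differentials and the functoriality of the complexes `Γ(F, n) ⊗ ℚ`
-/

noncomputable section

open Polynomial TensorProduct
open scoped Classical

namespace Helper14.Gon

universe u v w

section
variable (F : Type u) [Field F]

/-- The identity. -/
def eC (k j : ℕ) : CC k j F ≃ₗ[ℚ] Cx (k + 2) j F := LinearEquiv.refl ℚ (Cx (k + 2) j F)

/-- The identity. -/
def eT (n : ℕ) : TT n F ≃ₗ[ℚ] Tx n F := LinearEquiv.refl ℚ (Tx n F)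

variable {F}

lemma eC_gn (k : ℕ) {j : ℕ} (x : P1 F) (v : Fin j → MU F) :
    eC F k j (gn k x v) = gen (k + 2) x (exteriorPower.ιMulti ℤ j (M := Additive Fˣ) v) := rfl

lemma eT_tp {n : ℕ} (v : Fin n → MU F) :
    eT F n (tp v) = toQ (exteriorPower.ιMulti ℤ n (M := Additive Fˣ) v) := rfl

lemma elx_eq (x : P1 F) : elx x = (lgP x : Additive Fˣ) := by
  cases x <;> rfl

lemma dC_eC (k j : ℕ) (x : P1 F) (v : Fin j → MU F) :
    dC k j (eC F (k + 1) j (gn (k + 1) x v)) = eC F k (j + 1) (gn k x (Fin.cons (elx x) v)) := by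
  rw [eC_gn, eC_gn]
  have h := dC_gen k j x (exteriorPower.ιMulti ℤ j (M := Additive Fˣ) v)
  rw [wL_ιMulti] at h
  refine h.trans ?_
  rw [elx_eq]
  rfl

lemma dT_eC (j : ℕ) (x : P1 F) (v : Fin j → MU F) :
    dT j (eC F 0 j (gn 0 x v)) =
      eT F (j + 2) (tp (Fin.cons (ely x) (Fin.cons (elx x) v))) := by
  rw [eC_gn, eT_tp]
  have h := dT_gen j x (exteriorPower.ιMulti ℤ j (M := Additive Fˣ) v)
  refine h.trans ?_
  cases x with
  | none =>
    have h1 : exteriorPower.ιMulti ℤ (j + 2) (M := Additive Fˣ)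
        (Fin.cons (ely (none : P1 F)) (Fin.cons (elx none) v)) = 0 :=
      (exteriorPower.ιMulti ℤ (j + 2) (M := Additive Fˣ)).map_coord_zero 0 rfl
    rw [d2, map_zero, LinearMap.zero_apply]
    exact congrArg toQ h1.symm
  | some x =>
    rw [d2, mulW_wdg, wL_ιMulti, wL_ιMulti]
    rfl

/-- There is a linear map (necessarily unique, the elements `{x} ⊗ v_1 ∧ … ∧ v_j` being
generators) `B_{k+3}(F) ⊗ Λ^j F^* ⊗ ℚ → B_{k+2}(F) ⊗ Λ^{j+1} F^* ⊗ ℚ` mapping
`{x} ⊗ v_1 ∧ … ∧ v_j` to `{x} ⊗ x ∧ v_1 ∧ … ∧ v_j`. -/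
theorem exists_dd (k j : ℕ) (F : Type u) [Field F] : ∃ d : CC (k + 1) j F →ₗ[ℚ] CC k (j + 1) F,
    ∀ (x : P1 F) (v : Fin j → MU F), d (gn (k + 1) x v) = gn k x (Fin.cons (elx x) v) := by
  refine ⟨(eC F k (j + 1)).symm.toLinearMap ∘ₗ (dC k j) ∘ₗ (eC F (k + 1) j).toLinearMap,
    fun x v => ?_⟩
  rw [LinearMap.comp_apply, LinearMap.comp_apply, LinearEquiv.coe_coe, LinearEquiv.coe_coe,
    dC_eC, LinearEquiv.symm_apply_apply]

/-- There is a linear map (necessarily unique) `B_2(F) ⊗ Λ^j F^* ⊗ ℚ → Λ^{j+2} F^* ⊗ ℚ` mapping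
`{x} ⊗ v_1 ∧ … ∧ v_j` to `(1 - x) ∧ x ∧ v_1 ∧ … ∧ v_j`. -/
theorem exists_dl (j : ℕ) (F : Type u) [Field F] : ∃ d : CC 0 j F →ₗ[ℚ] TT (j + 2) F,
    ∀ (x : P1 F) (v : Fin j → MU F), d (gn 0 x v) = tp (Fin.cons (ely x) (Fin.cons (elx x) v)) := by
  refine ⟨(eT F (j + 2)).symm.toLinearMap ∘ₗ (dT j) ∘ₗ (eC F 0 j).toLinearMap,
    fun x v => ?_⟩
  rw [LinearMap.comp_apply, LinearMap.comp_apply, LinearEquiv.coe_coe, LinearEquiv.coe_coe,
    dT_eC, LinearEquiv.symm_apply_apply]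

/-- The differential of the complex `Γ(F, k + j + 3) ⊗ ℚ` in degree `j + 1`. -/
def dd (k j : ℕ) (F : Type u) [Field F] : CC (k + 1) j F →ₗ[ℚ] CC k (j + 1) F :=
  (exists_dd k j F).choose

/-- The last differential of the complex `Γ(F, j + 2) ⊗ ℚ`. -/
def dl (j : ℕ) (F : Type u) [Field F] : CC 0 j F →ₗ[ℚ] TT (j + 2) F := (exists_dl j F).choose

/-- Linear maps agreeing on the generators are equal. -/
lemma CC_ext {k j : ℕ} {N : Type v} [AddCommGroup N] [Module ℚ N] {f g : CC k j F →ₗ[ℚ] N}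
    (h : ∀ (x : P1 F) (v : Fin j → MU F), f (gn k x v) = g (gn k x v)) : f = g := by
  have h2 : ∀ f : Cx (k + 2) j F →ₗ[ℚ] N,
      ∀ x, ∃ f' : Lam j F →+ N, ∀ ω, f' ω = f (gen (k + 2) x ω) := by
    intro f x
    refine ⟨AddMonoidHom.mk' (fun ω => f (gen (k + 2) x ω)) fun a b => ?_, fun ω => rfl⟩
    rw [gen, tmul_add, toQ, tmul_add, map_add]; rfl
  have key : f ∘ₗ (eC F k j).symm.toLinearMap = g ∘ₗ (eC F k j).symm.toLinearMap := by
    refine Cx_ext fun x ω => ?_
    obtain ⟨f', hf'⟩ := h2 (f ∘ₗ (eC F k j).symm.toLinearMap) x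
    obtain ⟨g', hg'⟩ := h2 (g ∘ₗ (eC F k j).symm.toLinearMap) x
    rw [← hf', ← hg']
    have : f' = g' := by
      refine lam_ext fun v => ?_
      rw [hf', hg']
      exact h x v
    rw [this]
  refine LinearMap.ext fun z => ?_
  have := LinearMap.congr_fun key (eC F k j z)
  simpa only [LinearMap.comp_apply, LinearEquiv.coe_coe, LinearEquiv.symm_apply_apply] using this

lemma TT_ext {n : ℕ} {N : Type v} [AddCommGroup N] [Module ℚ N] {f g : TT n F →ₗ[ℚ] N}
    (h : ∀ v : Fin n → MU F, f (tp v) = g (tp v)) : f = g := by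
  have h3 : ∀ ω : Lam n F, f ((eT F n).symm (toQ ω)) = g ((eT F n).symm (toQ ω)) := by
    have : (AddMonoidHom.mk' (fun ω : Lam n F => f ((eT F n).symm (toQ ω))) (fun a b => by
        rw [toQ, tmul_add, map_add, map_add])) =
        (AddMonoidHom.mk' (fun ω : Lam n F => g ((eT F n).symm (toQ ω))) (fun a b => by
        rw [toQ, tmul_add, map_add, map_add])) := lam_ext fun v => h v
    exact fun ω => DFunLike.congr_fun this ω
  have key : ∀ z : Tx n F, f ((eT F n).symm z) = g ((eT F n).symm z) := by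
    intro z
    induction z using TensorProduct.induction_on with
    | zero => rw [map_zero, map_zero, map_zero]
    | add a b ha hb => rw [map_add, map_add, map_add, ha, hb]
    | tmul q m =>
      have : (q ⊗ₜ[ℤ] m : Tx n F) = q • toQ m := by
        rw [toQ, smul_tmul', smul_eq_mul, mul_one]
      rw [this, map_smul, map_smul, map_smul, h3]
  refine LinearMap.ext fun z => ?_
  have := key (eT F n z)
  rwa [LinearEquiv.symm_apply_apply] at this

lemma dd_gn (k j : ℕ) (x : P1 F) (v : Fin j → MU F) :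
    dd k j F (gn (k + 1) x v) = gn k x (Fin.cons (elx x) v) :=
  (exists_dd k j F).choose_spec x v

lemma dl_gn (j : ℕ) (x : P1 F) (v : Fin j → MU F) :
    dl j F (gn 0 x v) = tp (Fin.cons (ely x) (Fin.cons (elx x) v)) :=
  (exists_dl j F).choose_spec x v

lemma dd_eq (k j : ℕ) (z : CC (k + 1) j F) :
    eC F k (j + 1) (dd k j F z) = dC k j (eC F (k + 1) j z) := by
  have : (eC F k (j + 1)).toLinearMap ∘ₗ dd k j F = (dC k j) ∘ₗ (eC F (k + 1) j).toLinearMap := by
    refine CC_ext fun x v => ?_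
    rw [LinearMap.comp_apply, LinearMap.comp_apply, LinearEquiv.coe_coe, LinearEquiv.coe_coe,
      dd_gn, dC_eC]
  exact LinearMap.congr_fun this z

lemma dl_eq (j : ℕ) (z : CC 0 j F) :
    eT F (j + 2) (dl j F z) = dT j (eC F 0 j z) := by
  have : (eT F (j + 2)).toLinearMap ∘ₗ dl j F = (dT j) ∘ₗ (eC F 0 j).toLinearMap := by
    refine CC_ext fun x v => ?_
    rw [LinearMap.comp_apply, LinearMap.comp_apply, LinearEquiv.coe_coe, LinearEquiv.coe_coe,
      dl_gn, dT_eC]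
  exact LinearMap.congr_fun this z

end

section
variable {F : Type u} [Field F] {L : Type v} [Field L]

/-- The map `F^* → L^*` induced by a field homomorphism. -/
def mu (φ : F →+* L) (v : MU F) : MU L :=
  Additive.ofMul (Units.map (φ : F →* L) (Additive.toMul v : Fˣ))

lemma resC_eC (k j : ℕ) (φ : F →+* L) (x : P1 F) (v : Fin j → MU F) :
    resC (k + 1) j φ (eC F k j (gn k x v)) =
      eC L k j (gn k (Option.map φ x) (fun i => mu φ (v i))) := by
  rw [eC_gn, eC_gn]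
  have h := resC_gen (k + 1) j φ x (exteriorPower.ιMulti ℤ j (M := Additive Fˣ) v)
  rw [resL, exteriorPower.map_apply_ιMulti] at h
  exact h

lemma resT_eT (n : ℕ) (φ : F →+* L) (v : Fin n → MU F) :
    resT n φ (eT F n (tp v)) = eT L n (tp (fun i => mu φ (v i))) := by
  rw [eT_tp, eT_tp]
  have h := resT_toQ n φ (exteriorPower.ιMulti ℤ n (M := Additive Fˣ) v)
  rw [resL, exteriorPower.map_apply_ιMulti] at h
  exact h

/-- There is a linear map (necessarily unique) mapping `{x} ⊗ v_1 ∧ … ∧ v_j` to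
`{φ(x)} ⊗ φ(v_1) ∧ … ∧ φ(v_j)`. -/
theorem exists_rs (k j : ℕ) (φ : F →+* L) : ∃ f : CC k j F →ₗ[ℚ] CC k j L,
    ∀ (x : P1 F) (v : Fin j → MU F),
      f (gn k x v) = gn k (Option.map φ x) (fun i => mu φ (v i)) := by
  refine ⟨(eC L k j).symm.toLinearMap ∘ₗ (resC (k + 1) j φ) ∘ₗ (eC F k j).toLinearMap,
    fun x v => ?_⟩
  rw [LinearMap.comp_apply, LinearMap.comp_apply, LinearEquiv.coe_coe, LinearEquiv.coe_coe,
    resC_eC, LinearEquiv.symm_apply_apply]

/-- There is a linear map (necessarily unique) mapping `v_1 ∧ … ∧ v_n` to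
`φ(v_1) ∧ … ∧ φ(v_n)`. -/
theorem exists_rt (n : ℕ) (φ : F →+* L) : ∃ f : TT n F →ₗ[ℚ] TT n L,
    ∀ v : Fin n → MU F, f (tp v) = tp (fun i => mu φ (v i)) := by
  refine ⟨(eT L n).symm.toLinearMap ∘ₗ (resT n φ) ∘ₗ (eT F n).toLinearMap,
    fun v => ?_⟩
  rw [LinearMap.comp_apply, LinearMap.comp_apply, LinearEquiv.coe_coe, LinearEquiv.coe_coe,
    resT_eT, LinearEquiv.symm_apply_apply]

/-- The map of complexes induced by a field homomorphism, all terms but the last one. -/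
def rs (k j : ℕ) (φ : F →+* L) : CC k j F →ₗ[ℚ] CC k j L := (exists_rs k j φ).choose

/-- The map of complexes induced by a field homomorphism, last term. -/
def rt (n : ℕ) (φ : F →+* L) : TT n F →ₗ[ℚ] TT n L := (exists_rt n φ).choose

lemma rs_gn (k j : ℕ) (φ : F →+* L) (x : P1 F) (v : Fin j → MU F) :
    rs k j φ (gn k x v) = gn k (Option.map φ x) (fun i => mu φ (v i)) :=
  (exists_rs k j φ).choose_spec x v

lemma rt_tp (n : ℕ) (φ : F →+* L) (v : Fin n → MU F) :
    rt n φ (tp v) = tp (fun i => mu φ (v i)) :=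
  (exists_rt n φ).choose_spec v

lemma rs_eq (k j : ℕ) (φ : F →+* L) (z : CC k j F) :
    eC L k j (rs k j φ z) = resC (k + 1) j φ (eC F k j z) := by
  have : (eC L k j).toLinearMap ∘ₗ rs k j φ = (resC (k + 1) j φ) ∘ₗ (eC F k j).toLinearMap := by
    refine CC_ext fun x v => ?_
    rw [LinearMap.comp_apply, LinearMap.comp_apply, LinearEquiv.coe_coe, LinearEquiv.coe_coe,
      rs_gn, resC_eC]
  exact LinearMap.congr_fun this z

lemma rt_eq (n : ℕ) (φ : F →+* L) (z : TT n F) :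
    eT L n (rt n φ z) = resT n φ (eT F n z) := by
  have : (eT L n).toLinearMap ∘ₗ rt n φ = (resT n φ) ∘ₗ (eT F n).toLinearMap := by
    refine TT_ext fun v => ?_
    rw [LinearMap.comp_apply, LinearMap.comp_apply, LinearEquiv.coe_coe, LinearEquiv.coe_coe,
      rt_tp, resT_eT]
  exact LinearMap.congr_fun this z

end

end Helper14.Gon
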