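import Pool.Agent.Helper14.Gon.Cx

set_option autoImplicit false

/-!
# Functoriality of the complexes `Γ(F, n) ⊗ ℚ`
-/

noncomputable section

open Polynomial TensorProduct Filter
open scoped Classical

namespace Helper14.Gon

universe u v w x y

section
variable {K : Type u} [Field K] {L : Type w} [Field L]

/-- The map `B_k(K) → B_k(L)` induced by a field homomorphism. -/
def resB (k : ℕ) (φ : K →+* L) : B (k + 1) K →+ B (k + 1) L :=
  QuotientAddGroup.map _ _ (mapZ φ) (fun _ hr => map_mem_R φ hr)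

lemma resB_cl (k : ℕ) (φ : K →+* L) (x : P1 K) :
    resB k φ (cl (k + 1) x) = cl (k + 1) (mapP φ x) := by
  change QuotientAddGroup.mk (mapZ φ (br x)) = _
  rw [mapZ_single]

/-- The map `K^* → L^*` induced by a field homomorphism. -/
def resU (φ : K →+* L) : Additive Kˣ →+ Additive Lˣ :=
  MonoidHom.toAdditive (Units.map (φ : K →* L))

lemma resU_lg (φ : K →+* L) (x : K) : resU φ (lg x) = lg (φ x) := by
  by_cases hx : x = 0
  · subst hx; simp
  · have h : φ x ≠ 0 := (map_ne_zero φ).2 hx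
    rw [lg, lg, dif_neg hx, dif_neg h]
    change Additive.ofMul _ = Additive.ofMul _
    congr 1
    ext
    simp

/-- The map `Λ^j K^* → Λ^j L^*`. -/
def resL (j : ℕ) (φ : K →+* L) : Lam j K →ₗ[ℤ] Lam j L :=
  exteriorPower.map j (resU φ).toIntLinearMap

/-- The map of complexes, terms `B_k ⊗ Λ^j`. -/
def resC (k j : ℕ) (φ : K →+* L) : Cx (k + 1) j K →ₗ[ℚ] Cx (k + 1) j L :=
  LinearMap.baseChange ℚ (TensorProduct.map (resB k φ).toIntLinearMap (resL j φ))

/-- The map of complexes, last term. -/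
def resT (n : ℕ) (φ : K →+* L) : Tx n K →ₗ[ℚ] Tx n L :=
  LinearMap.baseChange ℚ (resL n φ)

lemma resC_gen (k j : ℕ) (φ : K →+* L) (x : P1 K) (ω : Lam j K) :
    resC k j φ (gen (k + 1) x ω) = gen (k + 1) (mapP φ x) (resL j φ ω) := by
  change (1 : ℚ) ⊗ₜ[ℤ] (resB k φ (cl (k + 1) x) ⊗ₜ[ℤ] resL j φ ω) = _
  rw [resB_cl]
  rfl

lemma resT_toQ (n : ℕ) (φ : K →+* L) (ω : Lam n K) :
    resT n φ (toQ ω) = toQ (resL n φ ω) := by
  simp only [resT, toQ, LinearMap.baseChange_tmul]

lemma lam_ext {j : ℕ} {N : Type v} [AddCommGroup N] {f g : Lam j K →+ N}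
    (h : ∀ v : Fin j → Additive Kˣ, f (exteriorPower.ιMulti ℤ j v) =
      g (exteriorPower.ιMulti ℤ j v)) : f = g := by
  have : f.toIntLinearMap = g.toIntLinearMap := by
    apply exteriorPower.linearMap_ext
    ext v
    exact h v
  ext ω
  exact DFunLike.congr_fun this ω

lemma resL_wL (j : ℕ) (φ : K →+* L) (v : Additive Kˣ) (ω : Lam j K) :
    resL (j + 1) φ (wL j v ω) = wL j (resU φ v) (resL j φ ω) := by
  have : ((resL (j + 1) φ).toAddMonoidHom.comp (wL j v).toAddMonoidHom) =
      (wL j (resU φ v)).toAddMonoidHom.comp (resL j φ).toAddMonoidHom := by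
    refine lam_ext fun w => ?_
    change resL (j + 1) φ (wL j v _) = wL j (resU φ v) (resL j φ _)
    rw [wL_ιMulti, resL, resL, exteriorPower.map_apply_ιMulti, exteriorPower.map_apply_ιMulti,
      wL_ιMulti]
    congr 1
    funext i
    refine Fin.cases ?_ (fun i => ?_) i
    · rfl
    · rfl
  exact DFunLike.congr_fun this ω

lemma mapP_some_eq {φ : K →+* L} (x : P1 K) : lgP (mapP φ x) = resU φ (lgP x) := by
  cases x with
  | none => simp
  | some x => simp [resU_lg]

/-- Compatibility with the differentials. -/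
lemma resC_dC (k j : ℕ) (φ : K →+* L) (z : Cx (k + 3) j K) :
    dC k j (resC (k + 2) j φ z) = resC (k + 1) (j + 1) φ (dC k j z) := by
  have : (dC k j) ∘ₗ (resC (k + 2) j φ) = (resC (k + 1) (j + 1) φ) ∘ₗ (dC k j) := by
    refine Cx_ext fun x ω => ?_
    simp only [LinearMap.comp_apply]
    rw [resC_gen, dC_gen, dC_gen, resC_gen, resL_wL, mapP_some_eq]
  exact LinearMap.congr_fun this z

lemma resT_dT (j : ℕ) (φ : K →+* L) (z : Cx 2 j K) :
    dT j (resC 1 j φ z) = resT (j + 2) φ (dT j z) := by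
  have : (dT j) ∘ₗ (resC 1 j φ) = (resT (j + 2) φ) ∘ₗ (dT j) := by
    refine Cx_ext fun x ω => ?_
    simp only [LinearMap.comp_apply]
    rw [resC_gen, dT_gen, dT_gen, resT_toQ]
    cases x with
    | none => simp [d2, toQ]
    | some x =>
      rw [mapP_some, d2, d2, mulW_wdg, mulW_wdg, resL_wL, resL_wL, resU_lg, resU_lg, map_sub,
        map_one]
  exact LinearMap.congr_fun this z

end

/-! ### The version for eventual homomorphisms -/

section
variable {I : Type v} {l : Filter I} {K : Type u} [Field K] {k : I → Type w}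
    [∀ i, Field (k i)]

/-- The diagonal map `ℚ → ∏ ℚ / l`. -/
def qDiag (l : Filter I) : ℚ →+ RP l (fun _ : I => ℚ) :=
  RP.hom (fun q _ => q) (fun _ _ => Eventually.of_forall fun _ => rfl)

namespace EvHom
variable (H : EvHom l K k)

lemma compR (m : ℕ) : H.Comp (R (m + 1) K) (fun i => R (m + 1) (k i)) :=
  fun _ hr => H.mapR hr

/-- The family of maps `B_m(K) ⊗ Λ^j K^* → B_m(k_i) ⊗ Λ^j k_i^*`. -/
def bl (m j : ℕ) : B (m + 1) K ⊗[ℤ] Lam j K →+
    RP l (fun i => B (m + 1) (k i) ⊗[ℤ] Lam j (k i)) :=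
  (RP.tens (l := l) (fun i => B (m + 1) (k i)) (fun i => Lam j (k i))).comp
    (TensorProduct.map (H.quo (H.compR m)).toIntLinearMap (H.wedge j)).toAddMonoidHom

/-- The family of maps on the terms of the complex. -/
def cx (m j : ℕ) : Cx (m + 1) j K →+ RP l (fun i => Cx (m + 1) j (k i)) :=
  (RP.tens (l := l) (fun _ => ℚ) (fun i => B (m + 1) (k i) ⊗[ℤ] Lam j (k i))).comp
    (TensorProduct.map (qDiag l).toIntLinearMap (H.bl m j).toIntLinearMap).toAddMonoidHom

/-- The family of maps on the last term. -/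
def tx (n : ℕ) : Tx n K →+ RP l (fun i => Tx n (k i)) :=
  (RP.tens (l := l) (fun _ => ℚ) (fun i => Lam n (k i))).comp
    (TensorProduct.map (qDiag l).toIntLinearMap (H.wedge n)).toAddMonoidHom

lemma cx_gen (m j : ℕ) (q : ℚ) (x : P1 K) (ω : Lam j K) (ω' : ∀ i, Lam j (k i))
    (h : H.wedge j ω = RP.mk ω') :
    H.cx m j (q • gen (m + 1) x ω) = RP.mk (fun i => q • gen (m + 1) (mapP (H.f i) x) (ω' i)) := by
  have e : (q • gen (m + 1) x ω : Cx (m + 1) j K) = q ⊗ₜ[ℤ] (cl (m + 1) x ⊗ₜ[ℤ] ω) := by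
    rw [gen, toQ, smul_tmul', smul_eq_mul, mul_one]
  rw [e]
  have e2 : H.bl m j (cl (m + 1) x ⊗ₜ[ℤ] ω) =
      RP.mk (fun i => cl (m + 1) (mapP (H.f i) x) ⊗ₜ[ℤ] ω' i) := by
    change RP.tens _ _ (H.quo (H.compR m) (QuotientAddGroup.mk (br x)) ⊗ₜ[ℤ] H.wedge j ω) = _
    rw [h, H.quo_mk, RP.tens_mk]
    simp
  change RP.tens _ _ (qDiag l q ⊗ₜ[ℤ] H.bl m j (cl (m + 1) x ⊗ₜ[ℤ] ω)) = _
  rw [e2, qDiag, RP.hom_apply, RP.tens_mk]
  congr 1
  funext i
  rw [gen, toQ, smul_tmul', smul_eq_mul, mul_one]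

lemma tx_toQ (n : ℕ) (q : ℚ) (ω : Lam n K) (ω' : ∀ i, Lam n (k i))
    (h : H.wedge n ω = RP.mk ω') :
    H.tx n (q • toQ ω) = RP.mk (fun i => q • (toQ (ω' i) : Tx n (k i))) := by
  have e : (q • toQ ω : Tx n K) = q ⊗ₜ[ℤ] ω := by
    rw [toQ, smul_tmul', smul_eq_mul, mul_one]
  rw [e]
  change RP.tens _ _ (qDiag l q ⊗ₜ[ℤ] H.wedge n ω) = _
  rw [h, qDiag, RP.hom_apply, RP.tens_mk]
  congr 1
  funext i
  rw [toQ, smul_tmul', smul_eq_mul, mul_one]

end EvHom

/-- Additive maps on `Cx k j F` are determined by their values on multiples of generators. -/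
lemma Cx_ext_add {F : Type u} [Field F] {k j : ℕ} {N : Type v} [AddCommGroup N]
    {f g : Cx k j F →+ N}
    (h : ∀ (q : ℚ) (x : P1 F) (ω : Lam j F), f (q • gen k x ω) = g (q • gen k x ω)) :
    f = g := by
  have key : ∀ (q : ℚ) (m : B k F ⊗[ℤ] Lam j F), f (q • toQ m) = g (q • toQ m) := by
    intro q m
    induction m using TensorProduct.induction_on with
    | zero => simp [toQ]
    | add a b ha hb =>
      rw [toQ, tmul_add, smul_add, map_add, map_add]; exact congrArg₂ _ ha hb
    | tmul b ω =>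
      obtain ⟨β, rfl⟩ := QuotientAddGroup.mk_surjective b
      induction β using Finsupp.induction_linear with
      | zero =>
        rw [QuotientAddGroup.mk_zero, zero_tmul, toQ, tmul_zero, smul_zero, map_zero, map_zero]
      | add a b ha hb =>
        rw [QuotientAddGroup.mk_add, add_tmul, toQ, tmul_add, smul_add, map_add, map_add]
        exact congrArg₂ _ ha hb
      | single x m =>
        have e : (toQ ((QuotientAddGroup.mk (Finsupp.single x m) : B k F) ⊗ₜ[ℤ] ω) :
            Cx k j F) = m • gen k x ω := by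
          have e1 : (QuotientAddGroup.mk (Finsupp.single x m) : B k F) = m • cl k x := by
            have : Finsupp.single x m = m • br x := by simp
            rw [this]; rfl
          rw [e1, zs_tmul, toQ, tmul_zs]; rfl
        rw [e, smul_comm q m, map_zsmul, map_zsmul, h]
  ext z
  induction z using TensorProduct.induction_on with
  | zero => simp
  | add a b ha hb => rw [map_add, map_add, ha, hb]
  | tmul q m =>
    have : (q ⊗ₜ[ℤ] m : Cx k j F) = q • toQ m := by
      rw [toQ, smul_tmul', smul_eq_mul, mul_one]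
    rw [this, key]

/-- Componentwise maps of reduced products. -/
def RP.map {G : I → Type w} [∀ i, AddCommGroup (G i)] {G' : I → Type x}
    [∀ i, AddCommGroup (G' i)] (φ : ∀ i, G i →+ G' i) : RP l G →+ RP l G' :=
  RP.lift (AddMonoidHom.mk' (fun g => RP.mk (fun i => φ i (g i))) (by
      intro a b
      rw [← RP.mk_add]
      simp only [Pi.add_apply, map_add]))
    (by
      intro g hg
      refine RP.mk_eq_zero.2 ?_
      filter_upwards [hg] with i h1
      simp [h1])

lemma RP.map_mk {G : I → Type w} [∀ i, AddCommGroup (G i)] {G' : I → Type x}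
    [∀ i, AddCommGroup (G' i)] (φ : ∀ i, G i →+ G' i) (g : ∀ i, G i) :
    RP.map (l := l) φ (RP.mk g) = RP.mk (fun i => φ i (g i)) := rfl

namespace EvHom
variable (H : EvHom l K k)

/-- Compatibility of the families with `v ∧ ω`. -/
lemma wedge_wL (j : ℕ) (v : Additive Kˣ) (v' : ∀ i, Additive (k i)ˣ)
    (hv : H.U v = RP.mk v') (ω : Lam j K) (ω' : ∀ i, Lam j (k i))
    (h : H.wedge j ω = RP.mk ω') :
    H.wedge (j + 1) (wL j v ω) = RP.mk (fun i => wL j (v' i) (ω' i)) := by
  have key : ((H.wedge (j + 1)).toAddMonoidHom.comp (wL j v).toAddMonoidHom) =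
      (RP.map (fun i => (wL j (v' i)).toAddMonoidHom)).comp (H.wedge j).toAddMonoidHom := by
    refine lam_ext fun w => ?_
    change H.wedge (j + 1) (wL j v _) = RP.map _ (H.wedge j _)
    rw [wL_ιMulti, wedge_ιMulti, wedge_ιMulti, RP.map_mk]
    refine RP.mk_eq.2 ?_
    filter_upwards [RP.mk_eq.1 hv] with i h1
    change _ = wL j (v' i) _
    rw [wL_ιMulti]
    congr 1
    funext m
    refine Fin.cases ?_ (fun m => ?_) m
    · exact h1
    · rfl
  have := DFunLike.congr_fun key ω
  change H.wedge (j + 1) (wL j v ω) = RP.map _ (H.wedge j ω) at this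
  rw [this, h, RP.map_mk]
  rfl

lemma U_lgP (x : P1 K) : H.U (lgP x) = RP.mk (fun i => lgP (mapP (H.f i) x)) := by
  cases x with
  | none =>
    rw [lgP_none, map_zero, ← RP.mk_zero]
    rfl
  | some x =>
    rw [U_apply]
    refine RP.mk_eq.2 ?_
    filter_upwards [H.un_lg x] with i h1
    rw [lgP_some, h1]; rfl

/-- The families are compatible with the differentials. -/
theorem cx_dC (m j : ℕ) (z : Cx (m + 3) j K) :
    H.cx (m + 1) (j + 1) (dC m j z) =
      RP.map (fun i => (dC m j : Cx (m + 3) j (k i) →ₗ[ℚ] _).toAddMonoidHom)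
        (H.cx (m + 2) j z) := by
  have : (H.cx (m + 1) (j + 1)).comp (dC m j).toAddMonoidHom =
      (RP.map (fun i => (dC m j : Cx (m + 3) j (k i) →ₗ[ℚ] _).toAddMonoidHom)).comp
        (H.cx (m + 2) j) := by
    refine Cx_ext_add fun q x ω => ?_
    obtain ⟨ω', hω⟩ := RP.exists_rep (H.wedge j ω)
    change H.cx (m + 1) (j + 1) (dC m j (q • gen (m + 3) x ω)) =
      RP.map _ (H.cx (m + 2) j (q • gen (m + 3) x ω))
    rw [map_smul, dC_gen, H.cx_gen (m + 1) (j + 1) q x _ _
      (H.wedge_wL j _ _ (H.U_lgP x) ω ω' hω.symm), H.cx_gen (m + 2) j q x ω ω' hω.symm,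
      RP.map_mk]
    congr 1
    funext i
    change _ = dC m j (q • gen (m + 3) _ _)
    rw [map_smul, dC_gen]
  exact DFunLike.congr_fun this z

/-- The families are compatible with the last differentials. -/
theorem tx_dT (j : ℕ) (z : Cx 2 j K) :
    H.tx (j + 2) (dT j z) =
      RP.map (fun i => (dT j : Cx 2 j (k i) →ₗ[ℚ] _).toAddMonoidHom)
        (H.cx 1 j z) := by
  have : (H.tx (j + 2)).comp (dT j).toAddMonoidHom =
      (RP.map (fun i => (dT j : Cx 2 j (k i) →ₗ[ℚ] _).toAddMonoidHom)).comp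
        (H.cx 1 j) := by
    refine Cx_ext_add fun q x ω => ?_
    obtain ⟨ω', hω⟩ := RP.exists_rep (H.wedge j ω)
    change H.tx (j + 2) (dT j (q • gen 2 x ω)) = RP.map _ (H.cx 1 j (q • gen 2 x ω))
    rw [map_smul, dT_gen, H.cx_gen 1 j q x ω ω' hω.symm, RP.map_mk]
    cases x with
    | none =>
      rw [d2, map_zero, LinearMap.zero_apply, toQ, tmul_zero, smul_zero, map_zero,
        ← RP.mk_zero]
      congr 1
      funext i
      change _ = dT j (q • gen 2 none _)
      rw [map_smul, dT_gen, d2, map_zero, LinearMap.zero_apply, toQ, tmul_zero, smul_zero]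
    | some x =>
      rw [d2, mulW_wdg]
      have h1 := H.U_lgP (some x)
      have h2 := H.U_lgP (some (1 - x))
      change H.tx (j + 2) (q • toQ (wL (j + 1) (lgP (some (1 - x)))
        (wL j (lgP (some x)) ω))) = _
      rw [H.tx_toQ (j + 2) q _ _ (H.wedge_wL (j + 1) _ _ h2 _ _
        (H.wedge_wL j _ _ h1 ω ω' hω.symm))]
      refine RP.mk_eq.2 ?_
      filter_upwards [H.sub 1 x, H.one] with i h3 h4
      change _ = dT j (q • gen 2 (some (H.f i x)) (ω' i))
      rw [map_smul, dT_gen, d2, mulW_wdg]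
      simp only [mapP_some, lgP_some]
      rw [h3, h4]
  exact DFunLike.congr_fun this z

end EvHom

end

end Helper14.Gon
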