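import Pool.Agent.Helper14.Gon.Inj

set_option autoImplicit false

/-!
# Cohomology groups and rigidity of `H^1`
-/

noncomputable section

open Polynomial TensorProduct Filter
open scoped Classical

namespace Helper14.Gon

universe u v w x y

section
variable (F : Type u) [Field F]

/-- The cycles in the term `B_{k+2}(F) ⊗ Λ^j F^* ⊗ ℚ` of `Γ(F, k + j + 2) ⊗ ℚ`. -/
def cyc : (k j : ℕ) → Submodule ℚ (Cx (k + 2) j F)
  | 0, j => LinearMap.ker (dT j)
  | k + 1, j => LinearMap.ker (dC k j)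

/-- The boundaries in the term `B_{k+2}(F) ⊗ Λ^j F^* ⊗ ℚ` of `Γ(F, k + j + 2) ⊗ ℚ`. -/
def bdry : (k j : ℕ) → Submodule ℚ (Cx (k + 2) j F)
  | _, 0 => ⊥
  | k, j + 1 => LinearMap.range (dC k j)

/-- The cohomology group `H^{j+1}(Γ(F, k + j + 2) ⊗ ℚ)` (a degree below the top one). -/
abbrev Hc (k j : ℕ) : Type u := ↥(cyc F k j) ⧸ (bdry F k j).submoduleOf (cyc F k j)

/-- The top cohomology group `H^n(Γ(F, n) ⊗ ℚ)`, `n = j + 2`. -/
abbrev Htop (j : ℕ) : Type u := Tx (j + 2) F ⧸ LinearMap.range (dT j : Cx 2 j F →ₗ[ℚ] _)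

end

section
variable {K : Type u} [Field K] {L : Type w} [Field L] (φ : K →+* L)

lemma resC_cyc (k j : ℕ) {z : Cx (k + 2) j K} (hz : z ∈ cyc K k j) :
    resC (k + 1) j φ z ∈ cyc L k j := by
  cases k with
  | zero =>
    change dT j _ = 0
    rw [resT_dT j φ]
    have : dT j z = 0 := hz
    rw [this, map_zero]
  | succ k =>
    change dC k j _ = 0
    rw [resC_dC]
    have : dC k j z = 0 := hz
    rw [this, map_zero]

lemma resC_bdry (k j : ℕ) {z : Cx (k + 2) j K} (hz : z ∈ bdry K k j) :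
    resC (k + 1) j φ z ∈ bdry L k j := by
  cases j with
  | zero =>
    have : z = 0 := hz
    rw [this, map_zero]; exact zero_mem _
  | succ j =>
    obtain ⟨η, rfl⟩ := hz
    exact ⟨resC (k + 2) j φ η, resC_dC k j φ η⟩

/-- The map on cycles. -/
def cycMap (k j : ℕ) : ↥(cyc K k j) →ₗ[ℚ] ↥(cyc L k j) :=
  (resC (k + 1) j φ).restrict (fun _ hz => resC_cyc φ k j hz)

/-- The map `H^{j+1}(Γ(K, k + j + 2) ⊗ ℚ) → H^{j+1}(Γ(L, k + j + 2) ⊗ ℚ)`. -/
def Hres (k j : ℕ) : Hc K k j →ₗ[ℚ] Hc L k j :=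
  Submodule.mapQ _ _ (cycMap φ k j) (by
    intro z hz
    exact resC_bdry φ k j hz)

/-- The map `H^n(Γ(K, n) ⊗ ℚ) → H^n(Γ(L, n) ⊗ ℚ)`, `n = j + 2`. -/
def HresTop (j : ℕ) : Htop K j →ₗ[ℚ] Htop L j :=
  Submodule.mapQ _ _ (resT (j + 2) φ) (by
    rintro z ⟨η, rfl⟩
    exact ⟨resC 1 j φ η, resT_dT j φ η⟩)

lemma Hres_mk_eq_zero (k j : ℕ) (z : ↥(cyc K k j)) :
    Hres φ k j (Submodule.Quotient.mk z) = 0 ↔ resC (k + 1) j φ z.1 ∈ bdry L k j := by
  change Submodule.Quotient.mk (cycMap φ k j z) = 0 ↔ _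
  rw [Submodule.Quotient.mk_eq_zero]
  rfl

lemma HresTop_mk_eq_zero (j : ℕ) (z : Tx (j + 2) K) :
    HresTop φ j (Submodule.Quotient.mk z) = 0 ↔
      resT (j + 2) φ z ∈ LinearMap.range (dT j : Cx 2 j L →ₗ[ℚ] _) := by
  change Submodule.Quotient.mk (resT (j + 2) φ z) = 0 ↔ _
  rw [Submodule.Quotient.mk_eq_zero]

end

section
variable {K : Type u} [Field K] {L : Type w} [Field L]

/-- Injectivity on cohomology from a family of points. -/
theorem Hres_inj_of {I : Type v} {l : Filter I} [l.NeBot] (H : EvHom l L (fun _ => K))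
    (ι : K →+* L) (hι : ∀ x : K, ∀ᶠ i in l, H.f i (ι x) = x) (k j : ℕ) :
    Function.Injective (Hres ι k j) := by
  rw [injective_iff_map_eq_zero]
  intro z hz
  obtain ⟨z, rfl⟩ := Submodule.Quotient.mk_surjective _ z
  rw [Hres_mk_eq_zero] at hz
  rw [Submodule.Quotient.mk_eq_zero]
  change z.1 ∈ bdry K k j
  cases j with
  | zero =>
    have h1 : resC (k + 1) 0 ι z.1 = 0 := hz
    have := H.resC_inj ι hι (k + 1) 0 z.1 h1
    rw [this]; exact zero_mem _
  | succ j =>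
    obtain ⟨η, hη⟩ := hz
    obtain ⟨η', h'⟩ := H.range_dC ι hι k j z.1 η hη
    exact ⟨η', h'⟩

/-- Injectivity on the top cohomology from a family of points. -/
theorem HresTop_inj_of {I : Type v} {l : Filter I} [l.NeBot] (H : EvHom l L (fun _ => K))
    (ι : K →+* L) (hι : ∀ x : K, ∀ᶠ i in l, H.f i (ι x) = x) (j : ℕ) :
    Function.Injective (HresTop ι j) := by
  rw [injective_iff_map_eq_zero]
  intro z hz
  obtain ⟨z, rfl⟩ := Submodule.Quotient.mk_surjective _ z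
  rw [HresTop_mk_eq_zero] at hz
  rw [Submodule.Quotient.mk_eq_zero]
  obtain ⟨η, hη⟩ := hz
  obtain ⟨η', h'⟩ := H.range_dT ι hι j z η hη
  exact ⟨η', h'⟩

end

section
variable {K : Type u} [Field K]

lemma evalHom_const (x : K) :
    ∀ᶠ a in (cofinite : Filter K), (evalHom K).f a (RatFunc.C x) = x := by
  refine Eventually.of_forall fun a => ?_
  change (RatFunc.C x : RatFunc K).num.eval a / (RatFunc.C x : RatFunc K).denom.eval a = x
  simp

lemma finite_pow [Finite K] : ∃ p : ℕ, p.Prime ∧ CharP K p ∧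
    ∀ x : K, ∃ m : ℕ, m ≠ 0 ∧ x ^ p ^ m = x := by
  obtain ⟨p, hp⟩ := CharP.exists K
  have hp' : p.Prime := by
    rcases CharP.char_is_prime_or_zero K p with h | h
    · exact h
    · subst h
      have := CharP.charP_to_charZero K
      exact absurd ‹Finite K› (not_finite_iff_infinite.2 (Infinite.of_injective _
        Nat.cast_injective : Infinite K))
  refine ⟨p, hp', hp, fun x => ?_⟩
  have := Fact.mk hp'
  let := Fintype.ofFinite K
  obtain ⟨m, _, hm⟩ := FiniteField.card K p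
  exact ⟨m, m.ne_zero, by rw [← hm]; exact FiniteField.pow_card x⟩

lemma resC_C_inj (m j : ℕ) (z : Cx (m + 1) j K)
    (h : resC m j (RatFunc.C : K →+* RatFunc K) z = 0) : z = 0 := by
  by_cases hK : Finite K
  · obtain ⟨p, hp, _, hx⟩ := finite_pow (K := K)
    exact cx_zero hp hx m j z
  · have : Infinite K := not_finite_iff_infinite.1 hK
    exact (evalHom K).resC_inj RatFunc.C evalHom_const m j z h

/-- Elements of `A_n(K(t))` specialise to elements of `A_n(K)` up to torsion. -/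
lemma specA (n : ℕ) {α : ZP (RatFunc K)} (hα : α ∈ A (n + 2) (RatFunc K)) (c : K) :
    Tors (A (n + 2) K) (specZ c α) := by
  cases n with
  | zero =>
    refine ⟨2, two_ne_zero, ?_⟩
    have h0 : delta2 (RatFunc K) α = 0 := hα
    have h1 := delta2_spec c α
    rw [h0, map_zero, smul_zero] at h1
    change delta2 K _ = 0
    rw [map_zsmul, ← h1]
  | succ n => exact specA_tors (sp n K) hα c

/-- The unit of `Λ^0`. -/
def one0 (F : Type u) [Field F] : Lam 0 F := exteriorPower.ιMulti ℤ 0 (fun i => i.elim0)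

lemma resL_one0 {L : Type w} [Field L] (φ : K →+* L) : resL 0 φ (one0 K) = one0 L := by
  rw [one0, one0, resL, exteriorPower.map_apply_ιMulti]
  congr 1
  funext i
  exact i.elim0

/-- The element `α ⊗ 1` of the first term of the complex. -/
def fst (k : ℕ) {F : Type u} [Field F] (α : ZP F) : Cx k 0 F :=
  toQ ((QuotientAddGroup.mk α : B k F) ⊗ₜ[ℤ] one0 F)

lemma fst_zsmul (k : ℕ) {F : Type u} [Field F] (N : ℤ) (α : ZP F) :
    fst k (N • α) = N • fst k α := by
  have : (QuotientAddGroup.mk (N • α) : B k F) = N • QuotientAddGroup.mk α := rfl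
  rw [fst, this, zs_tmul, toQ, tmul_zs, fst]

lemma fst_eq_zero {k : ℕ} {F : Type u} [Field F] {α : ZP F} (h : α ∈ R k F) :
    fst k α = 0 := by
  rw [fst, (QuotientAddGroup.eq_zero_iff _).2 h, zero_tmul, toQ, tmul_zero]

lemma fst_sub (k : ℕ) {F : Type u} [Field F] (α β : ZP F) :
    fst k (α - β) = fst k α - fst k β := by
  rw [fst, QuotientAddGroup.mk_sub, sub_tmul, toQ, tmul_sub, fst, fst]

lemma exists_fst (k : ℕ) {F : Type u} [Field F] (z : Cx k 0 F) :
    ∃ (N : ℤ) (α : ZP F), N ≠ 0 ∧ N • z = fst k α := by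
  obtain ⟨⟨m, N⟩, h⟩ := IsLocalizedModule.surj (nonZeroDivisors ℤ)
    (TensorProduct.mk ℤ ℚ (B k F ⊗[ℤ] Lam 0 F) 1) z
  have hm : ∃ b : B k F, m = b ⊗ₜ[ℤ] one0 F := by
    let e : B k F ⊗[ℤ] Lam 0 F ≃ₗ[ℤ] B k F :=
      (LinearEquiv.lTensor (B k F) (exteriorPower.zeroEquiv ℤ (Additive Fˣ))).trans (TensorProduct.rid ℤ _)
    have h1 : ∀ b : B k F, e (b ⊗ₜ[ℤ] one0 F) = b := by
      intro b
      change TensorProduct.rid ℤ (B k F)
        (b ⊗ₜ[ℤ] (exteriorPower.zeroEquiv ℤ (Additive Fˣ) (one0 F))) = b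
      rw [one0, exteriorPower.zeroEquiv_ιMulti, TensorProduct.rid_tmul, one_smul]
    refine ⟨e m, ?_⟩
    exact (e.injective (h1 (e m))).symm
  obtain ⟨b, rfl⟩ := hm
  obtain ⟨α, rfl⟩ := QuotientAddGroup.mk_surjective b
  exact ⟨N, α, nonZeroDivisors.coe_ne_zero N, h⟩

lemma one0_val (F : Type u) [Field F] : (one0 F).1 = 1 := by
  rw [one0, exteriorPower.ιMulti_apply_coe]
  simp

/-- A cycle of degree one comes from an element of `A_n`, up to torsion. -/
lemma tors_of_cyc (k : ℕ) {F : Type u} [Field F] {α : ZP F} (h : fst (k + 2) α ∈ cyc F k 0) :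
    Tors (A (k + 2) F) α := by
  cases k with
  | zero =>
    have h1 : dT 0 (fst 2 α) = 0 := h
    have h2 : dT 0 (fst 2 α) = toQ (mulW 0 (delta2 F α) (one0 F)) := by
      simp only [dT, fst, toQ]
      exact LinearMap.liftBaseChange_one_tmul ℚ _ _
    rw [h2, toQ_eq_zero] at h1
    obtain ⟨N, hN, h3⟩ := h1
    refine ⟨N, hN, ?_⟩
    change delta2 F _ = 0
    rw [map_zsmul]
    have h4 : mulW 0 (delta2 F α) (one0 F) = delta2 F α := by
      ext
      change (delta2 F α).1 * (one0 F).1 = _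
      rw [one0_val, mul_one]
    rw [h4] at h3
    exact h3
  | succ k =>
    have h1 : dC k 0 (fst (k + 3) α) = 0 := h
    have h2 : dC k 0 (fst (k + 3) α) =
        toQ (wd1 (k + 2) 0 (deltaS (R (k + 2) F) α ⊗ₜ[ℤ] one0 F)) := by
      simp only [dC, fst, toQ]
      exact LinearMap.liftBaseChange_one_tmul ℚ _ _
    rw [h2, toQ_eq_zero] at h1
    obtain ⟨N, hN, h3⟩ := h1
    refine ⟨N, hN, ?_⟩
    change deltaS _ _ = 0
    rw [map_zsmul]
    set e : B (k + 2) F ⊗[ℤ] Lam 1 F →ₗ[ℤ] B (k + 2) F ⊗[ℤ] Additive Fˣ :=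
      LinearMap.lTensor (B (k + 2) F) (exteriorPower.oneEquiv ℤ (Additive Fˣ)).toLinearMap with he
    have h4 : ∀ d : B (k + 2) F ⊗[ℤ] Additive Fˣ,
        e (wd1 (k + 2) 0 (d ⊗ₜ[ℤ] one0 F)) = d := by
      intro d
      induction d using TensorProduct.induction_on with
      | zero => rw [zero_tmul, map_zero, map_zero]
      | add a b ha hb => rw [add_tmul, map_add, map_add, ha, hb]
      | tmul b v =>
        rw [wd1_tmul]
        change b ⊗ₜ[ℤ] (exteriorPower.oneEquiv ℤ (Additive Fˣ) (wL 0 v (one0 F))) = b ⊗ₜ[ℤ] v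
        congr 1
        have e1 : wL 0 v (one0 F) = exteriorPower.ιMulti ℤ 1 (fun _ => v) := by
          ext
          change ExteriorAlgebra.ι ℤ v * (one0 F).1 = _
          rw [one0_val, mul_one, exteriorPower.ιMulti_apply_coe,
            ExteriorAlgebra.ιMulti_succ_apply]
          simp
        rw [e1, exteriorPower.oneEquiv_ιMulti]
    have h5 := congrArg e h3
    rw [map_zsmul, h4, map_zero] at h5
    exact h5

lemma cyc_of_tors (k : ℕ) {F : Type u} [Field F] {α : ZP F} (h : Tors (A (k + 2) F) α) :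
    fst (k + 2) α ∈ cyc F k 0 := by
  obtain ⟨N, hN, h0⟩ := h
  cases k with
  | zero =>
    change dT 0 (fst 2 α) = 0
    have h2 : dT 0 (fst 2 α) = toQ (mulW 0 (delta2 F α) (one0 F)) := by
      simp only [dT, fst, toQ]
      exact LinearMap.liftBaseChange_one_tmul ℚ _ _
    rw [h2, toQ_eq_zero]
    refine ⟨N, hN, ?_⟩
    have h3 : delta2 F (N • α) = 0 := h0
    rw [map_zsmul] at h3
    rw [← LinearMap.smul_apply, ← map_zsmul, h3, map_zero, LinearMap.zero_apply]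
  | succ k =>
    change dC k 0 (fst (k + 3) α) = 0
    have h2 : dC k 0 (fst (k + 3) α) =
        toQ (wd1 (k + 2) 0 (deltaS (R (k + 2) F) α ⊗ₜ[ℤ] one0 F)) := by
      simp only [dC, fst, toQ]
      exact LinearMap.liftBaseChange_one_tmul ℚ _ _
    rw [h2, toQ_eq_zero]
    refine ⟨N, hN, ?_⟩
    have h3 : deltaS (R (k + 2) F) (N • α) = 0 := h0
    rw [map_zsmul] at h3
    rw [← map_zsmul, ← zs_tmul, h3, zero_tmul, map_zero]

/-- Surjectivity in degree one. -/
lemma cyc_surj (k : ℕ) (z : Cx (k + 2) 0 (RatFunc K)) (hz : z ∈ cyc (RatFunc K) k 0) :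
    ∃ y ∈ cyc K k 0, resC (k + 1) 0 (RatFunc.C : K →+* RatFunc K) y = z := by
  obtain ⟨N, α, hN, h1⟩ := exists_fst (k + 2) z
  have h2 : fst (k + 2) α ∈ cyc (RatFunc K) k 0 := by
    rw [← h1]; exact zsmul_mem hz N
  obtain ⟨N', hN', h3⟩ := tors_of_cyc k h2
  have h4 := rigid h3 0
  have h5 := specA k h3 0
  have h6 : fst (k + 2) (N' • α) = fst (k + 2) (cst (specZ 0 (N' • α))) := by
    rw [← sub_eq_zero, ← fst_sub]; exact fst_eq_zero h4
  have h7 : resC (k + 1) 0 (RatFunc.C : K →+* RatFunc K) (fst (k + 2) (specZ 0 (N' • α))) =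
      fst (k + 2) (cst (specZ 0 (N' • α))) := by
    change (1 : ℚ) ⊗ₜ[ℤ] (resB (k + 1) RatFunc.C (QuotientAddGroup.mk (specZ 0 (N' • α)))
      ⊗ₜ[ℤ] resL 0 RatFunc.C (one0 K)) = _
    rw [resL_one0]
    rfl
  have hNN : ((N' * N : ℤ) : ℚ) ≠ 0 := by exact_mod_cast mul_ne_zero hN' hN
  refine ⟨((N' * N : ℤ) : ℚ)⁻¹ • fst (k + 2) (specZ 0 (N' • α)),
    Submodule.smul_mem _ _ (cyc_of_tors k h5), ?_⟩
  rw [map_smul, h7, ← h6, fst_zsmul, ← h1, smul_smul, ← Int.cast_smul_eq_zsmul ℚ,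
    smul_smul, inv_mul_cancel₀ hNN, one_smul]

/-- Rigidity: `H^1(Γ(K, n) ⊗ ℚ) → H^1(Γ(K(t), n) ⊗ ℚ)` is bijective. -/
theorem Hres_bij (k : ℕ) :
    Function.Bijective (Hres (RatFunc.C : K →+* RatFunc K) k 0) := by
  constructor
  · rw [injective_iff_map_eq_zero]
    intro z hz
    obtain ⟨z, rfl⟩ := Submodule.Quotient.mk_surjective _ z
    rw [Hres_mk_eq_zero] at hz
    rw [Submodule.Quotient.mk_eq_zero]
    change z.1 ∈ bdry K k 0
    have h1 : resC (k + 1) 0 (RatFunc.C : K →+* RatFunc K) z.1 = 0 := hz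
    rw [resC_C_inj (k + 1) 0 z.1 h1]
    exact zero_mem _
  · intro z
    obtain ⟨z, rfl⟩ := Submodule.Quotient.mk_surjective _ z
    obtain ⟨y, hy, h⟩ := cyc_surj k z.1 z.2
    refine ⟨Submodule.Quotient.mk ⟨y, hy⟩, ?_⟩
    change Submodule.Quotient.mk (cycMap _ k 0 ⟨y, hy⟩) = _
    congr 1
    exact Subtype.ext h

end

end Helper14.Gon
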