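import Pool.Agent.Helper14.Gon.Wd

set_option autoImplicit false

/-!
# The complexes `Γ(F, n) ⊗ ℚ`

The term `B_k(F) ⊗ Λ^j F^*` of `Γ(F, k + j)` (in degree `j + 1`) tensored with `ℚ` is
`Cx k j F`, the last term `Λ^n F^* ⊗ ℚ` (in degree `n`) is `Tx n F`.
-/

noncomputable section

open Polynomial TensorProduct Filter
open scoped Classical

namespace Helper14.Gon

universe u v w x y

/-- `Λ^j F^*`. -/
abbrev Lam (j : ℕ) (F : Type u) [Field F] : Type u := ⋀[ℤ]^j (Additive Fˣ)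

/-- The term `B_k(F) ⊗ Λ^j F^*` of the complex `Γ(F, k + j)`, tensored with `ℚ`. -/
abbrev Cx (k j : ℕ) (F : Type u) [Field F] : Type u := ℚ ⊗[ℤ] (B k F ⊗[ℤ] Lam j F)

/-- The last term `Λ^n F^*` of the complex `Γ(F, n)`, tensored with `ℚ`. -/
abbrev Tx (n : ℕ) (F : Type u) [Field F] : Type u := ℚ ⊗[ℤ] Lam n F

lemma bil_zs {M : Type u} {N : Type v} {P : Type w} [AddCommGroup M] [AddCommGroup N]
    [AddCommGroup P] (f : M →+ N →+ P) (r : ℤ) (m : M) (n : N) : f (r • m) n = f m (r • n) := by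
  rw [map_zsmul, map_zsmul]; rfl

section
variable {F : Type u} [Field F]

/-- The map `(v, ω) ↦ v ∧ ω`. -/
def wL (j : ℕ) : Additive Fˣ →ₗ[ℤ] Lam j F →ₗ[ℤ] Lam (j + 1) F :=
  LinearMap.mk₂ ℤ
    (fun v ω => ⟨ExteriorAlgebra.ι ℤ v * ω.1, by
      change _ ∈ LinearMap.range (ExteriorAlgebra.ι ℤ) ^ (j + 1)
      rw [pow_succ']
      exact Submodule.mul_mem_mul (LinearMap.mem_range_self _ v) ω.2⟩)
    (by intro a b ω; ext; simp [add_mul])
    (by intro c a ω; ext; simp [mul_assoc])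
    (by intro a ω η; ext; simp [mul_add])
    (by intro c a ω; ext; exact mul_smul_comm c _ _)

lemma wL_ιMulti (j : ℕ) (v : Additive Fˣ) (w : Fin j → Additive Fˣ) :
    wL j v (exteriorPower.ιMulti ℤ j w) = exteriorPower.ιMulti ℤ (j + 1) (Matrix.vecCons v w) := by
  ext
  change ExteriorAlgebra.ι ℤ v * ExteriorAlgebra.ιMulti ℤ j w =
    ExteriorAlgebra.ιMulti ℤ (j + 1) (Matrix.vecCons v w)
  rw [ExteriorAlgebra.ιMulti_succ_apply]
  simp

/-- The element `{x}_k ⊗ ω` of the complex. -/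
def gen (k : ℕ) {j : ℕ} (x : P1 F) (ω : Lam j F) : Cx k j F := toQ (cl k x ⊗ₜ[ℤ] ω)

/-- The contraction `(b ⊗ v) ⊗ ω ↦ b ⊗ (v ∧ ω)`. -/
def wd1 (k j : ℕ) : (B k F ⊗[ℤ] Additive Fˣ) ⊗[ℤ] Lam j F →ₗ[ℤ] B k F ⊗[ℤ] Lam (j + 1) F :=
  (LinearMap.lTensor (B k F) (TensorProduct.lift (wL j))) ∘ₗ
    (TensorProduct.assoc ℤ (B k F) (Additive Fˣ) (Lam j F)).toLinearMap

lemma wd1_tmul (k j : ℕ) (b : B k F) (v : Additive Fˣ) (ω : Lam j F) :
    wd1 k j ((b ⊗ₜ v) ⊗ₜ ω) = b ⊗ₜ wL j v ω := rfl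

/-- For `α ∈ ℤ[P¹(F)]` and `ω ∈ Λ^j F^*`, the element `delta(α) ∧ ω`. -/
def pd1 (k j : ℕ) : ZP F →+ Lam j F →+ Cx k (j + 1) F :=
  AddMonoidHom.mk' (fun α => AddMonoidHom.mk'
    (fun ω => toQ (wd1 k j (deltaS (R k F) α ⊗ₜ[ℤ] ω)))
    (by intro a b; rw [tmul_add, map_add, toQ, tmul_add]))
  (by
    intro a b
    refine DFunLike.ext _ _ fun ω => ?_
    change toQ (wd1 k j (deltaS (R k F) (a + b) ⊗ₜ[ℤ] ω)) =
      toQ (wd1 k j (deltaS (R k F) a ⊗ₜ[ℤ] ω)) + toQ (wd1 k j (deltaS (R k F) b ⊗ₜ[ℤ] ω))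
    rw [map_add, add_tmul, map_add, toQ, tmul_add])

/-- The differential `B_{k+3} ⊗ Λ^j F^* → B_{k+2} ⊗ Λ^{j+1} F^*` with values in the
rationalised complex; well defined since `delta(R_{k+3})` is torsion. -/
def pd (k j : ℕ) : B (k + 3) F ⊗[ℤ] Lam j F →+ Cx (k + 2) (j + 1) F :=
  TensorProduct.liftAddHom
    (QuotientAddGroup.lift (R (k + 3) F) (pd1 (k + 2) j)
      (by
        intro β hβ
        refine DFunLike.ext _ _ fun ω => ?_
        change toQ (wd1 (k + 2) j (deltaS (R (k + 2) F) β ⊗ₜ[ℤ] ω)) = 0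
        rw [toQ_eq_zero]
        obtain ⟨N, hN, h1⟩ := wd (k + 1) F β hβ
        refine ⟨N, hN, ?_⟩
        have h2 : N • deltaS (R (k + 2) F) β = 0 := by
          rw [← map_zsmul]; exact h1
        rw [← map_zsmul, ← zs_tmul, h2, zero_tmul, map_zero]))
    (fun r m n => bil_zs _ r m n)

/-- The differential `d : B_{k+3}(F) ⊗ Λ^j F^* ⊗ ℚ → B_{k+2}(F) ⊗ Λ^{j+1} F^* ⊗ ℚ` of the
complex `Γ(F, k + j + 3) ⊗ ℚ`, mapping `{x} ⊗ ω` to `{x} ⊗ (x ∧ ω)`. -/
def dC (k j : ℕ) : Cx (k + 3) j F →ₗ[ℚ] Cx (k + 2) (j + 1) F :=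
  LinearMap.liftBaseChange ℚ (pd k j).toIntLinearMap

lemma dC_gen (k j : ℕ) (x : P1 F) (ω : Lam j F) :
    dC k j (gen (k + 3) x ω) = gen (k + 2) x (wL j (lgP x) ω) := by
  have h1 : dC k j (gen (k + 3) x ω) = pd k j (cl (k + 3) x ⊗ₜ[ℤ] ω) := by
    simp only [dC, gen, toQ]
    exact LinearMap.liftBaseChange_one_tmul ℚ _ _
  rw [h1]
  change toQ (wd1 (k + 2) j (deltaS (R (k + 2) F) (br x) ⊗ₜ[ℤ] ω)) = _
  rw [deltaS, ext_br, dst, wd1_tmul]
  rfl

/-- For `α ∈ ℤ[P¹(F)]` and `ω ∈ Λ^j F^*`, the element `delta_2(α) ∧ ω`. -/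
def mulW (j : ℕ) : L2 F →ₗ[ℤ] Lam j F →ₗ[ℤ] Lam (j + 2) F :=
  LinearMap.mk₂ ℤ
    (fun η ω => ⟨η.1 * ω.1, by
      change _ ∈ LinearMap.range (ExteriorAlgebra.ι ℤ) ^ (j + 2)
      rw [add_comm j 2, pow_add]
      exact Submodule.mul_mem_mul η.2 ω.2⟩)
    (by intro a b ω; ext; simp [add_mul])
    (by intro c a ω; ext; simp [mul_assoc])
    (by intro a ω η; ext; simp [mul_add])
    (by intro c a ω; ext; exact mul_smul_comm c _ _)

lemma mulW_wdg (j : ℕ) (v w : Additive Fˣ) (ω : Lam j F) :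
    mulW j (wdg v w) ω = wL (j + 1) v (wL j w ω) := by
  ext
  change ExteriorAlgebra.ιMulti ℤ 2 ![v, w] * ω.1 =
    ExteriorAlgebra.ι ℤ v * (ExteriorAlgebra.ι ℤ w * ω.1)
  rw [ExteriorAlgebra.ιMulti_succ_apply]
  simp [mul_assoc]

/-- The last differential before passing to rational coefficients in the source. -/
def pt (j : ℕ) : B 2 F ⊗[ℤ] Lam j F →+ Tx (j + 2) F :=
  TensorProduct.liftAddHom
    (QuotientAddGroup.lift (R 2 F)
      (AddMonoidHom.mk' (fun α => AddMonoidHom.mk'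
        (fun ω => toQ (mulW j (delta2 F α) ω))
        (by intro a b; rw [map_add, toQ, tmul_add]))
        (by
          intro a b
          refine DFunLike.ext _ _ fun ω => ?_
          change toQ (mulW j (delta2 F (a + b)) ω) =
            toQ (mulW j (delta2 F a) ω) + toQ (mulW j (delta2 F b) ω)
          rw [map_add, map_add, LinearMap.add_apply, toQ, tmul_add]))
      (by
        intro β hβ
        refine DFunLike.ext _ _ fun ω => ?_
        change toQ (mulW j (delta2 F β) ω) = 0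
        rw [toQ_eq_zero]
        obtain ⟨N, hN, h1⟩ := wd 0 F β hβ
        refine ⟨N, hN, ?_⟩
        have h2 : N • delta2 F β = 0 := by
          rw [← map_zsmul]; exact h1
        rw [← LinearMap.smul_apply, ← map_zsmul, h2, map_zero, LinearMap.zero_apply]))
    (fun r m n => bil_zs _ r m n)

/-- The last differential `B_2(F) ⊗ Λ^j F^* ⊗ ℚ → Λ^{j+2} F^* ⊗ ℚ` of the complex
`Γ(F, j + 2) ⊗ ℚ`, mapping `{x} ⊗ ω` to `(1 - x) ∧ x ∧ ω`. -/
def dT (j : ℕ) : Cx 2 j F →ₗ[ℚ] Tx (j + 2) F :=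
  LinearMap.liftBaseChange ℚ (pt j).toIntLinearMap

lemma dT_gen (j : ℕ) (x : P1 F) (ω : Lam j F) :
    dT j (gen 2 x ω) = toQ (mulW j (d2 x) ω) := by
  have h1 : dT j (gen 2 x ω) = pt j (cl 2 x ⊗ₜ[ℤ] ω) := by
    simp only [dT, gen, toQ]
    exact LinearMap.liftBaseChange_one_tmul ℚ _ _
  rw [h1]
  change toQ (mulW j (delta2 F (br x)) ω) = _
  rw [delta2, ext_br]

/-- Linear maps on `Cx k j F` are determined by their values on the generators. -/
lemma Cx_ext {k j : ℕ} {N : Type v} [AddCommGroup N] [Module ℚ N] {f g : Cx k j F →ₗ[ℚ] N}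
    (h : ∀ (x : P1 F) (ω : Lam j F), f (gen k x ω) = g (gen k x ω)) : f = g := by
  have key : ∀ m : B k F ⊗[ℤ] Lam j F, f (toQ m) = g (toQ m) := by
    intro m
    induction m using TensorProduct.induction_on with
    | zero => simp [toQ]
    | add a b ha hb => rw [toQ, tmul_add, map_add, map_add]; exact congrArg₂ _ ha hb
    | tmul b ω =>
      obtain ⟨β, rfl⟩ := QuotientAddGroup.mk_surjective b
      induction β using Finsupp.induction_linear with
      | zero =>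
        rw [QuotientAddGroup.mk_zero, zero_tmul, toQ, tmul_zero, map_zero, map_zero]
      | add a b ha hb =>
        rw [QuotientAddGroup.mk_add, add_tmul, toQ, tmul_add, map_add, map_add]
        exact congrArg₂ _ ha hb
      | single x m =>
        have e : (toQ ((QuotientAddGroup.mk (Finsupp.single x m) : B k F) ⊗ₜ[ℤ] ω) :
            Cx k j F) = m • gen k x ω := by
          have e1 : (QuotientAddGroup.mk (Finsupp.single x m) : B k F) = m • cl k x := by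
            have : Finsupp.single x m = m • br x := by simp
            rw [this]; rfl
          rw [e1, zs_tmul, toQ, tmul_zs]; rfl
        rw [e, map_zsmul, map_zsmul, h]
  refine LinearMap.ext fun z => ?_
  induction z using TensorProduct.induction_on with
  | zero => simp
  | add a b ha hb => rw [map_add, map_add, ha, hb]
  | tmul q m =>
    have : (q ⊗ₜ[ℤ] m : Cx k j F) = q • toQ m := by
      rw [toQ, smul_tmul', smul_eq_mul, mul_one]
    rw [this, map_smul, map_smul, key]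

/-- `d ∘ d = 0`, first case. -/
theorem dC_dC (k j : ℕ) : (dC k (j + 1)) ∘ₗ (dC (k + 1) j) = (0 : Cx (k + 4) j F →ₗ[ℚ] _) := by
  refine Cx_ext fun x ω => ?_
  rw [LinearMap.comp_apply, dC_gen, dC_gen, LinearMap.zero_apply]
  have : wL (j + 1) (lgP x) (wL j (lgP x) ω) = 0 := by
    rw [← mulW_wdg, wdg_self, map_zero, LinearMap.zero_apply]
  rw [this, gen, tmul_zero, toQ, tmul_zero]

/-- `d ∘ d = 0`, second case. -/
theorem dT_dC (j : ℕ) : (dT (j + 1)) ∘ₗ (dC 0 j) = (0 : Cx 3 j F →ₗ[ℚ] _) := by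
  refine Cx_ext fun x ω => ?_
  rw [LinearMap.comp_apply, dC_gen, dT_gen, LinearMap.zero_apply]
  cases x with
  | none => simp [d2, toQ]
  | some x =>
    have : wL (j + 1) (lg x) (wL j (lg x) ω) = 0 := by
      rw [← mulW_wdg, wdg_self, map_zero, LinearMap.zero_apply]
    rw [d2, mulW_wdg, lgP_some, this, map_zero, toQ, tmul_zero]

end

end Helper14.Gon
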