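import Pool.Agent.Helper14.Gon.Basic

set_option autoImplicit false

/-!
# Eventual ring homomorphisms

A family of functions `K → k i` which along a filter respects any given finite number of
additions and multiplications; extension to rational functions.
-/

noncomputable section

open Polynomial TensorProduct Filter
open scoped Classical

namespace Helper14.Gon

universe u v w

/-- A family of functions between fields that is eventually a ring homomorphism. -/
structure EvHom {I : Type v} (l : Filter I) (K : Type u) [Field K] (k : I → Type w)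
    [∀ i, Field (k i)] where
  /-- the functions -/
  f : ∀ i, K → k i
  zero : ∀ᶠ i in l, f i 0 = 0
  one : ∀ᶠ i in l, f i 1 = 1
  add : ∀ x y, ∀ᶠ i in l, f i (x + y) = f i x + f i y
  mul : ∀ x y, ∀ᶠ i in l, f i (x * y) = f i x * f i y

/-- Coefficientwise application of a function to a polynomial. -/
def mapPoly {K : Type u} [Field K] {k : Type w} [Field k] (h : K → k) (P : K[X]) : k[X] :=
  ∑ j ∈ Finset.range (P.natDegree + 1), monomial j (h (P.coeff j))

lemma mapPoly_coeff {K : Type u} [Field K] {k : Type w} [Field k] (h : K → k) (h0 : h 0 = 0)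
    (P : K[X]) (j : ℕ) : (mapPoly h P).coeff j = h (P.coeff j) := by
  simp only [mapPoly, finsetSum_coeff, coeff_monomial]
  rw [Finset.sum_ite_eq']
  split_ifs with hj
  · rfl
  · rw [coeff_eq_zero_of_natDegree_lt, h0]
    simpa using hj

section
variable {I : Type v} {l : Filter I} {K : Type u} [Field K] {k : I → Type w}
    [∀ i, Field (k i)]

namespace EvHom

variable (H : EvHom l K k)

include H

lemma ne_zero {x : K} (hx : x ≠ 0) : ∀ᶠ i in l, H.f i x ≠ 0 := by
  filter_upwards [H.mul x x⁻¹, H.one] with i h1 h2 h3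
  rw [mul_inv_cancel₀ hx, h2, h3, zero_mul] at h1
  exact one_ne_zero h1

lemma inv {x : K} (hx : x ≠ 0) : ∀ᶠ i in l, H.f i x⁻¹ = (H.f i x)⁻¹ := by
  filter_upwards [H.mul x x⁻¹, H.one, H.ne_zero hx] with i h1 h2 h3
  rw [mul_inv_cancel₀ hx, h2] at h1
  exact eq_inv_of_mul_eq_one_right h1.symm

lemma div (x : K) {y : K} (hy : y ≠ 0) : ∀ᶠ i in l, H.f i (x / y) = H.f i x / H.f i y := by
  filter_upwards [H.mul x y⁻¹, H.inv hy] with i h1 h2
  rw [div_eq_mul_inv, h1, h2, div_eq_mul_inv]

lemma neg (x : K) : ∀ᶠ i in l, H.f i (-x) = - H.f i x := by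
  filter_upwards [H.add x (-x), H.zero] with i h1 h2
  rw [add_neg_cancel, h2] at h1
  linear_combination -h1

lemma sub (x y : K) : ∀ᶠ i in l, H.f i (x - y) = H.f i x - H.f i y := by
  filter_upwards [H.add x (-y), H.neg y] with i h1 h2
  rw [sub_eq_add_neg, h1, h2, sub_eq_add_neg]

lemma sum {ι : Type*} (s : Finset ι) (g : ι → K) :
    ∀ᶠ i in l, H.f i (∑ x ∈ s, g x) = ∑ x ∈ s, H.f i (g x) := by
  induction s using Finset.induction_on with
  | empty => simpa using H.zero
  | insert a s ha ih =>
    filter_upwards [ih, H.add (g a) (∑ x ∈ s, g x)] with i h1 h2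
    rw [Finset.sum_insert ha, Finset.sum_insert ha, h2, h1]

lemma poly_add (P Q : K[X]) :
    ∀ᶠ i in l, mapPoly (H.f i) (P + Q) = mapPoly (H.f i) P + mapPoly (H.f i) Q := by
  have h1 : ∀ᶠ i in l, ∀ j ∈ Finset.range (max P.natDegree Q.natDegree + 1),
      H.f i (P.coeff j + Q.coeff j) = H.f i (P.coeff j) + H.f i (Q.coeff j) :=
    (Finset.eventually_all _).2 fun j _ => H.add _ _
  filter_upwards [h1, H.zero] with i h1 h0
  ext j
  rw [coeff_add, mapPoly_coeff _ h0, mapPoly_coeff _ h0, mapPoly_coeff _ h0, coeff_add]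
  by_cases hj : j < max P.natDegree Q.natDegree + 1
  · exact h1 j (Finset.mem_range.2 hj)
  · push Not at hj
    have hP : P.coeff j = 0 := coeff_eq_zero_of_natDegree_lt (by omega)
    have hQ : Q.coeff j = 0 := coeff_eq_zero_of_natDegree_lt (by omega)
    rw [hP, hQ]; simp [h0]

lemma poly_mul (P Q : K[X]) :
    ∀ᶠ i in l, mapPoly (H.f i) (P * Q) = mapPoly (H.f i) P * mapPoly (H.f i) Q := by
  have h1 : ∀ᶠ i in l, ∀ j ∈ Finset.range (P.natDegree + Q.natDegree + 1),
      H.f i (∑ x ∈ Finset.HasAntidiagonal.antidiagonal j, P.coeff x.1 * Q.coeff x.2) =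
        ∑ x ∈ Finset.HasAntidiagonal.antidiagonal j, H.f i (P.coeff x.1 * Q.coeff x.2) :=
    (Finset.eventually_all _).2 fun j _ => H.sum _ _
  have h2 : ∀ᶠ i in l, ∀ j ∈ Finset.range (P.natDegree + 1),
      ∀ j' ∈ Finset.range (Q.natDegree + 1),
      H.f i (P.coeff j * Q.coeff j') = H.f i (P.coeff j) * H.f i (Q.coeff j') :=
    (Finset.eventually_all _).2 fun j _ => (Finset.eventually_all _).2 fun j' _ => H.mul _ _
  filter_upwards [h1, h2, H.zero] with i h1 h2 h0
  have h2' : ∀ j j', H.f i (P.coeff j * Q.coeff j') =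
      H.f i (P.coeff j) * H.f i (Q.coeff j') := by
    intro j j'
    by_cases hj : j < P.natDegree + 1
    · by_cases hj' : j' < Q.natDegree + 1
      · exact h2 j (Finset.mem_range.2 hj) j' (Finset.mem_range.2 hj')
      · have hQ : Q.coeff j' = 0 := coeff_eq_zero_of_natDegree_lt (by omega)
        rw [hQ]; simp [h0]
    · have hP : P.coeff j = 0 := coeff_eq_zero_of_natDegree_lt (by omega)
      rw [hP]; simp [h0]
  ext j
  rw [mapPoly_coeff _ h0, coeff_mul, coeff_mul]
  simp only [mapPoly_coeff _ h0]
  by_cases hj : j < P.natDegree + Q.natDegree + 1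
  · rw [h1 j (Finset.mem_range.2 hj)]
    exact Finset.sum_congr rfl fun x _ => h2' _ _
  · have hz : ∀ x ∈ Finset.HasAntidiagonal.antidiagonal j, P.coeff x.1 * Q.coeff x.2 = 0 := by
      intro x hx
      rw [Finset.HasAntidiagonal.mem_antidiagonal] at hx
      by_cases hx1 : x.1 ≤ P.natDegree
      · have : Q.coeff x.2 = 0 := coeff_eq_zero_of_natDegree_lt (by omega)
        rw [this, mul_zero]
      · have : P.coeff x.1 = 0 := coeff_eq_zero_of_natDegree_lt (by omega)
        rw [this, zero_mul]
    rw [Finset.sum_eq_zero hz, h0]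
    symm
    refine Finset.sum_eq_zero fun x hx => ?_
    rw [← h2', hz x hx, h0]

lemma poly_ne_zero {P : K[X]} (hP : P ≠ 0) : ∀ᶠ i in l, mapPoly (H.f i) P ≠ 0 := by
  have hc : P.coeff P.natDegree ≠ 0 := by
    rw [coeff_natDegree]; exact leadingCoeff_ne_zero.2 hP
  filter_upwards [H.ne_zero hc, H.zero] with i h1 h0 h2
  apply h1
  rw [← mapPoly_coeff _ h0, h2, coeff_zero]

lemma poly_C (c : K) : ∀ᶠ i in l, mapPoly (H.f i) (C c) = C (H.f i c) := by
  filter_upwards [H.zero] with i h0
  ext j
  rw [mapPoly_coeff _ h0, coeff_C, coeff_C]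
  split_ifs <;> simp [h0]

lemma poly_X : ∀ᶠ i in l, mapPoly (H.f i) X = X := by
  filter_upwards [H.zero, H.one] with i h0 h1
  ext j
  rw [mapPoly_coeff _ h0, coeff_X, coeff_X]
  split_ifs <;> simp [h0, h1]

lemma pow (x : K) (n : ℕ) : ∀ᶠ i in l, H.f i (x ^ n) = H.f i x ^ n := by
  induction n with
  | zero => simpa using H.one
  | succ n ih =>
    filter_upwards [ih, H.mul (x ^ n) x] with i h1 h2
    rw [pow_succ, h2, h1, pow_succ]

/-- Evaluation of a polynomial commutes with the family. -/
lemma poly_eval (P : K[X]) (c : K) :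
    ∀ᶠ i in l, (mapPoly (H.f i) P).eval (H.f i c) = H.f i (P.eval c) := by
  have h1 : ∀ᶠ i in l, H.f i (∑ j ∈ Finset.range (P.natDegree + 1), P.coeff j * c ^ j) =
        ∑ j ∈ Finset.range (P.natDegree + 1), H.f i (P.coeff j * c ^ j) := H.sum _ _
  have h2 : ∀ᶠ i in l, ∀ j ∈ Finset.range (P.natDegree + 1),
      H.f i (P.coeff j * c ^ j) = H.f i (P.coeff j) * H.f i c ^ j := by
    refine (Finset.eventually_all _).2 fun j _ => ?_
    filter_upwards [H.mul (P.coeff j) (c ^ j), H.pow c j] with i h1 h2
    rw [h1, h2]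
  filter_upwards [h1, h2, H.zero] with i h1 h2 h0
  rw [eval_eq_sum_range c, h1]
  simp only [mapPoly, eval_finsetSum, eval_monomial]
  exact Finset.sum_congr rfl fun j hj => (h2 j hj).symm

/-- The extension of the family to rational functions. -/
def rat : EvHom l (RatFunc K) (fun i => RatFunc (k i)) where
  f i r := algebraMap (k i)[X] (RatFunc (k i)) (mapPoly (H.f i) r.num) /
    algebraMap (k i)[X] (RatFunc (k i)) (mapPoly (H.f i) r.denom)
  zero := by
    filter_upwards [H.zero] with i h0
    have : mapPoly (H.f i) (0 : K[X]) = 0 := by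
      ext j; rw [mapPoly_coeff _ h0]; simp [h0]
    simp [this]
  one := by
    filter_upwards [H.one, H.poly_C 1] with i h1 h2
    have : mapPoly (H.f i) (1 : K[X]) = 1 := by
      rw [← C_1, h2, h1, C_1]
    simp [this]
  add x y := by
    have e := RatFunc.num_denom_add x y
    filter_upwards [H.poly_mul (x + y).num (x.denom * y.denom), H.poly_mul x.denom y.denom,
      H.poly_mul (x.num * y.denom + x.denom * y.num) (x + y).denom,
      H.poly_add (x.num * y.denom) (x.denom * y.num), H.poly_mul x.num y.denom,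
      H.poly_mul x.denom y.num, H.poly_ne_zero x.denom_ne_zero,
      H.poly_ne_zero y.denom_ne_zero, H.poly_ne_zero (x + y).denom_ne_zero] with
      i h1 h2 h3 h4 h5 h6 h7 h8 h9
    rw [e] at h1
    rw [h3, h4, h5, h6, h2] at h1
    have h7' := RatFunc.algebraMap_ne_zero h7
    have h8' := RatFunc.algebraMap_ne_zero h8
    have h9' := RatFunc.algebraMap_ne_zero h9
    have h1' := congrArg (algebraMap (k i)[X] (RatFunc (k i))) h1
    simp only [map_mul, map_add] at h1'
    field_simp
    linear_combination -h1'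
  mul x y := by
    have e := RatFunc.num_denom_mul x y
    filter_upwards [H.poly_mul (x * y).num (x.denom * y.denom), H.poly_mul x.denom y.denom,
      H.poly_mul (x.num * y.num) (x * y).denom,
      H.poly_mul x.num y.num, H.poly_ne_zero x.denom_ne_zero,
      H.poly_ne_zero y.denom_ne_zero, H.poly_ne_zero (x * y).denom_ne_zero] with
      i h1 h2 h3 h4 h7 h8 h9
    rw [e] at h1
    rw [h3, h4, h2] at h1
    have h7' := RatFunc.algebraMap_ne_zero h7
    have h8' := RatFunc.algebraMap_ne_zero h8
    have h9' := RatFunc.algebraMap_ne_zero h9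
    have h1' := congrArg (algebraMap (k i)[X] (RatFunc (k i))) h1
    simp only [map_mul] at h1'
    field_simp
    linear_combination -h1'

/-- The extension can be computed by any representation as a quotient. -/
lemma rat_div (p q : K[X]) (hq : q ≠ 0) :
    ∀ᶠ i in l, H.rat.f i (algebraMap K[X] (RatFunc K) p / algebraMap K[X] (RatFunc K) q) =
      algebraMap (k i)[X] (RatFunc (k i)) (mapPoly (H.f i) p) /
      algebraMap (k i)[X] (RatFunc (k i)) (mapPoly (H.f i) q) := by
  set r : RatFunc K := algebraMap K[X] (RatFunc K) p / algebraMap K[X] (RatFunc K) q with hr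
  have hcross : r.num * q = p * r.denom := (RatFunc.num_mul_eq_mul_denom_iff hq).2 hr
  filter_upwards [H.poly_mul r.num q, H.poly_mul p r.denom, H.poly_ne_zero hq,
    H.poly_ne_zero r.denom_ne_zero] with i h1 h2 h3 h4
  rw [hcross, h2] at h1
  have h3' := RatFunc.algebraMap_ne_zero h3
  have h4' := RatFunc.algebraMap_ne_zero h4
  have h1' := congrArg (algebraMap (k i)[X] (RatFunc (k i))) h1
  simp only [map_mul] at h1'
  simp only [rat]
  field_simp
  linear_combination -h1'

end EvHom

/-- The function on `P¹` given by a function on the field. -/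
def mapP {K : Type u} {k : Type w} (h : K → k) : P1 K → P1 k := Option.map h

@[simp] lemma mapP_none {K : Type u} {k : Type w} (h : K → k) : mapP h none = none := rfl
@[simp] lemma mapP_some {K : Type u} {k : Type w} (h : K → k) (x : K) :
    mapP h (some x) = some (h x) := rfl

/-- The additive map on `ℤ[P¹]` given by a function on the field. -/
def mapZ {K : Type u} {k : Type w} (h : K → k) : ZP K →+ ZP k :=
  Finsupp.mapDomain.addMonoidHom (mapP h)

@[simp] lemma mapZ_single {K : Type u} {k : Type w} (h : K → k) (x : P1 K) (m : ℤ) :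
    mapZ h (Finsupp.single x m) = Finsupp.single (mapP h x) m := by
  simp [mapZ]

namespace EvHom
variable (H : EvHom l K k)
include H

/-- The family commutes with specialisation. -/
lemma spec_comm (c : K) (x : P1 (RatFunc K)) :
    ∀ᶠ i in l, spec (H.f i c) (mapP (H.rat.f i) x) = mapP (H.f i) (spec c x) := by
  cases x with
  | none => simp
  | some f =>
    obtain ⟨p, q, hq, hpq, hf⟩ := exists_rep c f
    by_cases hqc : q.eval c = 0
    · have hpc : p.eval c ≠ 0 := by
        rcases hpq with h | h
        · exact h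
        · exact absurd hqc h
      filter_upwards [H.rat_div p q hq, H.poly_eval p c, H.poly_eval q c, H.ne_zero hpc,
        H.zero, H.poly_ne_zero hq] with i h1 h2 h3 h4 h0 h5
      rw [mapP_some, hf, h1, spec_div (H.f i c) _ _ h5 (by rw [h2]; exact Or.inl h4),
        spec_div c p q hq hpq, h3, hqc, if_pos h0, if_pos rfl]
      rfl
    · filter_upwards [H.rat_div p q hq, H.poly_eval p c, H.poly_eval q c, H.ne_zero hqc,
        H.div (p.eval c) hqc, H.poly_ne_zero hq] with i h1 h2 h3 h4 h6 h5
      rw [mapP_some, hf, h1, spec_div (H.f i c) _ _ h5 (by rw [h3]; exact Or.inr h4),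
        spec_div c p q hq hpq, h3, h2, if_neg h4, if_neg hqc, mapP_some, h6]

lemma specZ_comm (c : K) (α : ZP (RatFunc K)) :
    ∀ᶠ i in l, specZ (H.f i c) (mapZ (H.rat.f i) α) = mapZ (H.f i) (specZ c α) := by
  induction α using Finsupp.induction_linear with
  | zero => simp
  | add f g hf hg =>
    filter_upwards [hf, hg] with i h1 h2
    simp only [map_add, h1, h2]
  | single x m =>
    filter_upwards [H.spec_comm c x] with i h1
    simp only [mapZ_single, specZ_single, h1]

end EvHom

end

end Helper14.Gon
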