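import Pool.Agent.Helper14.Gon.Tri
import Pool.Agent.Helper14.Gon.Coh

set_option autoImplicit false

/-!
# The last two cohomology groups of `Γ(K(t), n) ⊗ ℚ`, `K` an algebraic closure of `F_p`
-/

noncomputable section

open Polynomial TensorProduct Filter
open scoped Classical

namespace Helper14.Gon

universe u v w x y

section
variable {F : Type u} [Field F]

/-- Multiplication of `Cx k 0 F` by an element of `Λ^j F^*`. -/
def mW (k j : ℕ) (ω : Lam j F) : Cx k 0 F →ₗ[ℚ] Cx k j F :=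
  LinearMap.baseChange ℚ (LinearMap.lTensor (B k F)
    ((LinearMap.toSpanSingleton ℤ (Lam j F) ω) ∘ₗ
      (exteriorPower.zeroEquiv ℤ (Additive Fˣ)).toLinearMap))

/-- The generator `{x} ⊗ 1`. -/
def g0 (k : ℕ) (x : P1 F) : Cx k 0 F := gen k x (one0 F)

lemma zeroEquiv_one0 : exteriorPower.zeroEquiv ℤ (Additive Fˣ) (one0 F) = 1 := by
  rw [one0, exteriorPower.zeroEquiv_ιMulti]

lemma one0_span (ω : Lam 0 F) :
    ω = (exteriorPower.zeroEquiv ℤ (Additive Fˣ) ω) • one0 F := by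
  apply (exteriorPower.zeroEquiv ℤ (Additive Fˣ)).injective
  rw [map_zsmul, zeroEquiv_one0, smul_eq_mul, mul_one]

lemma mW_g0 (k j : ℕ) (ω : Lam j F) (x : P1 F) : mW k j ω (g0 k x) = gen k x ω := by
  change (1 : ℚ) ⊗ₜ[ℤ] (cl k x ⊗ₜ[ℤ]
    ((exteriorPower.zeroEquiv ℤ (Additive Fˣ) (one0 F)) • ω)) = _
  rw [zeroEquiv_one0, one_smul]
  rfl

/-- Linear maps on `Cx k 0 F` are determined by the generators `{x} ⊗ 1`. -/
lemma Cx0_ext {k : ℕ} {N : Type v} [AddCommGroup N] [Module ℚ N] {f g : Cx k 0 F →ₗ[ℚ] N}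
    (h : ∀ (x : P1 F), f (g0 k x) = g (g0 k x)) : f = g := by
  refine Cx_ext fun x ω => ?_
  have e : (gen k x ω : Cx k 0 F) =
      (exteriorPower.zeroEquiv ℤ (Additive Fˣ) ω) • g0 k x := by
    conv_lhs => rw [one0_span ω]
    rw [gen, tmul_zs, toQ, tmul_zs]; rfl
  rw [e, map_zsmul, map_zsmul, h]

/-- The map `Λ² ⊗ ℚ → Λ^{j+2} ⊗ ℚ`, multiplication by `ω`. -/
def tW (j : ℕ) (ω : Lam j F) : Tx 2 F →ₗ[ℚ] Tx (j + 2) F :=
  LinearMap.baseChange ℚ ((mulW j).flip ω)

lemma tW_toQ (j : ℕ) (ω : Lam j F) (η : L2 F) : tW j ω (toQ η) = toQ (mulW j η ω) := rfl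

lemma dT_g0 (x : P1 F) : dT 0 (g0 2 x) = toQ (d2 x) := by
  rw [g0, dT_gen]
  congr 1
  ext
  change (d2 x).1 * (one0 F).1 = _
  rw [one0_val, mul_one]

lemma dT_mW (j : ℕ) (ω : Lam j F) (z : Cx 2 0 F) :
    dT j (mW 2 j ω z) = tW j ω (dT 0 z) := by
  have : (dT j) ∘ₗ (mW 2 j ω) = (tW j ω) ∘ₗ (dT 0) := by
    refine Cx0_ext fun x => ?_
    rw [LinearMap.comp_apply, LinearMap.comp_apply, mW_g0, dT_gen, dT_g0, tW_toQ]
  exact LinearMap.congr_fun this z

lemma mW_add (k j : ℕ) (ω ω' : Lam j F) (z : Cx k 0 F) :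
    mW k j (ω + ω') z = mW k j ω z + mW k j ω' z := by
  have : mW k j (ω + ω') = mW k j ω + mW k j ω' := by
    refine Cx0_ext fun x => ?_
    rw [LinearMap.add_apply, mW_g0, mW_g0, mW_g0, gen, tmul_add, toQ, tmul_add]
    rfl
  rw [this]; rfl

/-- `mW` as a homomorphism in both variables. -/
def mWH (k j : ℕ) : Lam j F →+ Cx k 0 F →+ Cx k j F :=
  AddMonoidHom.mk' (fun ω => (mW k j ω).toAddMonoidHom) (by
    intro a b
    refine DFunLike.ext _ _ fun z => ?_
    exact mW_add k j a b z)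

end

section
variable {K : Type u} [Field K]

lemma toQ_wdg_const (hc : ConstTors K) (κ : K) (v : Additive (RatFunc K)ˣ) :
    toQ (wdg (lg (RatFunc.C κ)) v) = 0 ∧ toQ (wdg v (lg (RatFunc.C κ))) = 0 := by
  obtain ⟨N, hN, h1⟩ := hc κ
  constructor
  · exact toQ_zero_of ⟨N, hN, by rw [← wdg_zsmul_left, h1, wdg_zero_left]⟩
  · exact toQ_zero_of ⟨N, hN, by rw [← wdg_zsmul_right, h1, wdg_zero_right]⟩

/-- `v, w ↦ 1 ⊗ (v ∧ w)` as a homomorphism in both variables. -/
def tw {F : Type u} [Field F] : Additive Fˣ →+ Additive Fˣ →+ Tx 2 F :=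
  AddMonoidHom.mk' (fun v => (TensorProduct.mk ℤ ℚ (L2 F) 1).toAddMonoidHom.comp (wdgHomR v))
    (by
      intro a b
      refine DFunLike.ext _ _ fun w => ?_
      change toQ (wdg (a + b) w) = toQ (wdg a w) + toQ (wdg b w)
      rw [wdg_add_left, toQ, tmul_add])

lemma tw_apply {F : Type u} [Field F] (v w : Additive Fˣ) : tw v w = toQ (wdg v w) := rfl

/-- `K_2(K(t)) ⊗ ℚ = 0` for `K` an algebraic closure of a finite field. -/
lemma tw_mem [IsAlgClosed K] (hc : ConstTors K) (v w : Additive (RatFunc K)ˣ) :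
    tw v w ∈ LinearMap.range (dT 0 : Cx 2 0 (RatFunc K) →ₗ[ℚ] _) := by
  set S := LinearMap.range (dT 0 : Cx 2 0 (RatFunc K) →ₗ[ℚ] _) with hS
  have hX := X_sub_ne (K := K)
  have hmem : ∀ v : Additive (RatFunc K)ˣ, v ∈ AddSubgroup.closure
      (Set.range (fun κ : K => lg (RatFunc.C κ : RatFunc K)) ∪
      Set.range (ee : K → Additive (RatFunc K)ˣ)) := by
    intro v; rw [gen_top]; trivial
  have hab : ∀ a b : K, tw (ee b) (ee a) ∈ S := by
    intro a b
    by_cases hab : a = b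
    · subst hab
      rw [tw_apply, wdg_self, toQ, tmul_zero]; exact zero_mem _
    · have hk : (RatFunc.C (b - a) : RatFunc K) ≠ 0 := C_ne (sub_ne_zero.2 (Ne.symm hab))
      have hk' : (RatFunc.C (a - b) : RatFunc K) ≠ 0 := C_ne (sub_ne_zero.2 hab)
      have hf : 1 - (RatFunc.X - RatFunc.C a) / RatFunc.C (b - a) =
          (RatFunc.X - RatFunc.C b) / RatFunc.C (a - b) := by
        rw [map_sub] at hk hk' ⊢
        rw [map_sub]
        field_simp
        ring
      refine ⟨g0 2 (some ((RatFunc.X - RatFunc.C a) / RatFunc.C (b - a))), ?_⟩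
      rw [dT_g0, d2, hf, lg_div (hX a) hk, lg_div (hX b) hk', ← tw_apply]
      change tw (ee b - _) (ee a - _) = _
      have z1 := toQ_wdg_const hc (a - b)
      have z2 := toQ_wdg_const hc (b - a)
      simp only [← tw_apply] at z1 z2
      generalize lg (RatFunc.C (a - b) : RatFunc K) = κ1 at z1 ⊢
      generalize lg (RatFunc.C (b - a) : RatFunc K) = κ2 at z2 ⊢
      simp only [map_sub, AddMonoidHom.sub_apply, (z1 _).1, (z2 _).2, sub_zero]
  have s1 : ∀ (b : K) (v : Additive (RatFunc K)ˣ), tw v (ee b) ∈ S := by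
    intro b v
    induction hmem v using AddSubgroup.closure_induction with
    | mem x hx =>
      rcases hx with ⟨κ, rfl⟩ | ⟨c, rfl⟩
      · rw [tw_apply, (toQ_wdg_const hc κ _).1]; exact zero_mem _
      · exact hab _ _
    | zero => rw [map_zero]; exact zero_mem _
    | add x y _ _ hx hy => rw [map_add]; exact add_mem hx hy
    | neg x _ hx => rw [map_neg]; exact neg_mem hx
  induction hmem w using AddSubgroup.closure_induction with
  | mem x hx =>
    rcases hx with ⟨κ, rfl⟩ | ⟨c, rfl⟩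
    · rw [tw_apply, (toQ_wdg_const hc κ _).2]; exact zero_mem _
    · exact s1 c v
  | zero => rw [map_zero]; exact zero_mem _
  | add x y _ _ hx hy => rw [map_add]; exact add_mem hx hy
  | neg x _ hx => rw [map_neg]; exact neg_mem hx

end

section
variable {F : Type u} [Field F]

lemma vecCons_two {n : ℕ} (v : Fin (n + 2) → Additive Fˣ) :
    v = Matrix.vecCons (v 0) (Matrix.vecCons (v 1) (fun i => v i.succ.succ)) := by
  funext i
  refine Fin.cases ?_ (fun i => ?_) i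
  · rfl
  · refine Fin.cases ?_ (fun i => ?_) i
    · rfl
    · rfl

lemma ιMulti_two (j : ℕ) (v : Fin (j + 2) → Additive Fˣ) :
    exteriorPower.ιMulti ℤ (j + 2) v =
      mulW j (wdg (v 0) (v 1)) (exteriorPower.ιMulti ℤ j (fun i => v i.succ.succ)) := by
  rw [mulW_wdg, wL_ιMulti, wL_ιMulti]
  exact congrArg _ (vecCons_two v)

/-- `Tx n F` is spanned by the pure wedges. -/
lemma Tx_ext {n : ℕ} {N : Type v} [AddCommGroup N] [Module ℚ N] {f g : Tx n F →ₗ[ℚ] N}
    (h : ∀ v : Fin n → Additive Fˣ, f (toQ (exteriorPower.ιMulti ℤ n v)) =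
      g (toQ (exteriorPower.ιMulti ℤ n v))) : f = g := by
  have key : ∀ ω : Lam n F, f (toQ ω) = g (toQ ω) := by
    have : f.toAddMonoidHom.comp (TensorProduct.mk ℤ ℚ (Lam n F) 1).toAddMonoidHom =
        g.toAddMonoidHom.comp (TensorProduct.mk ℤ ℚ (Lam n F) 1).toAddMonoidHom :=
      lam_ext fun v => h v
    exact fun ω => DFunLike.congr_fun this ω
  refine LinearMap.ext fun z => ?_
  induction z using TensorProduct.induction_on with
  | zero => simp
  | add a b ha hb => rw [map_add, map_add, ha, hb]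
  | tmul q m =>
    have : (q ⊗ₜ[ℤ] m : Tx n F) = q • toQ m := by
      rw [toQ, smul_tmul', smul_eq_mul, mul_one]
    rw [this, map_smul, map_smul, key]

/-- If all `v ∧ w` are in the image of `dT 0`, then `dT j` is surjective for all `j`. -/
lemma dT_surj (h : ∀ v w : Additive Fˣ, tw v w ∈ LinearMap.range (dT 0 : Cx 2 0 F →ₗ[ℚ] _))
    (j : ℕ) : LinearMap.range (dT j : Cx 2 j F →ₗ[ℚ] _) = ⊤ := by
  set S := LinearMap.range (dT j : Cx 2 j F →ₗ[ℚ] _) with hS
  have : S.mkQ = 0 := by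
    refine Tx_ext fun v => ?_
    rw [LinearMap.zero_apply, Submodule.mkQ_apply, Submodule.Quotient.mk_eq_zero, ιMulti_two]
    obtain ⟨z, hz⟩ := h (v 0) (v 1)
    refine ⟨mW 2 j (exteriorPower.ιMulti ℤ j (fun i => v i.succ.succ)) z, ?_⟩
    rw [dT_mW, hz, tw_apply, tW_toQ]
  rw [← Submodule.ker_mkQ S, this, LinearMap.ker_zero]

end

end Helper14.Gon
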