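import Pool.Agent.Helper14.Gon.Fun

set_option autoImplicit false

/-!
# Characteristic `p`: Frobenius acts on `B_n` by `p^n`
-/

noncomputable section

open Polynomial TensorProduct Filter
open scoped Classical

namespace Helper14.Gon

universe u v w x y

lemma tmul_zs {M : Type u} {N : Type v} [AddCommGroup M] [AddCommGroup N] (m : M) (r : ℤ)
    (v : N) : m ⊗ₜ[ℤ] (r • v) = r • (m ⊗ₜ[ℤ] v) := TensorProduct.tmul_smul r m v

lemma zs_tmul {M : Type u} {N : Type v} [AddCommGroup M] [AddCommGroup N] (m : M) (r : ℤ)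
    (v : N) : (r • m) ⊗ₜ[ℤ] v = r • (m ⊗ₜ[ℤ] v) := (TensorProduct.smul_tmul' r m v).symm

section
variable {F : Type u} [Field F]

lemma wdg_add_left (a b c : Additive Fˣ) : wdg (a + b) c = wdg a c + wdg b c := by
  have := (exteriorPower.ιMulti ℤ 2 (M := Additive Fˣ)).map_update_add ![a, c] 0 a b
  simp only [wdg]
  convert this using 2
  · funext i; fin_cases i <;> rfl
  · congr 1; funext i; fin_cases i <;> rfl
  · congr 1; funext i; fin_cases i <;> rfl

lemma wdg_add_right (a b c : Additive Fˣ) : wdg a (b + c) = wdg a b + wdg a c := by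
  have := (exteriorPower.ιMulti ℤ 2 (M := Additive Fˣ)).map_update_add ![a, c] 1 b c
  simp only [wdg]
  convert this using 2
  · funext i; fin_cases i <;> rfl
  · congr 1; funext i; fin_cases i <;> rfl
  · congr 1; funext i; fin_cases i <;> rfl

/-- `∧` as a homomorphism in the first variable. -/
def wdgHomL (c : Additive Fˣ) : Additive Fˣ →+ L2 F :=
  AddMonoidHom.mk' (fun a => wdg a c) (fun a b => wdg_add_left a b c)

/-- `∧` as a homomorphism in the second variable. -/
def wdgHomR (a : Additive Fˣ) : Additive Fˣ →+ L2 F :=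
  AddMonoidHom.mk' (fun c => wdg a c) (fun b c => wdg_add_right a b c)

lemma wdg_zsmul_left (m : ℤ) (a c : Additive Fˣ) : wdg (m • a) c = m • wdg a c :=
  map_zsmul (wdgHomL c) m a

lemma wdg_zsmul_right (m : ℤ) (a c : Additive Fˣ) : wdg a (m • c) = m • wdg a c :=
  map_zsmul (wdgHomR a) m c

@[simp] lemma wdg_zero_left (c : Additive Fˣ) : wdg 0 c = 0 := map_zero (wdgHomL c)
@[simp] lemma wdg_zero_right (a : Additive Fˣ) : wdg a 0 = 0 := map_zero (wdgHomR a)

@[simp] lemma wdg_self (a : Additive Fˣ) : wdg a a = 0 :=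
  (exteriorPower.ιMulti ℤ 2 (M := Additive Fˣ)).map_eq_zero_of_eq ![a, a]
    (i := 0) (j := 1) rfl (by simp)

lemma lg_pow (x : F) {m : ℕ} (hm : m ≠ 0) : lg (x ^ m) = (m : ℤ) • lg x := by
  by_cases hx : x = 0
  · subst hx; simp [hm]
  · clear hm
    induction m with
    | zero => simp
    | succ m ih =>
      rw [pow_succ, lg_mul (pow_ne_zero m hx) hx, ih]
      push_cast
      rw [add_zsmul, one_zsmul]

lemma br_one_mem : br (some (1 : F)) ∈ R1 F := by
  have : br (some (1 : F)) + br (some 1) - br (some (1 * 1)) ∈ R1 F :=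
    AddSubgroup.subset_closure (Or.inr ⟨1, 1, one_ne_zero, one_ne_zero, rfl⟩)
  simpa using this

lemma R1_pow {x : F} (hx : x ≠ 0) (m : ℕ) :
    br (some (x ^ m)) - (m : ℤ) • br (some x) ∈ R1 F := by
  induction m with
  | zero => simpa using br_one_mem
  | succ m ih =>
    have h : br (some (x ^ m)) + br (some x) - br (some (x ^ m * x)) ∈ R1 F :=
      AddSubgroup.subset_closure (Or.inr ⟨_, _, pow_ne_zero m hx, hx, rfl⟩)
    have := sub_mem ih h
    convert this using 1
    rw [pow_succ]
    push_cast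
    rw [add_smul, one_smul]
    abel

end

/-- In characteristic `p` one has `{x^p}_n = p^n {x}_n` in `B_n`. -/
theorem frob (p : ℕ) (hp : p.Prime) (n : ℕ) : ∀ (K : Type u) [Field K] [CharP K p] (x : K),
    br (some (x ^ p)) - ((p : ℤ) ^ (n + 1)) • br (some x) ∈ R (n + 1) K := by
  have := Fact.mk hp
  induction n with
  | zero =>
    intro K _ _ x
    by_cases hx : x = 0
    · subst hx
      rw [zero_pow hp.ne_zero]
      exact sub_mem (br_zero_mem 0) (AddSubgroup.zsmul_mem _ (br_zero_mem 0) _)
    · rw [zero_add, pow_one]; exact R1_pow hx p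
  | succ n ih =>
    intro K _ _ x
    by_cases hx : x = 0
    · subst hx
      rw [zero_pow hp.ne_zero]
      exact sub_mem (br_zero_mem _) (AddSubgroup.zsmul_mem _ (br_zero_mem _) _)
    set y : RatFunc K := algebraMap K[X] (RatFunc K) (C x * X) with hy
    have hyne : y ≠ 0 := RatFunc.algebraMap_ne_zero (mul_ne_zero (C_ne_zero.2 hx) X_ne_zero)
    have : CharP (RatFunc K) p :=
      charP_of_injective_algebraMap (algebraMap K (RatFunc K)).injective p
    have hA : br (some (y ^ p)) - ((p : ℤ) ^ (n + 2)) • br (some y) ∈ A (n + 2) (RatFunc K) := by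
      cases n with
      | zero =>
        change delta2 (RatFunc K) _ = 0
        rw [map_sub, map_zsmul, delta2, ext_br, ext_br]
        simp only [d2]
        have e : (1 : RatFunc K) - y ^ p = (1 - y) ^ p := by
          rw [sub_pow_char, one_pow]
        rw [e, lg_pow _ hp.ne_zero, lg_pow _ hp.ne_zero, wdg_zsmul_left, wdg_zsmul_right,
          smul_smul, pow_succ, pow_one, sub_self]
      | succ n =>
        change deltaS (R (n + 2) (RatFunc K)) _ = 0
        rw [map_sub, map_zsmul, deltaS, ext_br, ext_br]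
        simp only [dst, lgP_some]
        rw [lg_pow _ hp.ne_zero]
        have h1 : (QuotientAddGroup.mk (br (some (y ^ p))) : ZP (RatFunc K) ⧸ R (n + 2) _) =
            ((p : ℤ) ^ (n + 2)) • QuotientAddGroup.mk (br (some y)) := by
          have := (QuotientAddGroup.eq_zero_iff _).2 (ih (RatFunc K) y)
          rw [QuotientAddGroup.mk_sub, sub_eq_zero] at this
          rw [this]; rfl
        rw [h1, tmul_zs, zs_tmul, smul_smul, ← pow_succ' (p : ℤ) (n + 2), sub_eq_zero]
    have h := rel_mem hA
    have h0 : spec 0 (some y) = some (0 : K) := by rw [hy, spec_poly]; simp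
    have h1 : spec 1 (some y) = some x := by rw [hy, spec_poly]; simp
    have hyp : y ^ p = algebraMap K[X] (RatFunc K) ((C x * X) ^ p) := by rw [map_pow]
    have h0p : spec 0 (some (y ^ p)) = some (0 : K) := by
      rw [hyp, spec_poly]; simp [hp.ne_zero]
    have h1p : spec 1 (some (y ^ p)) = some (x ^ p) := by rw [hyp, spec_poly]; simp
    rw [map_sub, map_sub, map_zsmul, map_zsmul, specZ_single, specZ_single, specZ_single,
      specZ_single, h0, h1, h0p, h1p] at h
    have h2 : br (some 0) - ((p : ℤ) ^ (n + 2)) • br (some 0) ∈ R (n + 2) K :=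
      sub_mem (br_zero_mem _) (AddSubgroup.zsmul_mem _ (br_zero_mem _) _)
    have := sub_mem h2 h
    convert this using 1
    abel

/-- Iterated form. -/
theorem frob_pow (p : ℕ) (hp : p.Prime) (n : ℕ) (K : Type u) [Field K] [CharP K p] (x : K)
    (m : ℕ) :
    br (some (x ^ p ^ m)) - ((p : ℤ) ^ ((n + 1) * m)) • br (some x) ∈ R (n + 1) K := by
  induction m with
  | zero => simp
  | succ m ih =>
    have h1 := frob p hp n K (x ^ p ^ m)
    have h2 := AddSubgroup.zsmul_mem _ ih ((p : ℤ) ^ (n + 1))
    have := add_mem h1 h2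
    convert this using 1
    rw [pow_succ p m, pow_mul x, mul_add, pow_add, mul_one, smul_sub, smul_smul, mul_comm
      ((p : ℤ) ^ (n + 1))]
    abel

/-- In an algebraic extension of a prime field each element is fixed by a power of
Frobenius. -/
lemma exists_pow_eq (p : ℕ) (hp : p.Prime) {K : Type u} [Field K] [CharP K p]
    (halg : ∀ x : K, ∃ P : (ZMod p)[X], P ≠ 0 ∧
      P.eval₂ (ZMod.castHom (dvd_refl p) K) x = 0) (x : K) :
    ∃ m : ℕ, m ≠ 0 ∧ x ^ p ^ m = x := by
  have := Fact.mk hp
  let : Algebra (ZMod p) K := (ZMod.castHom (dvd_refl p) K).toAlgebra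
  have hx : IsAlgebraic (ZMod p) x := by
    obtain ⟨P, hP, h⟩ := halg x
    exact ⟨P, hP, h⟩
  have : FiniteDimensional (ZMod p) (IntermediateField.adjoin (ZMod p) {x}) :=
    IntermediateField.adjoin.finiteDimensional hx.isIntegral
  have : Finite (IntermediateField.adjoin (ZMod p) {x}) :=
    Module.finite_of_finite (ZMod p)
  let := Fintype.ofFinite (IntermediateField.adjoin (ZMod p) {x})
  have hcard := FiniteField.card (IntermediateField.adjoin (ZMod p) {x}) p
  obtain ⟨m, _, hm⟩ := hcard
  refine ⟨m, m.ne_zero, ?_⟩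
  have h1 := FiniteField.pow_card
    (⟨x, IntermediateField.mem_adjoin_simple_self (ZMod p) x⟩ :
      IntermediateField.adjoin (ZMod p) {x})
  rw [hm] at h1
  exact congrArg Subtype.val h1

/-- For `K` algebraic over a finite field everything in `ℤ[P¹(K)]` is torsion modulo
`R_n(K)`, for every `n ≥ 1`. -/
theorem tors_all (p : ℕ) (hp : p.Prime) {K : Type u} [Field K] [CharP K p]
    (h : ∀ x : K, ∃ m : ℕ, m ≠ 0 ∧ x ^ p ^ m = x) (n : ℕ) (ξ : ZP K) :
    Tors (R (n + 1) K) ξ := by
  induction ξ using Finsupp.induction_linear with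
  | zero => exact Tors.of_mem (zero_mem _)
  | add f g hf hg => exact hf.add hg
  | single x m =>
    have h1 : Tors (R (n + 1) K) (br x) := by
      cases x with
      | none => exact Tors.of_mem (br_inf_mem n)
      | some x =>
        obtain ⟨m, hm, hx⟩ := h x
        have h2 := frob_pow p hp n K x m
        rw [hx] at h2
        refine ⟨1 - (p : ℤ) ^ ((n + 1) * m), ?_, ?_⟩
        · intro h0
          have h3 : (p : ℤ) ^ ((n + 1) * m) = 1 := by linarith
          have h4 : p ^ ((n + 1) * m) = 1 := by exact_mod_cast h3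
          have h5 : (n + 1) * m ≠ 0 := mul_ne_zero (Nat.succ_ne_zero n) hm
          exact (pow_eq_one_iff.1 h4).elim hp.one_lt.ne' h5
        · rwa [sub_smul, one_smul]
    have h2 := h1.smul m
    rwa [Finsupp.smul_single, smul_eq_mul, mul_one] at h2

/-- In `K^*` for `K` algebraic over a finite field every element is torsion. -/
lemma units_tors (p : ℕ) (hp : p.Prime) {K : Type u} [Field K]
    (h : ∀ x : K, ∃ m : ℕ, m ≠ 0 ∧ x ^ p ^ m = x) (v : Additive Kˣ) :
    ∃ N : ℤ, N ≠ 0 ∧ N • v = 0 := by
  obtain ⟨m, hm, hx⟩ := h (v.toMul : K)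
  refine ⟨(p : ℤ) ^ m - 1, ?_, ?_⟩
  · intro h0
    have h3 : (p : ℤ) ^ m = 1 := by linarith
    have h4 : p ^ m = 1 := by exact_mod_cast h3
    exact (pow_eq_one_iff.1 h4).elim hp.one_lt.ne' hm
  · rw [sub_smul, one_smul, sub_eq_zero]
    have h1 : v.toMul ^ (p ^ m) = v.toMul := by
      ext; simpa using hx
    have h2 : (p ^ m : ℕ) • v = v := congrArg Additive.ofMul h1
    rw [← natCast_zsmul] at h2
    push_cast at h2
    exact h2

end Helper14.Gon
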