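import Pool.Agent.Helper14.Gon.Gs

set_option autoImplicit false

/-!
# Functoriality, substitutions, generic values and rigidity
-/

noncomputable section

open Polynomial TensorProduct Filter
open scoped Classical

namespace Helper14.Gon

universe u v w x y

section
variable {K : Type u} [Field K] {L : Type w} [Field L]

/-- A ring homomorphism as an eventual homomorphism. -/
def EvHom.ofHom (φ : K →+* L) : EvHom (pure () : Filter Unit) K (fun _ => L) where
  f _ := φ
  zero := by simp
  one := by simp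
  add x y := by simp
  mul x y := by simp

lemma map_mem_R (φ : K →+* L) {n : ℕ} {r : ZP K} (hr : r ∈ R (n + 1) K) :
    mapZ φ r ∈ R (n + 1) L := by
  exact eventually_pure.1 ((EvHom.ofHom φ).mapR hr)

lemma map_mem_A (φ : K →+* L) {n : ℕ} {r : ZP K} (hr : r ∈ A (n + 2) K) :
    mapZ φ r ∈ A (n + 2) L := by
  exact eventually_pure.1 ((EvHom.ofHom φ).mapA hr)

end

section
variable {K : Type u} [Field K]

lemma eventually_eval_ne {P : K[X]} (hP : P ≠ 0) : ∀ᶠ a in (cofinite : Filter K),
    P.eval a ≠ 0 := by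
  have : {a : K | ¬ (P.eval a ≠ 0)} = P.roots.toFinset := by
    ext a
    simp [hP]
  rw [eventually_cofinite, this]
  exact Finset.finite_toSet _

variable (K) in
/-- The family of evaluations of rational functions at the points of `K`. -/
def evalHom : EvHom (cofinite : Filter K) (RatFunc K) (fun _ => K) where
  f a r := r.num.eval a / r.denom.eval a
  zero := by simp
  one := by simp
  add x y := by
    have e := RatFunc.num_denom_add x y
    filter_upwards [eventually_eval_ne x.denom_ne_zero, eventually_eval_ne y.denom_ne_zero,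
      eventually_eval_ne (x + y).denom_ne_zero] with a h1 h2 h3
    have e' := congrArg (eval a) e
    simp only [eval_mul, eval_add] at e'
    field_simp
    linear_combination e'
  mul x y := by
    have e := RatFunc.num_denom_mul x y
    filter_upwards [eventually_eval_ne x.denom_ne_zero, eventually_eval_ne y.denom_ne_zero,
      eventually_eval_ne (x * y).denom_ne_zero] with a h1 h2 h3
    have e' := congrArg (eval a) e
    simp only [eval_mul] at e'
    field_simp
    linear_combination e'

lemma evalHom_spec (α : ZP (RatFunc K)) :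
    ∀ᶠ a in (cofinite : Filter K), mapZ ((evalHom K).f a) α = specZ a α := by
  induction α using Finsupp.induction_linear with
  | zero => simp
  | add f g hf hg =>
    filter_upwards [hf, hg] with i h1 h2
    simp only [map_add, h1, h2]
  | single x m =>
    cases x with
    | none => simp
    | some f =>
      filter_upwards [eventually_eval_ne f.denom_ne_zero] with a h1
      simp only [mapZ_single, specZ_single, mapP_some, spec, evalHom, if_neg h1]

/-- For almost all `a` the value at `a` of an element of `R_n(K(t))` is in `R_n(K)`. -/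
lemma specZ_R {n : ℕ} {r : ZP (RatFunc K)} (hr : r ∈ R (n + 1) (RatFunc K)) :
    ∀ᶠ a in (cofinite : Filter K), specZ a r ∈ R (n + 1) K := by
  filter_upwards [(evalHom K).mapR hr, evalHom_spec r] with a h1 h2
  rwa [h2] at h1

/-- For almost all `a` the value at `a` of an element of `A_n(K(t))` is in `A_n(K)`. -/
lemma specZ_A {n : ℕ} {r : ZP (RatFunc K)} (hr : r ∈ A (n + 2) (RatFunc K)) :
    ∀ᶠ a in (cofinite : Filter K), specZ a r ∈ A (n + 2) K := by
  filter_upwards [(evalHom K).mapA hr, evalHom_spec r] with a h1 h2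
  rwa [h2] at h1

/-- The inclusion of constants `ℤ[P¹(K)] → ℤ[P¹(K(t))]`. -/
def cst : ZP K →+ ZP (RatFunc K) := mapZ (RatFunc.C : K →+* RatFunc K)

lemma specZ_cst (c : K) (α : ZP K) : specZ c (cst α) = α := by
  have : (specZ c).comp (cst (K := K)) = AddMonoidHom.id _ := by
    refine hom_ext fun x => ?_
    cases x with
    | none => simp [cst]
    | some x => simp [cst]
  exact DFunLike.congr_fun this α

/-- A ring homomorphism `K[t] → L` injective on polynomials, extended to `K(t)`. -/
def sub {L : Type w} [Field L] (φ : K[X] →+* L) (h : ∀ P, φ P = 0 → P = 0) : RatFunc K →+* L :=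
  RatFunc.liftRingHom φ (by
    intro P hP
    rw [Submonoid.mem_comap, mem_nonZeroDivisors_iff_ne_zero]
    intro h0
    exact (mem_nonZeroDivisors_iff_ne_zero.1 hP) (h P h0))

lemma sub_div {L : Type w} [Field L] (φ : K[X] →+* L) (h : ∀ P, φ P = 0 → P = 0)
    (p q : K[X]) : sub φ h (algebraMap K[X] (RatFunc K) p / algebraMap K[X] (RatFunc K) q) =
      φ p / φ q := by
  rw [sub, RatFunc.liftRingHom_apply_div]

/-- The affine substitution `t ↦ a + b t` on polynomials. -/
def affP (a b : K) : K[X] →+* K[X] := compRingHom (C a + C b * X)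

lemma affP_eval (a b c : K) (P : K[X]) : (affP a b P).eval c = P.eval (a + b * c) := by
  simp [affP]

lemma affP_ne {a b : K} (hb : b ≠ 0) {P : K[X]} (h : affP a b P = 0) : P = 0 := by
  have h2 : (affP (-a / b) (b⁻¹)) (affP a b P) = P := by
    have e : (C a + C b * X : K[X]).comp (C (-a / b) + C b⁻¹ * X) = X := by
      simp only [add_comp, C_comp, mul_comp, X_comp]
      rw [mul_add, ← C_mul, ← mul_assoc, ← C_mul, ← add_assoc, ← C_add]
      have e1 : a + b * (-a / b) = 0 := by field_simp; ring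
      rw [e1, mul_inv_cancel₀ hb]
      simp
    simp only [affP, coe_compRingHom_apply, comp_assoc]
    rw [e, comp_X]
  rw [← h2, h, map_zero]

/-- The affine substitution `t ↦ a + b t` on rational functions. -/
def aff (a b : K) (hb : b ≠ 0) : RatFunc K →+* RatFunc K :=
  sub ((algebraMap K[X] (RatFunc K)).comp (affP a b)) (by
    intro P hP
    rw [RingHom.comp_apply] at hP
    exact affP_ne hb ((FaithfulSMul.algebraMap_eq_zero_iff K[X] (RatFunc K)).1 hP))

lemma spec_aff (a b c : K) (hb : b ≠ 0) (x : P1 (RatFunc K)) :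
    spec c (mapP (aff a b hb) x) = spec (a + b * c) x := by
  cases x with
  | none => rfl
  | some f =>
    obtain ⟨p, q, hq, hpq, hf⟩ := exists_rep (a + b * c) f
    rw [mapP_some, hf, aff, sub_div, RingHom.comp_apply, RingHom.comp_apply,
      spec_div c _ _ (fun h => hq (affP_ne hb h)) (by rwa [affP_eval, affP_eval]),
      spec_div _ _ _ hq hpq, affP_eval, affP_eval]

lemma specZ_aff (a b c : K) (hb : b ≠ 0) (α : ZP (RatFunc K)) :
    specZ c (mapZ (aff a b hb) α) = specZ (a + b * c) α := by
  have : (specZ c).comp (mapZ (aff a b hb)) = specZ (a + b * c) := by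
    refine hom_ext fun x => ?_
    simp [spec_aff]
  exact DFunLike.congr_fun this α

/-- For `α ∈ A_n(K(t))` the values at any two points differ by an element of `R_n(K)`. -/
lemma specZ_sub_mem {n : ℕ} {α : ZP (RatFunc K)} (hα : α ∈ A (n + 2) (RatFunc K)) (a b : K) :
    specZ a α - specZ b α ∈ R (n + 2) K := by
  by_cases h : b - a = 0
  · have : a = b := (sub_eq_zero.1 h).symm
    rw [this, sub_self]; exact zero_mem _
  · have h1 := rel_mem (map_mem_A (aff a (b - a) h) hα)
    rw [specZ_aff, specZ_aff] at h1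
    have e0 : a + (b - a) * 0 = a := by ring
    have e1 : a + (b - a) * 1 = b := by ring
    rwa [e0, e1] at h1

/-- The ring homomorphism `K[t] → K(t)[s]`, `t ↦ t + s (c - t)`. -/
def hmtP (c : K) : K[X] →+* (RatFunc K)[X] :=
  eval₂RingHom ((Polynomial.C : RatFunc K →+* (RatFunc K)[X]).comp (RatFunc.C : K →+* RatFunc K))
    (C (RatFunc.X : RatFunc K) + X * C (RatFunc.C c - RatFunc.X))

lemma hmtP_eval_zero (c : K) (P : K[X]) :
    (hmtP c P).eval 0 = algebraMap K[X] (RatFunc K) P := by
  have : (evalRingHom (0 : RatFunc K)).comp (hmtP c) = algebraMap K[X] (RatFunc K) := by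
    refine Polynomial.ringHom_ext (fun a => ?_) ?_
    · simp [hmtP]
    · simp [hmtP]
  exact DFunLike.congr_fun this P

lemma hmtP_eval_one (c : K) (P : K[X]) :
    (hmtP c P).eval 1 = RatFunc.C (P.eval c) := by
  have : (evalRingHom (1 : RatFunc K)).comp (hmtP c) =
      (RatFunc.C : K →+* RatFunc K).comp (evalRingHom c) := by
    refine Polynomial.ringHom_ext (fun a => ?_) ?_
    · simp [hmtP]
    · simp [hmtP]
  exact DFunLike.congr_fun this P

lemma hmtP_ne (c : K) {P : K[X]} (h : hmtP c P = 0) : P = 0 := by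
  have h1 := hmtP_eval_zero c P
  rw [h, eval_zero] at h1
  exact (FaithfulSMul.algebraMap_eq_zero_iff K[X] (RatFunc K)).1 h1.symm

/-- The homotopy `K(t) → K(t)(s)`, `t ↦ t + s (c - t)`. -/
def hmt (c : K) : RatFunc K →+* RatFunc (RatFunc K) :=
  sub ((algebraMap (RatFunc K)[X] (RatFunc (RatFunc K))).comp (hmtP c)) (by
    intro P hP
    rw [RingHom.comp_apply] at hP
    exact hmtP_ne c ((FaithfulSMul.algebraMap_eq_zero_iff _ _).1 hP))

lemma spec_hmt_zero (c : K) (x : P1 (RatFunc K)) : spec 0 (mapP (hmt c) x) = x := by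
  cases x with
  | none => rfl
  | some f =>
    have hd : algebraMap K[X] (RatFunc K) f.denom ≠ 0 :=
      RatFunc.algebraMap_ne_zero f.denom_ne_zero
    conv_lhs => rw [← RatFunc.num_div_denom f]
    rw [mapP_some, hmt, sub_div, RingHom.comp_apply, RingHom.comp_apply,
      spec_div 0 _ _ (fun h => f.denom_ne_zero (hmtP_ne c h))
        (by rw [hmtP_eval_zero c f.denom]; exact Or.inr hd),
      hmtP_eval_zero, hmtP_eval_zero, if_neg hd, RatFunc.num_div_denom]

lemma spec_hmt_one (c : K) (x : P1 (RatFunc K)) :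
    spec 1 (mapP (hmt c) x) = mapP (RatFunc.C : K →+* RatFunc K) (spec c x) := by
  have hC : ∀ y : K, (RatFunc.C y : RatFunc K) = 0 ↔ y = 0 := fun y => by
    rw [← map_zero (RatFunc.C : K →+* RatFunc K)]
    exact RatFunc.C_injective.eq_iff
  cases x with
  | none => rfl
  | some f =>
    obtain ⟨p, q, hq, hpq, hf⟩ := exists_rep c f
    rw [mapP_some, hf, hmt, sub_div, RingHom.comp_apply, RingHom.comp_apply,
      spec_div 1 _ _ (fun h => hq (hmtP_ne c h))
        (by rw [hmtP_eval_one, hmtP_eval_one, ne_eq, ne_eq, hC, hC]; exact hpq),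
      hmtP_eval_one, hmtP_eval_one, spec_div c p q hq hpq, hC]
    split_ifs
    · rfl
    · rw [mapP_some, map_div₀]

/-- Rigidity: an element of `A_n(K(t))` differs from its value at a point by an element of
`R_n(K(t))`. -/
theorem rigid {n : ℕ} {α : ZP (RatFunc K)} (hα : α ∈ A (n + 2) (RatFunc K)) (c : K) :
    α - cst (specZ c α) ∈ R (n + 2) (RatFunc K) := by
  have h1 := rel_mem (map_mem_A (hmt c) hα)
  have e0 : specZ 0 (mapZ (hmt c) α) = α := by
    have : (specZ 0).comp (mapZ (hmt c)) = AddMonoidHom.id _ := by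
      refine hom_ext fun x => ?_
      simp [spec_hmt_zero]
    exact DFunLike.congr_fun this α
  have e1 : specZ 1 (mapZ (hmt c) α) = cst (specZ c α) := by
    have : (specZ 1).comp (mapZ (hmt c)) = (cst (K := K)).comp (specZ c) := by
      refine hom_ext fun x => ?_
      simp [spec_hmt_one, cst]
    exact DFunLike.congr_fun this α
  rwa [e0, e1] at h1

/-- Injectivity on constants, for infinite `K`. -/
theorem cst_inj [Infinite K] {n : ℕ} {β : ZP K} (h : cst β ∈ R (n + 1) (RatFunc K)) :
    β ∈ R (n + 1) K := by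
  obtain ⟨a, ha⟩ := (specZ_R h).exists
  rwa [specZ_cst] at ha

end

/-- The canonical map `M → ℚ ⊗ M`. -/
abbrev toQ {M : Type u} [AddCommGroup M] (m : M) : ℚ ⊗[ℤ] M := (1 : ℚ) ⊗ₜ[ℤ] m

lemma toQ_eq_zero {M : Type u} [AddCommGroup M] (m : M) :
    toQ m = 0 ↔ ∃ N : ℤ, N ≠ 0 ∧ N • m = 0 := by
  have h := IsLocalizedModule.eq_zero_iff (nonZeroDivisors ℤ) (TensorProduct.mk ℤ ℚ M 1)
    (m := m)
  rw [TensorProduct.mk_apply] at h
  rw [h]
  constructor
  · rintro ⟨N, hN⟩
    exact ⟨N, nonZeroDivisors.coe_ne_zero N, hN⟩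
  · rintro ⟨N, h0, hN⟩
    exact ⟨⟨N, mem_nonZeroDivisors_iff_ne_zero.2 h0⟩, hN⟩

/-- `ξ` is a torsion element modulo `S`. -/
def Tors {M : Type u} [AddCommGroup M] (S : AddSubgroup M) (ξ : M) : Prop :=
  ∃ N : ℤ, N ≠ 0 ∧ N • ξ ∈ S

section
variable {M : Type u} [AddCommGroup M] {S : AddSubgroup M}

lemma Tors.of_mem {ξ : M} (h : ξ ∈ S) : Tors S ξ := ⟨1, one_ne_zero, by simpa using h⟩

lemma Tors.add {ξ η : M} (h : Tors S ξ) (h' : Tors S η) : Tors S (ξ + η) := by
  obtain ⟨N, hN, h1⟩ := h
  obtain ⟨N', hN', h2⟩ := h'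
  refine ⟨N * N', mul_ne_zero hN hN', ?_⟩
  rw [smul_add]
  refine add_mem ?_ ?_
  · rw [mul_comm, mul_smul]; exact S.zsmul_mem h1 _
  · rw [mul_smul]; exact S.zsmul_mem h2 _

lemma Tors.neg {ξ : M} (h : Tors S ξ) : Tors S (-ξ) := by
  obtain ⟨N, hN, h1⟩ := h
  exact ⟨N, hN, by rw [smul_neg]; exact neg_mem h1⟩

lemma Tors.sub {ξ η : M} (h : Tors S ξ) (h' : Tors S η) : Tors S (ξ - η) := by
  rw [sub_eq_add_neg]; exact h.add h'.neg

lemma Tors.of_smul {ξ : M} {N : ℤ} (hN : N ≠ 0) (h : Tors S (N • ξ)) : Tors S ξ := by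
  obtain ⟨N', hN', h1⟩ := h
  exact ⟨N' * N, mul_ne_zero hN' hN, by rwa [mul_smul]⟩

lemma Tors.smul {ξ : M} (N : ℤ) (h : Tors S ξ) : Tors S (N • ξ) := by
  obtain ⟨N', hN', h1⟩ := h
  exact ⟨N', hN', by rw [smul_comm]; exact S.zsmul_mem h1 _⟩

lemma tors_iff {ξ : M} : Tors S ξ ↔ toQ (QuotientAddGroup.mk ξ : M ⧸ S) = 0 := by
  rw [toQ_eq_zero]
  refine exists_congr fun N => and_congr_right fun _ => ?_
  rw [← QuotientAddGroup.eq_zero_iff]
  rfl

end

end Helper14.Gon
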