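import Pool.Agent.Helper14.Gon.Ev

set_option autoImplicit false

/-!
# Generic specialisation

Membership in `A_n` and `R_n` is eventually preserved by an eventual ring homomorphism.
-/

noncomputable section

open Polynomial TensorProduct Filter
open scoped Classical

namespace Helper14.Gon

universe u v w x y

section RP
variable {I : Type v} (l : Filter I)

/-- The families of elements that are eventually zero. -/
def evZ (G : I → Type w) [∀ i, AddCommGroup (G i)] : AddSubgroup (∀ i, G i) where
  carrier := {f | ∀ᶠ i in l, f i = 0}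
  zero_mem' := by simp
  add_mem' := by
    intro a b ha hb
    filter_upwards [ha, hb] with i h1 h2
    simp [h1, h2]
  neg_mem' := by
    intro a ha
    filter_upwards [ha] with i h1
    simp [h1]

/-- The reduced product of a family of groups. -/
def RP (G : I → Type w) [∀ i, AddCommGroup (G i)] : Type (max v w) := (∀ i, G i) ⧸ evZ l G

instance (G : I → Type w) [∀ i, AddCommGroup (G i)] : AddCommGroup (RP l G) :=
  inferInstanceAs (AddCommGroup ((∀ i, G i) ⧸ evZ l G))

variable {l}

/-- The class of a family, as a homomorphism. -/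
def RP.mkH (G : I → Type w) [∀ i, AddCommGroup (G i)] : (∀ i, G i) →+ RP l G :=
  QuotientAddGroup.mk' (evZ l G)

/-- The class of a family. -/
def RP.mk {G : I → Type w} [∀ i, AddCommGroup (G i)] (f : ∀ i, G i) : RP l G :=
  RP.mkH G f

lemma RP.mk_eq {G : I → Type w} [∀ i, AddCommGroup (G i)] {f g : ∀ i, G i} :
    (RP.mk f : RP l G) = RP.mk g ↔ ∀ᶠ i in l, f i = g i := by
  change (QuotientAddGroup.mk f : (∀ i, G i) ⧸ evZ l G) = QuotientAddGroup.mk g ↔ _
  rw [QuotientAddGroup.eq]
  constructor
  · intro h
    filter_upwards [h] with i h1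
    simp only [Pi.add_apply, Pi.neg_apply] at h1
    exact (neg_add_eq_zero.1 h1)
  · intro h
    filter_upwards [h] with i h1
    simp [h1]

lemma RP.mk_zero {G : I → Type w} [∀ i, AddCommGroup (G i)] :
    (RP.mk (fun _ => 0) : RP l G) = 0 := map_zero (RP.mkH G)

lemma RP.mk_add {G : I → Type w} [∀ i, AddCommGroup (G i)] (f g : ∀ i, G i) :
    (RP.mk (fun i => f i + g i) : RP l G) = RP.mk f + RP.mk g := map_add (RP.mkH G) f g

lemma RP.mk_zsmul {G : I → Type w} [∀ i, AddCommGroup (G i)] (c : ℤ) (f : ∀ i, G i) :
    (RP.mk (fun i => c • f i) : RP l G) = c • RP.mk f := map_zsmul (RP.mkH G) c f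

lemma RP.mk_eq_zero {G : I → Type w} [∀ i, AddCommGroup (G i)] {f : ∀ i, G i} :
    (RP.mk f : RP l G) = 0 ↔ ∀ᶠ i in l, f i = 0 := by
  rw [← RP.mk_zero]
  exact RP.mk_eq

/-- Additive homomorphism to a reduced product from eventual additivity. -/
def RP.hom {M : Type x} [AddCommGroup M] {G : I → Type w} [∀ i, AddCommGroup (G i)]
    (f : M → ∀ i, G i) (h : ∀ a b, ∀ᶠ i in l, f (a + b) i = f a i + f b i) : M →+ RP l G :=
  AddMonoidHom.mk' (fun a => RP.mk (f a)) (by
    intro a b
    rw [← RP.mk_add]
    refine RP.mk_eq.2 ?_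
    filter_upwards [h a b] with i h1
    rw [h1])

@[simp] lemma RP.hom_apply {M : Type x} [AddCommGroup M] {G : I → Type w}
    [∀ i, AddCommGroup (G i)]
    (f : M → ∀ i, G i) (h : ∀ a b, ∀ᶠ i in l, f (a + b) i = f a i + f b i) (a : M) :
    RP.hom (l := l) f h a = RP.mk (f a) := rfl

/-- Homomorphisms from a reduced product. -/
def RP.lift {P : Type x} [AddCommGroup P] {G : I → Type w} [∀ i, AddCommGroup (G i)]
    (f : (∀ i, G i) →+ P) (h : ∀ g : ∀ i, G i, (∀ᶠ i in l, g i = 0) → f g = 0) : RP l G →+ P :=
  QuotientAddGroup.lift (evZ l G) f h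

lemma RP.lift_mk {P : Type x} [AddCommGroup P] {G : I → Type w} [∀ i, AddCommGroup (G i)]
    (f : (∀ i, G i) →+ P) (h : ∀ g : ∀ i, G i, (∀ᶠ i in l, g i = 0) → f g = 0) (g : ∀ i, G i) :
    RP.lift (l := l) f h (RP.mk g) = f g := rfl

lemma RP.exists_rep {G : I → Type w} [∀ i, AddCommGroup (G i)] (z : RP l G) :
    ∃ f : ∀ i, G i, RP.mk f = z := QuotientAddGroup.mk_surjective z

/-- The pairing of reduced products. -/
def RP.pair (M : I → Type w) (N : I → Type x) [∀ i, AddCommGroup (M i)]
    [∀ i, AddCommGroup (N i)] : RP l M →+ RP l N →+ RP l (fun i => M i ⊗[ℤ] N i) :=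
  RP.lift
    (AddMonoidHom.mk' (fun m => RP.lift
        (AddMonoidHom.mk' (fun n => RP.mk (fun i => m i ⊗ₜ[ℤ] n i)) (by
          intro a b
          rw [← RP.mk_add]
          simp only [Pi.add_apply, tmul_add]))
        (by
          intro n hn
          refine RP.mk_eq_zero.2 ?_
          filter_upwards [hn] with i h1
          simp [h1])) (by
      intro a b
      refine DFunLike.ext _ _ fun z => ?_
      obtain ⟨n, rfl⟩ := RP.exists_rep z
      rw [AddMonoidHom.add_apply, RP.lift_mk, RP.lift_mk, RP.lift_mk]
      change RP.mk (fun i => (a i + b i) ⊗ₜ[ℤ] n i) =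
        RP.mk (fun i => a i ⊗ₜ[ℤ] n i) + RP.mk (fun i => b i ⊗ₜ[ℤ] n i)
      rw [← RP.mk_add]
      simp only [add_tmul]))
    (by
      intro m hm
      refine DFunLike.ext _ _ fun z => ?_
      obtain ⟨n, rfl⟩ := RP.exists_rep z
      refine RP.mk_eq_zero.2 ?_
      filter_upwards [hm] with i h1
      simp [h1])

/-- The tensor product version of the pairing. -/
def RP.tens (M : I → Type w) (N : I → Type x) [∀ i, AddCommGroup (M i)]
    [∀ i, AddCommGroup (N i)] : RP l M ⊗[ℤ] RP l N →+ RP l (fun i => M i ⊗[ℤ] N i) :=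
  TensorProduct.liftAddHom (RP.pair M N) (by
    intro r m n
    rw [map_zsmul, map_zsmul]
    rfl)

lemma RP.tens_mk (M : I → Type w) (N : I → Type x) [∀ i, AddCommGroup (M i)]
    [∀ i, AddCommGroup (N i)] (m : ∀ i, M i) (n : ∀ i, N i) :
    RP.tens (l := l) M N (RP.mk m ⊗ₜ[ℤ] RP.mk n) = RP.mk (fun i => m i ⊗ₜ[ℤ] n i) := rfl

end RP

section
variable {I : Type v} {l : Filter I} {K : Type u} [Field K] {k : I → Type w}
    [∀ i, Field (k i)]

namespace EvHom

variable (H : EvHom l K k)

/-- The family of functions on (additively written) units. -/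
def un (v : Additive Kˣ) (i : I) : Additive (k i)ˣ := lg (H.f i (v.toMul : K))

lemma un_add (v w : Additive Kˣ) : ∀ᶠ i in l, H.un (v + w) i = H.un v i + H.un w i := by
  filter_upwards [H.mul (v.toMul : K) (w.toMul : K), H.ne_zero v.toMul.ne_zero,
    H.ne_zero w.toMul.ne_zero] with i h1 h2 h3
  simp only [un]
  rw [toMul_add, Units.val_mul, h1, lg_mul h2 h3]

lemma un_lg (x : K) : ∀ᶠ i in l, H.un (lg x) i = lg (H.f i x) := by
  by_cases hx : x = 0
  · subst hx
    filter_upwards [H.zero, H.one] with i h0 h1
    simp [un, h0, h1]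
  · refine Eventually.of_forall fun i => ?_
    simp [un, lg, hx]

/-- The homomorphism from `K^*` to the reduced product of the `k i^*`. -/
def U : Additive Kˣ →+ RP l (fun i => Additive (k i)ˣ) := RP.hom H.un H.un_add

@[simp] lemma U_apply (v : Additive Kˣ) : H.U v = RP.mk (H.un v) := rfl

/-- The homomorphism from `Λ^j K^*` to the reduced product. -/
def wedge (j : ℕ) : ⋀[ℤ]^j (Additive Kˣ) →ₗ[ℤ] RP l (fun i => ⋀[ℤ]^j (Additive (k i)ˣ)) :=
  exteriorPower.alternatingMapLinearEquiv
    { toFun := fun v => RP.mk (fun i => exteriorPower.ιMulti ℤ j (fun m => H.un (v m) i))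
      map_update_add' := by
        intro _ v m a b
        have e : ∀ (c : Additive Kˣ) (i : I), (fun m' => H.un (Function.update v m c m') i) =
            Function.update (fun m' => H.un (v m') i) m (H.un c i) := by
          intro c i
          funext m'
          by_cases h : m' = m
          · subst h; simp
          · simp [Function.update_of_ne h]
        refine RP.mk_eq.2 ?_
        filter_upwards [H.un_add a b] with i h1
        have e1 := e (a + b) i
        have e2 := e a i
        have e3 := e b i
        simp only [Pi.add_apply]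
        convert (exteriorPower.ιMulti ℤ j).map_update_add (fun m' => H.un (v m') i) m
          (H.un a i) (H.un b i) using 2
        · rw [← h1]; convert e1
        · congr 1
        · congr 1
      map_update_smul' := by
        intro _ v m c a
        have e : ∀ (c : Additive Kˣ) (i : I), (fun m' => H.un (Function.update v m c m') i) =
            Function.update (fun m' => H.un (v m') i) m (H.un c i) := by
          intro c i
          funext m'
          by_cases h : m' = m
          · subst h; simp
          · simp [Function.update_of_ne h]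
        have hs : ∀ᶠ i in l, H.un (c • a) i = c • H.un a i := by
          have := map_zsmul H.U c a
          exact RP.mk_eq.1 this
        refine RP.mk_eq.2 ?_
        filter_upwards [hs] with i h1
        have e1 := e (c • a) i
        have e2 := e a i
        simp only [Pi.smul_apply]
        convert (exteriorPower.ιMulti ℤ j).map_update_smul (fun m' => H.un (v m') i) m
          c (H.un a i) using 2
        · rw [← h1]; convert e1
        · congr 1
      map_eq_zero_of_eq' := by
        intro v a b hab hne
        refine RP.mk_eq_zero.2 (Eventually.of_forall fun i => ?_)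
        exact (exteriorPower.ιMulti ℤ j).map_eq_zero_of_eq _ (by simp [hab]) hne }

lemma wedge_ιMulti (j : ℕ) (v : Fin j → Additive Kˣ) :
    H.wedge j (exteriorPower.ιMulti ℤ j v) =
      RP.mk (fun i => exteriorPower.ιMulti ℤ j (fun m => H.un (v m) i)) := by
  simp only [wedge]
  rw [exteriorPower.alternatingMapLinearEquiv_apply_ιMulti]
  rfl

/-- Eventual compatibility of subgroups. -/
def Comp (S : AddSubgroup (ZP K)) (T : ∀ i, AddSubgroup (ZP (k i))) : Prop :=
  ∀ r ∈ S, ∀ᶠ i in l, mapZ (H.f i) r ∈ T i

/-- The homomorphism from `ℤ[P¹(K)] / S` to the reduced product. -/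
def quo {S : AddSubgroup (ZP K)} {T : ∀ i, AddSubgroup (ZP (k i))} (h : H.Comp S T) :
    (ZP K ⧸ S) →+ RP l (fun i => ZP (k i) ⧸ T i) :=
  QuotientAddGroup.lift S
    (RP.hom (fun α i => (QuotientAddGroup.mk (mapZ (H.f i) α) : ZP (k i) ⧸ T i))
      (by
        intro a b
        refine Eventually.of_forall fun i => ?_
        rw [map_add]; rfl))
    (by
      intro r hr
      refine RP.mk_eq_zero.2 ?_
      filter_upwards [h r hr] with i h1
      exact (QuotientAddGroup.eq_zero_iff _).2 h1)

lemma quo_mk {S : AddSubgroup (ZP K)} {T : ∀ i, AddSubgroup (ZP (k i))} (h : H.Comp S T)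
    (α : ZP K) : H.quo h (QuotientAddGroup.mk α) =
      RP.mk (fun i => (QuotientAddGroup.mk (mapZ (H.f i) α) : ZP (k i) ⧸ T i)) := rfl

/-- Compatibility with the maps `{x} ↦ {x} ⊗ x`. -/
lemma deltaS_comp {S : AddSubgroup (ZP K)} {T : ∀ i, AddSubgroup (ZP (k i))}
    (h : H.Comp S T) (α : ZP K) :
    RP.tens _ _ (TensorProduct.map (H.quo h).toIntLinearMap H.U.toIntLinearMap
      (deltaS S α)) = RP.mk (fun i => deltaS (T i) (mapZ (H.f i) α)) := by
  have : ((RP.tens (l := l) (fun i => ZP (k i) ⧸ T i) (fun i => Additive (k i)ˣ)).comp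
      ((TensorProduct.map (H.quo h).toIntLinearMap H.U.toIntLinearMap).toAddMonoidHom.comp
        (deltaS S))) = RP.hom (fun α i => deltaS (T i) (mapZ (H.f i) α)) (by
          intro a b
          refine Eventually.of_forall fun i => ?_
          rw [map_add, map_add]) := by
    refine hom_ext fun x => ?_
    simp only [AddMonoidHom.comp_apply, deltaS, ext_br, RP.hom_apply]
    cases x with
    | none =>
      simp only [dst, lgP_none, tmul_zero, map_zero]
      refine (RP.mk_eq_zero.2 (Eventually.of_forall fun i => ?_)).symm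
      simp [dst]
    | some x =>
      simp only [dst, lgP_some]
      change RP.tens _ _ (H.quo h (QuotientAddGroup.mk (br (some x))) ⊗ₜ[ℤ] H.U (lg x)) = _
      rw [H.quo_mk, H.U_apply, RP.tens_mk]
      refine RP.mk_eq.2 ?_
      filter_upwards [H.un_lg x] with i h1
      rw [h1]
      simp [dst]
  exact DFunLike.congr_fun this α

/-- Compatibility with `delta_2`. -/
lemma delta2_comp (α : ZP K) :
    H.wedge 2 (delta2 K α) = RP.mk (fun i => delta2 (k i) (mapZ (H.f i) α)) := by
  have : (H.wedge 2).toAddMonoidHom.comp (delta2 K) =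
      RP.hom (fun α i => delta2 (k i) (mapZ (H.f i) α)) (by
          intro a b
          refine Eventually.of_forall fun i => ?_
          rw [map_add, map_add]) := by
    refine hom_ext fun x => ?_
    simp only [AddMonoidHom.comp_apply, delta2, ext_br, RP.hom_apply]
    cases x with
    | none =>
      simp only [d2, map_zero]
      refine (RP.mk_eq_zero.2 (Eventually.of_forall fun i => ?_)).symm
      simp [d2]
    | some x =>
      simp only [d2, wdg]
      change H.wedge 2 _ = _
      rw [wedge_ιMulti]
      refine RP.mk_eq.2 ?_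
      filter_upwards [H.un_lg x, H.un_lg (1 - x), H.sub 1 x, H.one] with i h1 h2 h3 h4
      simp only [mapZ_single, mapP_some, ext_single, one_smul, d2, wdg]
      congr 1
      funext m
      fin_cases m
      · simp [h2, h3, h4]
      · simp [h1]
  exact DFunLike.congr_fun this α

end EvHom

/-- Eventual preservation of `R_n`. -/
def GsR (n : ℕ) : Prop := ∀ (I : Type v) (l : Filter I) (K : Type u) [Field K]
  (k : I → Type w) [∀ i, Field (k i)] (H : EvHom l K k), H.Comp (R n K) (fun i => R n (k i))

/-- Eventual preservation of `A_n`. -/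
def GsA (n : ℕ) : Prop := ∀ (I : Type v) (l : Filter I) (K : Type u) [Field K]
  (k : I → Type w) [∀ i, Field (k i)] (H : EvHom l K k), H.Comp (A n K) (fun i => A n (k i))

lemma gsR_one : GsR.{u, v, w} 1 := by
  intro I l K _ k _ H r hr
  rw [R_one, R1] at hr
  induction hr using AddSubgroup.closure_induction with
  | mem r hr =>
    rcases hr with hr | ⟨x, y, hx, hy, rfl⟩
    · rcases hr with rfl | rfl
      · filter_upwards [H.zero] with i h0
        simp only [mapZ_single, mapP_some, h0]
        exact br_zero_mem 0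
      · refine Eventually.of_forall fun i => ?_
        simp only [mapZ_single, mapP_none]
        exact br_inf_mem 0
    · filter_upwards [H.ne_zero hx, H.ne_zero hy, H.mul x y] with i h1 h2 h3
      simp only [map_sub, map_add, mapZ_single, mapP_some, h3]
      exact AddSubgroup.subset_closure (Or.inr ⟨_, _, h1, h2, rfl⟩)
  | zero => simp
  | add a b _ _ ha hb =>
    filter_upwards [ha, hb] with i h1 h2
    rw [map_add]; exact add_mem h1 h2
  | neg a _ ha =>
    filter_upwards [ha] with i h1
    rw [map_neg]; exact neg_mem h1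

lemma gsA_two : GsA.{u, v, w} 2 := by
  intro I l K _ k _ H r hr
  have h0 : delta2 K r = 0 := hr
  have h1 := H.delta2_comp r
  rw [h0, map_zero] at h1
  exact RP.mk_eq_zero.1 h1.symm

lemma gsA_step (n : ℕ) (h : GsR.{u, v, w} (n + 2)) : GsA.{u, v, w} (n + 3) := by
  intro I l K _ k _ H r hr
  have h0 : deltaS (R (n + 2) K) r = 0 := hr
  have h1 := H.deltaS_comp (h I l K k H) r
  rw [h0, map_zero, map_zero] at h1
  exact RP.mk_eq_zero.1 h1.symm

lemma gsR_step (n : ℕ) (h : GsA.{u, v, w} (n + 2)) : GsR.{u, v, w} (n + 2) := by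
  intro I l K _ k _ H r hr
  rw [R_add_two, relFrom] at hr
  induction hr using AddSubgroup.closure_induction with
  | mem r hr =>
    rcases hr with hr | ⟨α, hα, rfl⟩
    · rcases hr with rfl | rfl
      · filter_upwards [H.zero] with i h0
        simp only [mapZ_single, mapP_some, h0]
        exact br_zero_mem (n + 1)
      · refine Eventually.of_forall fun i => ?_
        simp only [mapZ_single, mapP_none]
        exact br_inf_mem (n + 1)
    · filter_upwards [h I l (RatFunc K) (fun i => RatFunc (k i)) H.rat α hα,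
        H.specZ_comm 0 α, H.specZ_comm 1 α, H.zero, H.one] with i h1 h2 h3 h4 h5
      rw [map_sub, ← h2, ← h3, h4, h5]
      exact rel_mem h1
  | zero => simp
  | add a b _ _ ha hb =>
    filter_upwards [ha, hb] with i h1 h2
    rw [map_add]; exact add_mem h1 h2
  | neg a _ ha =>
    filter_upwards [ha] with i h1
    rw [map_neg]; exact neg_mem h1

theorem gsA (n : ℕ) : GsA.{u, v, w} (n + 2) := by
  induction n with
  | zero => exact gsA_two
  | succ n ih => exact gsA_step n (gsR_step n ih)

theorem gsR (n : ℕ) : GsR.{u, v, w} (n + 1) := by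
  cases n with
  | zero => exact gsR_one
  | succ n => exact gsR_step n (gsA n)

/-- `R_n` is eventually preserved. -/
theorem EvHom.mapR (H : EvHom l K k) {n : ℕ} {r : ZP K} (hr : r ∈ R (n + 1) K) :
    ∀ᶠ i in l, mapZ (H.f i) r ∈ R (n + 1) (k i) := gsR n I l K k H r hr

/-- `A_n` is eventually preserved. -/
theorem EvHom.mapA (H : EvHom l K k) {n : ℕ} {r : ZP K} (hr : r ∈ A (n + 2) K) :
    ∀ᶠ i in l, mapZ (H.f i) r ∈ A (n + 2) (k i) := gsA n I l K k H r hr

end

end Helper14.Gon
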