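import Mathlib

set_option autoImplicit false

/-!
# The polylogarithmic complexes `Γ(F, n) ⊗ ℚ`: definitions

`RR k F` is the group `R_n(F)` of the problem file for `n = k + 2`, `BB k F` is
`B_n(F)`, the term `B_{k+2}(F) ⊗ Λ^j F^* ⊗ ℚ` of the complex `Γ(F, k + j + 2) ⊗ ℚ` (in degree
`j + 1`) is `CC k j F`, and its last term `Λ^n F^* ⊗ ℚ` (in degree `n`) is `TT n F`.
-/

noncomputable section

open Polynomial TensorProduct
open scoped Classical

namespace Helper14.Gon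

universe u v w

/-- The projective line `P¹(F) = F ∪ {∞}`; `none` is the point `∞`. -/
abbrev P1 (F : Type u) : Type u := Option F

/-- The free abelian group `ℤ[P¹(F)]`. -/
abbrev ZP (F : Type u) : Type u := P1 F →₀ ℤ

/-- The generator `{x}` of `ℤ[P¹(F)]`. -/
abbrev br {F : Type u} (x : P1 F) : ZP F := Finsupp.single x 1

section
variable (F : Type u) [Field F]

/-- The multiplicative group `F^*`, written additively. -/
abbrev MU : Type u := Additive Fˣ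

/-- `Λ^j F^*`. -/
abbrev LM (j : ℕ) : Type u := ⋀[ℤ]^j (Additive Fˣ)

/-- `(ℤ[P¹(F)] / S) ⊗ F^*`. -/
abbrev QT (S : AddSubgroup (ZP F)) : Type u := (ZP F ⧸ S) ⊗[ℤ] Additive Fˣ

end

section
variable {F : Type u} [Field F]

/-- The element of `F^*` given by `x ∈ F`, and `0` (the neutral element) if `x = 0`. -/
def lgm (x : F) : MU F := if h : x = 0 then (0 : MU F) else Additive.ofMul (Units.mk0 x h)

/-- The element `x` of `F^*` for a point `x ∈ P¹(F)`; the neutral element if `x = 0, ∞`. -/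
def elx : P1 F → MU F := fun x => x.elim 0 lgm

/-- The element `1 - x` of `F^*` for a point `x ∈ P¹(F)`; the neutral element if
`x = 1, ∞`. -/
def ely : P1 F → MU F := fun x => x.elim 0 (fun y => lgm (1 - y))

/-- `v_1 ∧ … ∧ v_j`. -/
def wj {j : ℕ} (v : Fin j → MU F) : LM F j := exteriorPower.ιMulti ℤ j v

/-- `delta_2`, mapping `{x}` to `(1 - x) ∧ x` (so to `0` if `x = 0, 1, ∞`). -/
def del2 (ξ : ZP F) : LM F 2 := ξ.sum fun x m => m • wj ![ely x, elx x]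

/-- The kernel of `delta_2`. -/
def ker2 (F : Type u) [Field F] : Set (ZP F) := {ξ | del2 ξ = 0}

/-- The map `ℤ[P¹(F)] → (ℤ[P¹(F)] / S) ⊗ F^*`, mapping `{x}` to `{x} ⊗ x` (so to `0` if
`x = 0, 1, ∞`). -/
def delS (S : AddSubgroup (ZP F)) (ξ : ZP F) : QT F S :=
  ξ.sum fun x m => (QuotientAddGroup.mk (Finsupp.single x m) : ZP F ⧸ S) ⊗ₜ[ℤ] elx x

/-- The kernel of `delS S`. -/
def kerS (S : AddSubgroup (ZP F)) : Set (ZP F) := {ξ | delS S ξ = 0}

/-- The value at `t = c` of a point of `P¹(F(t))`. -/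
def spec (c : F) : P1 (RatFunc F) → P1 F
  | none => none
  | some f => if f.denom.eval c = 0 then none else some (f.num.eval c / f.denom.eval c)

/-- The specialisation `α(t) ↦ α(c)`, `ℤ[P¹(F(t))] → ℤ[P¹(F)]`. -/
def spz (c : F) (α : ZP (RatFunc F)) : ZP F := Finsupp.mapDomain (spec c) α

/-- The subgroup of `ℤ[P¹(F)]` generated by `{0}`, `{∞}` and the `α(0) - α(1)`, `α ∈ A`. -/
def relOf (A : Set (ZP (RatFunc F))) : AddSubgroup (ZP F) :=
  AddSubgroup.closure ({br (some 0), br none} ∪ {ξ | ∃ α ∈ A, ξ = spz 0 α - spz 1 α})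

end

/-- A choice of a subgroup of `ℤ[P¹(F)]` for every field `F`. -/
def Sys : Type (u + 1) := ∀ (F : Type u) [Field F], AddSubgroup (ZP F)

/-- `R_2`. -/
def sys2 : Sys.{u} := fun F _ => relOf (ker2 (RatFunc F))

/-- The passage from `R_{n-1}` to `R_n`, `n ≥ 3`. -/
def step (S : Sys.{u}) : Sys.{u} := fun F _ => relOf (kerS (S (RatFunc F)))

/-- `R_{k+2}(F)`. -/
def RR (k : ℕ) : Sys.{u} := step^[k] sys2

/-- `B_{k+2}(F)`. -/
abbrev BB (k : ℕ) (F : Type u) [Field F] : Type u := ZP F ⧸ RR k F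

/-- The term `B_{k+2}(F) ⊗ Λ^j F^* ⊗ ℚ` of the complex `Γ(F, k + j + 2) ⊗ ℚ`, in degree
`j + 1`. -/
def CC (k j : ℕ) (F : Type u) [Field F] : Type u := ℚ ⊗[ℤ] (BB k F ⊗[ℤ] LM F j)

instance instCC (k j : ℕ) (F : Type u) [Field F] : AddCommGroup (CC k j F) :=
  (TensorProduct.addCommGroup : AddCommGroup (ℚ ⊗[ℤ] (BB k F ⊗[ℤ] LM F j)))

instance instQCC (k j : ℕ) (F : Type u) [Field F] : Module ℚ (CC k j F) :=
  (TensorProduct.leftModule : Module ℚ (ℚ ⊗[ℤ] (BB k F ⊗[ℤ] LM F j)))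

/-- The last term `Λ^n F^* ⊗ ℚ` of the complex `Γ(F, n) ⊗ ℚ`. -/
def TT (n : ℕ) (F : Type u) [Field F] : Type u := ℚ ⊗[ℤ] LM F n

instance instTT (n : ℕ) (F : Type u) [Field F] : AddCommGroup (TT n F) :=
  (TensorProduct.addCommGroup : AddCommGroup (ℚ ⊗[ℤ] LM F n))

instance instQTT (n : ℕ) (F : Type u) [Field F] : Module ℚ (TT n F) :=
  (TensorProduct.leftModule : Module ℚ (ℚ ⊗[ℤ] LM F n))

section
variable {F : Type u} [Field F]

/-- The class `{x}` in `B_{k+2}(F)`. -/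
def clb (k : ℕ) (x : P1 F) : BB k F := QuotientAddGroup.mk (br x)

/-- The element `{x} ⊗ v_1 ∧ … ∧ v_j` of `B_{k+2}(F) ⊗ Λ^j F^* ⊗ ℚ`. -/
def gn (k : ℕ) {j : ℕ} (x : P1 F) (v : Fin j → MU F) : CC k j F :=
  (1 : ℚ) ⊗ₜ[ℤ] (clb k x ⊗ₜ[ℤ] wj v)

/-- The element `v_1 ∧ … ∧ v_n` of `Λ^n F^* ⊗ ℚ`. -/
def tp {n : ℕ} (v : Fin n → MU F) : TT n F := (1 : ℚ) ⊗ₜ[ℤ] wj v

end

end Helper14.Gon
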