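import Pool.Agent.Helper14.Gon.Cfun

set_option autoImplicit false

/-!
# Functions of degree one over an algebraic closure of `F_p`
-/

noncomputable section

open Polynomial TensorProduct Filter
open scoped Classical

namespace Helper14.Gon

universe u v w x y

section
variable {F : Type u} [Field F]

lemma lg_inv (x : F) : lg x⁻¹ = - lg x := by
  by_cases hx : x = 0
  · subst hx; simp
  · have h := lg_mul (inv_ne_zero hx) hx
    rw [inv_mul_cancel₀ hx, lg_one] at h
    exact eq_neg_of_add_eq_zero_left h.symm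

lemma lg_div {x y : F} (hx : x ≠ 0) (hy : y ≠ 0) : lg (x / y) = lg x - lg y := by
  rw [div_eq_mul_inv, lg_mul hx (inv_ne_zero hy), lg_inv, sub_eq_add_neg]

lemma q_tors {Q : Type v} [AddCommGroup Q] [Module ℚ Q] {N : ℤ} (hN : N ≠ 0) {x : Q}
    (h : N • x = 0) : x = 0 := by
  rw [← Int.cast_smul_eq_zsmul ℚ] at h
  rcases smul_eq_zero.1 h with h | h
  · exact absurd h (by exact_mod_cast hN)
  · exact h

end

section
variable {K : Type u} [Field K]

/-- The class of `t - a` in `K(t)^*`. -/
def ee (a : K) : Additive (RatFunc K)ˣ := lg (RatFunc.X - RatFunc.C a : RatFunc K)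

lemma X_sub_ne (a : K) : (RatFunc.X - RatFunc.C a : RatFunc K) ≠ 0 := by
  rw [← RatFunc.algebraMap_X, ← RatFunc.algebraMap_C, ← map_sub]
  exact RatFunc.algebraMap_ne_zero (X_sub_C_ne_zero a)

lemma C_ne {a : K} (ha : a ≠ 0) : (RatFunc.C a : RatFunc K) ≠ 0 := by
  rw [← RatFunc.algebraMap_C]
  exact RatFunc.algebraMap_ne_zero (C_ne_zero.2 ha)

/-- Over an algebraically closed field `K(t)^*` is generated by the constants and the
`t - a`. -/
lemma gen_top [IsAlgClosed K] :
    AddSubgroup.closure (Set.range (fun κ : K => lg (RatFunc.C κ : RatFunc K)) ∪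
      Set.range (ee : K → Additive (RatFunc K)ˣ)) = ⊤ := by
  set S := AddSubgroup.closure (Set.range (fun κ : K => lg (RatFunc.C κ : RatFunc K)) ∪
      Set.range (ee : K → Additive (RatFunc K)ˣ)) with hS
  have hC : ∀ κ : K, lg (RatFunc.C κ : RatFunc K) ∈ S := fun κ =>
    AddSubgroup.subset_closure (Or.inl ⟨κ, rfl⟩)
  have hE : ∀ a : K, ee a ∈ S := fun a => AddSubgroup.subset_closure (Or.inr ⟨a, rfl⟩)
  have hprod : ∀ s : Multiset K,
      lg (algebraMap K[X] (RatFunc K) (s.map (fun a => X - C a)).prod) ∈ S := by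
    intro s
    induction s using Multiset.induction_on with
    | empty => simp [zero_mem]
    | cons a s ih =>
      rw [Multiset.map_cons, Multiset.prod_cons, map_mul, lg_mul
        (RatFunc.algebraMap_ne_zero (X_sub_C_ne_zero a)) (RatFunc.algebraMap_ne_zero
          (Multiset.prod_ne_zero (by simp [X_sub_C_ne_zero])))]
      refine add_mem ?_ ih
      rw [map_sub, RatFunc.algebraMap_X, RatFunc.algebraMap_C]
      exact hE a
  have hpoly : ∀ P : K[X], lg (algebraMap K[X] (RatFunc K) P) ∈ S := by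
    intro P
    by_cases hP : P = 0
    · subst hP; simp [zero_mem]
    have h := (IsAlgClosed.splits P).eq_prod_roots
    rw [h, map_mul, lg_mul (RatFunc.algebraMap_ne_zero (C_ne_zero.2
      (leadingCoeff_ne_zero.2 hP))) (RatFunc.algebraMap_ne_zero
          (Multiset.prod_ne_zero (by simp [X_sub_C_ne_zero]))), RatFunc.algebraMap_C]
    exact add_mem (hC _) (hprod _)
  rw [eq_top_iff]
  intro v _
  have hv : v = lg ((v.toMul : RatFunc K)) := (lg_unit v.toMul).symm
  rw [hv, ← RatFunc.num_div_denom (v.toMul : RatFunc K), lg_div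
    (RatFunc.algebraMap_ne_zero (RatFunc.num_ne_zero v.toMul.ne_zero))
    (RatFunc.algebraMap_ne_zero (RatFunc.denom_ne_zero _))]
  exact sub_mem (hpoly _) (hpoly _)

/-- Constants are torsion. -/
def ConstTors (K : Type u) [Field K] : Prop :=
  ∀ κ : K, ∃ N : ℤ, N ≠ 0 ∧ N • lg (RatFunc.C κ : RatFunc K) = 0

lemma constTors_of {p : ℕ} (hp : p.Prime) (h : ∀ x : K, ∃ m : ℕ, m ≠ 0 ∧ x ^ p ^ m = x) :
    ConstTors K := by
  intro κ
  obtain ⟨N, hN, h1⟩ := units_tors p hp h (lg κ)
  refine ⟨N, hN, ?_⟩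
  rw [← resU_lg (RatFunc.C : K →+* RatFunc K) κ, ← map_zsmul, h1, map_zero]

/-- The key computation with functions of degree at most one. -/
theorem tri_zero [IsAlgClosed K] (hc : ConstTors K) {Q : Type v} [AddCommGroup Q] [Module ℚ Q]
    (T : Additive (RatFunc K)ˣ →+ Additive (RatFunc K)ˣ →+ Additive (RatFunc K)ˣ →+ Q)
    (hsym : ∀ u v w, T u v w = T u w v)
    (h : ∀ f : RatFunc K, f ≠ 0 → 1 - f ≠ 0 → T (lg (1 - f)) (lg f) (lg f) = 0)
    (u v w : Additive (RatFunc K)ˣ) : T u v w = 0 := by
  -- constants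
  have c1 : ∀ κ v w, T (lg (RatFunc.C κ)) v w = 0 := by
    intro κ v w
    obtain ⟨N, hN, h1⟩ := hc κ
    refine q_tors hN ?_
    have : N • T (lg (RatFunc.C κ)) v w = T (N • lg (RatFunc.C κ)) v w := by
      rw [map_zsmul]; rfl
    rw [this, h1, map_zero]; rfl
  have c2 : ∀ u κ w, T u (lg (RatFunc.C κ)) w = 0 := by
    intro u κ w
    obtain ⟨N, hN, h1⟩ := hc κ
    refine q_tors hN ?_
    have : N • T u (lg (RatFunc.C κ)) w = T u (N • lg (RatFunc.C κ)) w := by
      rw [map_zsmul]; rfl
    rw [this, h1, map_zero]; rfl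
  have c3 : ∀ u v κ, T u v (lg (RatFunc.C κ)) = 0 := by
    intro u v κ
    rw [hsym, c2]
  have hZ : ∀ κ : K, (∀ v w, T (lg (RatFunc.C κ)) v w = 0) ∧
      (∀ u w, T u (lg (RatFunc.C κ)) w = 0) ∧ (∀ u v, T u v (lg (RatFunc.C κ)) = 0) :=
    fun κ => ⟨c1 κ, fun u w => c2 u κ w, fun u v => c3 u v κ⟩
  have hne : ∀ {a b : K}, a ≠ b → b - a ≠ 0 := fun h => sub_ne_zero.2 (Ne.symm h)
  have hX := X_sub_ne (K := K)
  -- (i)
  have e1 : ∀ a c : K, a ≠ c → T (ee c) (ee a) (ee a) = 0 := by
    intro a c hac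
    have hk := C_ne (hne hac)
    have hk' := C_ne (hne hac.symm)
    have hf : 1 - (RatFunc.X - RatFunc.C a) / RatFunc.C (c - a) =
        (RatFunc.X - RatFunc.C c) / RatFunc.C (a - c) := by
      rw [map_sub] at hk hk' ⊢
      rw [map_sub]
      field_simp
      ring
    have := h ((RatFunc.X - RatFunc.C a) / RatFunc.C (c - a)) (div_ne_zero (hX a) hk)
      (by rw [hf]; exact div_ne_zero (hX c) hk')
    rw [hf, lg_div (hX a) hk, lg_div (hX c) hk'] at this
    change T (ee c - _) (ee a - _) (ee a - _) = 0 at this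
    have z1 := hZ (c - a)
    have z2 := hZ (a - c)
    generalize lg (RatFunc.C (c - a) : RatFunc K) = κ1 at this z1
    generalize lg (RatFunc.C (a - c) : RatFunc K) = κ2 at this z2
    simpa only [map_sub, AddMonoidHom.sub_apply, z1.1, z1.2.1, z1.2.2, z2.1, z2.2.1, z2.2.2,
      sub_zero] using this
  -- (iv)
  have e4 : ∀ b c : K, b ≠ c → T (ee b) (ee b) (ee b) = 0 := by
    intro b c hbc
    have hk := C_ne (hne hbc)
    have hf : 1 - RatFunc.C (c - b) / (RatFunc.X - RatFunc.C b) =
        (RatFunc.X - RatFunc.C c) / (RatFunc.X - RatFunc.C b) := by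
      have := hX b
      rw [map_sub]
      field_simp
      ring
    have := h (RatFunc.C (c - b) / (RatFunc.X - RatFunc.C b)) (div_ne_zero hk (hX b))
      (by rw [hf]; exact div_ne_zero (hX c) (hX b))
    rw [hf, lg_div hk (hX b), lg_div (hX c) (hX b)] at this
    change T (ee c - ee b) (_ - ee b) (_ - ee b) = 0 at this
    have z1 := hZ (c - b)
    generalize lg (RatFunc.C (c - b) : RatFunc K) = κ1 at this z1
    simp only [map_sub, AddMonoidHom.sub_apply, z1.2.1, z1.2.2, zero_sub, e1 b c hbc] at this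
    simpa using this
  have e4' : ∀ b : K, T (ee b) (ee b) (ee b) = 0 := by
    intro b
    obtain ⟨c, hc⟩ := exists_ne b
    exact e4 b c hc.symm
  have e1' : ∀ a c : K, T (ee c) (ee a) (ee a) = 0 := by
    intro a c
    by_cases hac : a = c
    · subst hac; exact e4' a
    · exact e1 a c hac
  -- (iii)
  have e3 : ∀ a b : K, a ≠ b → T (ee b) (ee a) (ee b) = 0 := by
    intro a b hab
    have hk := C_ne (hne hab.symm)
    have hf : 1 - (RatFunc.X - RatFunc.C a) / (RatFunc.X - RatFunc.C b) =
        RatFunc.C (a - b) / (RatFunc.X - RatFunc.C b) := by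
      have := hX b
      rw [map_sub]
      field_simp
      ring
    have := h ((RatFunc.X - RatFunc.C a) / (RatFunc.X - RatFunc.C b))
      (div_ne_zero (hX a) (hX b)) (by rw [hf]; exact div_ne_zero hk (hX b))
    rw [hf, lg_div (hX a) (hX b), lg_div hk (hX b)] at this
    change T (_ - ee b) (ee a - ee b) (ee a - ee b) = 0 at this
    have z1 := hZ (a - b)
    generalize lg (RatFunc.C (a - b) : RatFunc K) = κ1 at this z1
    simp only [map_sub, AddMonoidHom.sub_apply, z1.1, zero_sub] at this
    rw [e1' a b, e4' b, hsym (ee b) (ee b) (ee a)] at this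
    have h2 : (2 : ℤ) • T (ee b) (ee a) (ee b) = 0 := by
      rw [two_zsmul]
      simpa using this
    exact q_tors two_ne_zero h2
  have e3' : ∀ a b : K, T (ee b) (ee a) (ee b) = 0 := by
    intro a b
    by_cases hab : a = b
    · subst hab; exact e4' a
    · exact e3 a b hab
  -- (ii)
  have e2 : ∀ a b c : K, T (ee c) (ee a) (ee b) = 0 := by
    intro a b c
    by_cases hab : a = b
    · subst hab; exact e1' a c
    by_cases hac : a = c
    · subst hac; rw [hsym]; exact e3' b a
    by_cases hbc : b = c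
    · subst hbc; exact e3' a b
    have hk1 := C_ne (hne hac)
    have hk2 := C_ne (hne hbc)
    have hk3 := C_ne (hne hab)
    have hf : 1 - ((RatFunc.X - RatFunc.C a) * RatFunc.C (c - b)) /
        ((RatFunc.X - RatFunc.C b) * RatFunc.C (c - a)) =
        (RatFunc.C (b - a) * (RatFunc.X - RatFunc.C c)) /
        ((RatFunc.X - RatFunc.C b) * RatFunc.C (c - a)) := by
      have := hX b
      rw [map_sub] at hk1
      rw [map_sub, map_sub, map_sub]
      field_simp
      ring
    have := h _ (div_ne_zero (mul_ne_zero (hX a) hk2) (mul_ne_zero (hX b) hk1))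
      (by rw [hf]; exact div_ne_zero (mul_ne_zero hk3 (hX c)) (mul_ne_zero (hX b) hk1))
    rw [hf, lg_div (mul_ne_zero (hX a) hk2) (mul_ne_zero (hX b) hk1),
      lg_div (mul_ne_zero hk3 (hX c)) (mul_ne_zero (hX b) hk1),
      lg_mul (hX a) hk2, lg_mul (hX b) hk1, lg_mul hk3 (hX c)] at this
    change T (_ + ee c - (ee b + _)) (ee a + _ - (ee b + _)) (ee a + _ - (ee b + _)) = 0
      at this
    have z1 := hZ (c - a)
    have z2 := hZ (c - b)
    have z3 := hZ (b - a)
    generalize lg (RatFunc.C (c - a) : RatFunc K) = κ1 at this z1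
    generalize lg (RatFunc.C (c - b) : RatFunc K) = κ2 at this z2
    generalize lg (RatFunc.C (b - a) : RatFunc K) = κ3 at this z3
    simp only [map_sub, map_add, AddMonoidHom.sub_apply, AddMonoidHom.add_apply, z1.1,
      z1.2.1, z1.2.2, z2.2.1, z2.2.2, z3.1, zero_add, add_zero, e1' a c, e1' b c,
      e1' a b, e4' b, hsym (ee b) (ee b) (ee a), e3' a b, hsym (ee c) (ee b) (ee a),
      sub_zero, zero_sub, sub_self] at this
    have h2 : (2 : ℤ) • T (ee c) (ee a) (ee b) = 0 := by
      rw [two_zsmul]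
      have h3 : -(T (ee c) (ee a) (ee b) + T (ee c) (ee a) (ee b)) = 0 := by
        rw [← this]; abel
      exact neg_eq_zero.1 h3
    exact q_tors two_ne_zero h2
  -- general elements
  have hmem : ∀ v : Additive (RatFunc K)ˣ, v ∈ AddSubgroup.closure
      (Set.range (fun κ : K => lg (RatFunc.C κ : RatFunc K)) ∪
      Set.range (ee : K → Additive (RatFunc K)ˣ)) := by
    intro v; rw [gen_top]; trivial
  have s1 : ∀ (a b : K) (u : Additive (RatFunc K)ˣ), T u (ee a) (ee b) = 0 := by
    intro a b u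
    induction hmem u using AddSubgroup.closure_induction with
    | mem x hx =>
      rcases hx with ⟨κ, rfl⟩ | ⟨c, rfl⟩
      · exact c1 _ _ _
      · exact e2 a b c
    | zero => simp
    | add x y _ _ hx hy => rw [map_add, AddMonoidHom.add_apply, AddMonoidHom.add_apply, hx, hy,
        add_zero]
    | neg x _ hx => rw [map_neg, AddMonoidHom.neg_apply, AddMonoidHom.neg_apply, hx, neg_zero]
  have s2 : ∀ (b : K) (u v : Additive (RatFunc K)ˣ), T u v (ee b) = 0 := by
    intro b u v
    induction hmem v using AddSubgroup.closure_induction with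
    | mem x hx =>
      rcases hx with ⟨κ, rfl⟩ | ⟨c, rfl⟩
      · exact c2 _ _ _
      · exact s1 c b u
    | zero => simp
    | add x y _ _ hx hy => rw [map_add, AddMonoidHom.add_apply, hx, hy, add_zero]
    | neg x _ hx => rw [map_neg, AddMonoidHom.neg_apply, hx, neg_zero]
  induction hmem w using AddSubgroup.closure_induction with
  | mem x hx =>
    rcases hx with ⟨κ, rfl⟩ | ⟨c, rfl⟩
    · exact c3 _ _ _
    · exact s2 c u v
  | zero => simp
  | add x y _ _ hx hy => rw [map_add, hx, hy, add_zero]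
  | neg x _ hx => rw [map_neg, hx, neg_zero]

end

end Helper14.Gon
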