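import Pool.Agent.Helper14.Gon.Frob

set_option autoImplicit false

/-!
# `delta_n (R_n(F))` is torsion; specialisation of `B_n(K(t)) ⊗ ℚ`
-/

noncomputable section

open Polynomial TensorProduct Filter
open scoped Classical

namespace Helper14.Gon

universe u v w x y

section
variable {K : Type u} [Field K]

/-- The lowest coefficient of a polynomial at `c`. -/
def tcP (c : K) : K[X] →*₀ K where
  toFun P := (P.comp (X + C c)).trailingCoeff
  map_zero' := by simp
  map_one' := by
    simp only [one_comp]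
    rw [trailingCoeff_eq_coeff_zero] <;> simp
  map_mul' P Q := by rw [mul_comp, trailingCoeff_mul]

lemma tcP_ne {c : K} {P : K[X]} (hP : P ≠ 0) : tcP c P ≠ 0 := by
  intro h
  apply hP
  have h1 : P.comp (X + C c) = 0 := by
    have : (P.comp (X + C c)).trailingCoeff = 0 := h
    exact trailingCoeff_eq_zero.1 this
  have h2 : (P.comp (X + C c)).comp (X - C c) = P := by
    rw [comp_assoc]; simp
  rw [← h2, h1, zero_comp]

lemma tcP_eq {c : K} {P : K[X]} (hP : P.eval c ≠ 0) : tcP c P = P.eval c := by
  have h : (P.comp (X + C c)).coeff 0 = P.eval c := by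
    rw [coeff_zero_eq_eval_zero, eval_comp]; simp
  change (P.comp (X + C c)).trailingCoeff = _
  rw [trailingCoeff_eq_coeff_zero (by rwa [h]), h]

/-- The lowest coefficient of a rational function at `c`. -/
def lc (c : K) : RatFunc K →*₀ K :=
  RatFunc.liftMonoidWithZeroHom (tcP c) (by
    intro P hP
    rw [Submonoid.mem_comap, mem_nonZeroDivisors_iff_ne_zero]
    exact tcP_ne (mem_nonZeroDivisors_iff_ne_zero.1 hP))

lemma lc_div (c : K) (p q : K[X]) :
    lc c (algebraMap K[X] (RatFunc K) p / algebraMap K[X] (RatFunc K) q) =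
      tcP c p / tcP c q := by
  rw [lc, RatFunc.liftMonoidWithZeroHom_apply_div]

lemma lc_of_spec {c : K} {f : RatFunc K} {y : K} (h : spec c (some f) = some y) (hy : y ≠ 0) :
    lc c f = y := by
  obtain ⟨p, q, hq, hpq, hf⟩ := exists_rep c f
  rw [hf, spec_div c p q hq hpq] at h
  split_ifs at h with h1
  have h2 : p.eval c / q.eval c = y := Option.some.inj h
  have h3 : p.eval c ≠ 0 := by
    intro h0; rw [h0, zero_div] at h2; exact hy h2.symm
  rw [hf, lc_div, tcP_eq h3, tcP_eq h1, h2]

lemma spec_one_sub {c : K} {f : RatFunc K} {y : K} (h : spec c (some f) = some y) :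
    spec c (some (1 - f)) = some (1 - y) := by
  obtain ⟨p, q, hq, hpq, hf⟩ := exists_rep c f
  rw [hf, spec_div c p q hq hpq] at h
  split_ifs at h with h1
  have h2 : p.eval c / q.eval c = y := Option.some.inj h
  have hq' := RatFunc.algebraMap_ne_zero hq
  have e : 1 - f = algebraMap K[X] (RatFunc K) (q - p) / algebraMap K[X] (RatFunc K) q := by
    rw [hf, map_sub]; field_simp
  rw [e, spec_div c _ _ hq (Or.inr h1), if_neg h1, eval_sub, ← h2]
  congr 1
  field_simp

lemma lc_one_sub_of_none {c : K} {f : RatFunc K} (h : spec c (some f) = none) :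
    lc c (1 - f) = - lc c f := by
  obtain ⟨p, q, hq, hpq, hf⟩ := exists_rep c f
  rw [hf, spec_div c p q hq hpq] at h
  split_ifs at h with h1
  have hp : p.eval c ≠ 0 := by
    rcases hpq with h | h
    · exact h
    · exact absurd h1 h
  have hq' := RatFunc.algebraMap_ne_zero hq
  have e : 1 - f = algebraMap K[X] (RatFunc K) (q - p) / algebraMap K[X] (RatFunc K) q := by
    rw [hf, map_sub]; field_simp
  have h3 : (q - p).eval c = - p.eval c := by rw [eval_sub, h1, zero_sub]
  rw [e, lc_div, hf, lc_div, tcP_eq hp, tcP_eq (by rw [h3]; simpa using hp), h3, neg_div]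

/-- The lowest coefficient as a homomorphism `K(t)^* → K^*`. -/
def lcU (c : K) : Additive (RatFunc K)ˣ →+ Additive Kˣ :=
  MonoidHom.toAdditive (Units.map (lc c : RatFunc K →* K))

lemma lc_ne {c : K} {f : RatFunc K} (hf : f ≠ 0) : lc c f ≠ 0 := by
  intro h
  have h1 : lc c f * lc c f⁻¹ = 1 := by rw [← map_mul, mul_inv_cancel₀ hf, map_one]
  rw [h, zero_mul] at h1
  exact zero_ne_one h1

lemma lcU_lg (c : K) (f : RatFunc K) : lcU c (lg f) = lg (lc c f) := by
  by_cases hf : f = 0
  · subst hf; simp
  · have h := lc_ne (c := c) hf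
    rw [lg, lg, dif_neg hf, dif_neg h]
    change Additive.ofMul _ = Additive.ofMul _
    congr 1
    ext
    simp

/-- The effect of specialisation on `delta_2`, up to `2`-torsion. -/
lemma delta2_spec (c : K) (α : ZP (RatFunc K)) :
    (2 : ℤ) • exteriorPower.map 2 (lcU c).toIntLinearMap (delta2 (RatFunc K) α) =
      (2 : ℤ) • delta2 K (specZ c α) := by
  have key : ∀ x : P1 (RatFunc K),
      (2 : ℤ) • exteriorPower.map 2 (lcU c).toIntLinearMap (d2 x) = (2 : ℤ) • d2 (spec c x) := by
    intro x
    cases x with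
    | none => simp [d2]
    | some f =>
      have h1 : exteriorPower.map 2 (lcU c).toIntLinearMap (d2 (some f)) =
          wdg (lg (lc c (1 - f))) (lg (lc c f)) := by
        simp only [d2, wdg]
        rw [exteriorPower.map_apply_ιMulti, ← lcU_lg, ← lcU_lg]
        congr 1
        funext i
        fin_cases i <;> rfl
      rw [h1]
      rcases hs : spec c (some f) with _ | y
      · rw [lc_one_sub_of_none hs]
        have hf : f ≠ 0 := by
          rintro rfl
          rw [spec_zero] at hs
          exact absurd hs (by simp)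
        have h2 := lc_ne (c := c) hf
        have h3 : lg (- lc c f) = lg (-1 : K) + lg (lc c f) := by
          rw [← lg_mul (by simp) h2, neg_one_mul]
        rw [h3, wdg_add_left, wdg_self, add_zero, ← wdg_zsmul_left, lg_neg_one]
        simp [d2]
      · have hs' := spec_one_sub hs
        by_cases hy : y = 0
        · subst hy
          rw [sub_zero] at hs'
          rw [lc_of_spec hs' one_ne_zero]
          simp [d2]
        · rw [lc_of_spec hs hy]
          by_cases hy1 : 1 - y = 0
          · have : y = 1 := (sub_eq_zero.1 hy1).symm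
            subst this
            simp [d2]
          · rw [lc_of_spec hs' hy1, d2]
  have : ((2 : ℤ) • ((exteriorPower.map 2 (lcU c).toIntLinearMap).toAddMonoidHom.comp
      (delta2 (RatFunc K)))) = (2 : ℤ) • (delta2 K).comp (specZ c) := by
    refine hom_ext fun x => ?_
    have := key x
    simp only [AddMonoidHom.smul_apply, AddMonoidHom.comp_apply, delta2, ext_br, specZ_single]
    exact this
  exact DFunLike.congr_fun this α

variable (K) in
/-- `delta_m (R_m(K))` is torsion. -/
def WD (m : ℕ) : Prop := ∀ β ∈ R m K, Tors (A m K) β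

variable (K) in
/-- Specialisation at `c` maps `R_m(K(t))` to `R_m(K)` up to torsion. -/
def SP (m : ℕ) : Prop := ∀ β ∈ R m (RatFunc K), ∀ c : K, Tors (R m K) (specZ c β)

lemma br_zero_mem_A (n : ℕ) : br (some 0) ∈ A (n + 2) K := by
  cases n with
  | zero =>
    change delta2 K _ = 0
    rw [delta2, ext_br]; simp [d2]
  | succ n =>
    change deltaS _ _ = 0
    rw [deltaS, ext_br]; simp [dst]

lemma br_inf_mem_A (n : ℕ) : br none ∈ A (n + 2) K := by
  cases n with
  | zero =>
    change delta2 K _ = 0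
    rw [delta2, ext_br]; simp [d2]
  | succ n =>
    change deltaS _ _ = 0
    rw [deltaS, ext_br]; simp [dst]

lemma wd_of (n : ℕ) (h : ∀ α ∈ A (n + 2) (RatFunc K), ∀ c : K,
    Tors (A (n + 2) K) (specZ c α)) : WD K (n + 2) := by
  intro β hβ
  rw [R_add_two, relFrom] at hβ
  induction hβ using AddSubgroup.closure_induction with
  | mem r hr =>
    rcases hr with hr | ⟨α, hα, rfl⟩
    · rcases hr with rfl | rfl
      · exact Tors.of_mem (br_zero_mem_A n)
      · exact Tors.of_mem (br_inf_mem_A n)
    · exact (h α hα 0).sub (h α hα 1)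
  | zero => exact Tors.of_mem (zero_mem _)
  | add a b _ _ ha hb => exact ha.add hb
  | neg a _ ha => exact ha.neg

lemma wd_two : WD K 2 := by
  refine wd_of 0 fun α hα c => ⟨2, two_ne_zero, ?_⟩
  have h0 : delta2 (RatFunc K) α = 0 := hα
  have h1 := delta2_spec c α
  rw [h0, map_zero, smul_zero] at h1
  change delta2 K _ = 0
  rw [map_zsmul, ← h1]

/-- The specialisation map `B_m(K(t)) ⊗ K(t)^* → ℚ ⊗ (B_m(K) ⊗ K^*)`. -/
def spT {m : ℕ} (h : SP K m) (c : K) :
    (ZP (RatFunc K) ⧸ R m (RatFunc K)) ⊗[ℤ] Additive (RatFunc K)ˣ →+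
      ℚ ⊗[ℤ] ((ZP K ⧸ R m K) ⊗[ℤ] Additive Kˣ) :=
  TensorProduct.liftAddHom
    (QuotientAddGroup.lift (R m (RatFunc K))
      (AddMonoidHom.mk' (fun α => AddMonoidHom.mk'
        (fun v => toQ ((QuotientAddGroup.mk (specZ c α) : ZP K ⧸ R m K) ⊗ₜ[ℤ] lcU c v))
        (by intro a b; rw [map_add, tmul_add, toQ, tmul_add]))
        (by
          intro a b
          refine DFunLike.ext _ _ fun v => ?_
          change toQ ((QuotientAddGroup.mk (specZ c (a + b)) : ZP K ⧸ R m K) ⊗ₜ[ℤ] lcU c v) =
            toQ ((QuotientAddGroup.mk (specZ c a) : ZP K ⧸ R m K) ⊗ₜ[ℤ] lcU c v) +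
            toQ ((QuotientAddGroup.mk (specZ c b) : ZP K ⧸ R m K) ⊗ₜ[ℤ] lcU c v)
          rw [map_add, QuotientAddGroup.mk_add, add_tmul, toQ, tmul_add]))
      (by
        intro β hβ
        refine DFunLike.ext _ _ fun v => ?_
        change toQ ((QuotientAddGroup.mk (specZ c β) : ZP K ⧸ R m K) ⊗ₜ[ℤ] lcU c v) = 0
        rw [toQ_eq_zero]
        obtain ⟨N, hN, h1⟩ := h β hβ c
        refine ⟨N, hN, ?_⟩
        rw [← zs_tmul]
        have : N • (QuotientAddGroup.mk (specZ c β) : ZP K ⧸ R m K) = 0 :=
          (QuotientAddGroup.eq_zero_iff _).2 h1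
        rw [this, zero_tmul]))
    (by
      intro r m n
      rw [map_zsmul, map_zsmul]
      rfl)

lemma spT_tmul {m : ℕ} (h : SP K m) (c : K) (α : ZP (RatFunc K)) (v : Additive (RatFunc K)ˣ) :
    spT h c ((QuotientAddGroup.mk α : ZP (RatFunc K) ⧸ R m (RatFunc K)) ⊗ₜ[ℤ] v) =
      toQ ((QuotientAddGroup.mk (specZ c α) : ZP K ⧸ R m K) ⊗ₜ[ℤ] lcU c v) := rfl

lemma spT_deltaS {n : ℕ} (h : SP K (n + 2)) (c : K) (α : ZP (RatFunc K)) :
    spT h c (deltaS (R (n + 2) (RatFunc K)) α) = toQ (deltaS (R (n + 2) K) (specZ c α)) := by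
  have key : ∀ x : P1 (RatFunc K),
      spT h c (dst (R (n + 2) (RatFunc K)) x) = toQ (dst (R (n + 2) K) (spec c x)) := by
    intro x
    cases x with
    | none => simp [dst]
    | some f =>
      rw [dst, spT_tmul, specZ_single, dst, lgP_some, lcU_lg]
      rcases hs : spec c (some f) with _ | y
      · have : (QuotientAddGroup.mk (br none) : ZP K ⧸ R (n + 2) K) = 0 :=
          (QuotientAddGroup.eq_zero_iff _).2 (br_inf_mem _)
        rw [this, zero_tmul, zero_tmul]
      · by_cases hy : y = 0
        · subst hy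
          have : (QuotientAddGroup.mk (br (some 0)) : ZP K ⧸ R (n + 2) K) = 0 :=
            (QuotientAddGroup.eq_zero_iff _).2 (br_zero_mem _)
          rw [this, zero_tmul, zero_tmul]
        · rw [lc_of_spec hs hy, lgP_some]
  have : (spT h c).comp (deltaS (R (n + 2) (RatFunc K))) =
      ((TensorProduct.mk ℤ ℚ ((ZP K ⧸ R (n + 2) K) ⊗[ℤ] Additive Kˣ) 1).toAddMonoidHom.comp
        (deltaS (R (n + 2) K))).comp (specZ c) := by
    refine hom_ext fun x => ?_
    simp only [AddMonoidHom.comp_apply, deltaS, ext_br, specZ_single]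
    exact key x
  exact DFunLike.congr_fun this α

lemma specA_tors {n : ℕ} (h : SP K (n + 2)) {α : ZP (RatFunc K)}
    (hα : α ∈ A (n + 3) (RatFunc K)) (c : K) : Tors (A (n + 3) K) (specZ c α) := by
  have h0 : deltaS (R (n + 2) (RatFunc K)) α = 0 := hα
  have h1 := spT_deltaS h c α
  rw [h0, map_zero] at h1
  obtain ⟨N, hN, h2⟩ := (toQ_eq_zero _).1 h1.symm
  refine ⟨N, hN, ?_⟩
  change deltaS _ _ = 0
  rw [map_zsmul, h2]

lemma sp_of_wd {n : ℕ} (h : WD (RatFunc K) (n + 2)) : SP K (n + 2) := by
  intro β hβ c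
  by_cases hK : Finite K
  · obtain ⟨p, hp⟩ := CharP.exists K
    have hp' : p.Prime := by
      rcases CharP.char_is_prime_or_zero K p with h | h
      · exact h
      · subst h
        have := CharP.charP_to_charZero K
        exact absurd hK (not_finite_iff_infinite.2 (Infinite.of_injective _ Nat.cast_injective
          : Infinite K))
    refine tors_all p hp' ?_ (n + 1) _
    intro x
    have := Fact.mk hp'
    let := Fintype.ofFinite K
    obtain ⟨m, _, hm⟩ := FiniteField.card K p
    exact ⟨m, m.ne_zero, by rw [← hm]; exact FiniteField.pow_card x⟩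
  · have : Infinite K := not_finite_iff_infinite.1 hK
    obtain ⟨a, ha⟩ := (specZ_R hβ).exists
    obtain ⟨N, hN, h1⟩ := h β hβ
    have h2 := specZ_sub_mem h1 c a
    rw [map_zsmul, map_zsmul] at h2
    have h3 : N • specZ a β ∈ R (n + 2) K := AddSubgroup.zsmul_mem _ ha N
    refine ⟨N, hN, ?_⟩
    have := add_mem h2 h3
    rwa [sub_add_cancel] at this

end

/-- `delta_n (R_n(F))` is torsion for every field `F` and every `n ≥ 2`. -/
theorem wd (n : ℕ) : ∀ (K : Type u) [Field K], WD K (n + 2) := by
  induction n with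
  | zero => intro K _; exact wd_two
  | succ n ih =>
    intro K _
    exact wd_of (n + 1) fun α hα c => specA_tors (sp_of_wd (ih (RatFunc K))) hα c

/-- Specialisation respects `R_n` up to torsion. -/
theorem sp (n : ℕ) (K : Type u) [Field K] : SP K (n + 2) := sp_of_wd (wd n (RatFunc K))

end Helper14.Gon
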